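import Pool.Agent.H385R2.WinE

/-!
Project AB (helper693): the constant.
-/

set_option autoImplicit false

open H385

namespace Pool.Agent.Y693.AB

/-- the constant in closed form -/
theorem const_closed (δ : ℝ) (h0 : 0 < δ) (h1 : δ < 1) :
    1 / δ * Rw (Real.sqrt 2 * δ) 0 +
      2 * δ * (∫ α in (0 : ℝ)..1, α * Rw (Real.sqrt 2 * δ) α) =
      δ / 2 + Real.cot (δ / Real.sqrt 2) / Real.sqrt 2 := by
  have hs : 0 < Real.sqrt 2 := by positivity
  have hs2 : Real.sqrt 2 ^ 2 = 2 := Real.sq_sqrt (by norm_num)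
  set r := Real.sqrt 2 with hr
  have hγ : r * δ ≠ 0 := by positivity
  rw [Rw_const_closed (r * δ) (1 / δ) (2 * δ) hγ]
  set y := δ / r with hy
  have hy2 : r * δ / 2 = y := by
    rw [hy, eq_div_iff hs.ne']
    calc r * δ / 2 * r = r ^ 2 * δ / 2 := by ring
      _ = δ := by rw [hs2]; ring
  have hγy : r * δ = 2 * y := by rw [← hy2]; ring
  have hδy : δ = r * y := by rw [hy]; field_simp
  have hy0 : 0 < y := by rw [hy]; positivity
  have hyπ : y < Real.pi := by
    have h2 : y ≤ δ := by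
      rw [hy, div_le_iff₀ hs]
      have h3 : 1 ≤ r := by rw [hr, Real.one_le_sqrt]; norm_num
      nlinarith
    have := Real.pi_gt_three
    linarith
  have hsin : 0 < Real.sin y := Real.sin_pos_of_pos_of_lt_pi hy0 hyπ
  have hS : Real.sin (r * δ) = 2 * Real.sin y * Real.cos y := by
    rw [hγy, Real.sin_two_mul]
  have hC : Real.cos (r * δ) = 1 - 2 * Real.sin y ^ 2 := by
    rw [hγy, Real.cos_two_mul, Real.cos_sq']
    ring
  rw [hy2, hS, hC, Real.cot_eq_cos_div_sin, hγy]
  set s := Real.sin y with hs'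
  set c := Real.cos y with hc'
  rw [hδy]
  have hs3 : r * r = 2 := by rw [← pow_two]; exact hs2
  field_simp
  ring_nf
  have hr4 : r ^ 4 = 4 := by
    calc r ^ 4 = (r ^ 2) ^ 2 := by ring
      _ = 4 := by rw [hs2]; norm_num
  simp only [hs2]
  ring

end Pool.Agent.Y693.AB
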