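import Pool.Agent.Y693.AB.Core
import Pool.Agent.Y693.AB.Cst

/-!
Project AB (helper693): the family theorem.
-/

set_option autoImplicit false
set_option maxHeartbeats 4000000

open Complex Filter Topology Set MeasureTheory
open H370 (zset mult NN Nd Ns)
open H385
open Pool.Agent.H304R3.HK (tc HC CS bb LamK psi bH aH LH tc_star_mul one_le_norm_tc)
open Pool.Agent.W164.RC (two2)

namespace Pool.Agent.Y693.AB

theorem ab_main (cd : (q : ZI) → MulChar (RQ q) ℂ → ZI)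
    (pr : (q : ZI) → MulChar (RQ q) ℂ → (ZI →* ℂ))
    (hprim : ∀ q : ZI, q ≠ 0 → ∀ χ ∈ FQs q, cd q χ ∣ q ∧ HC (cd q χ) (pr q χ) ∧
      ∀ a : ZI, IsCoprime a q → pr q χ a = chiZ q χ a)
    (δ : ℝ) (hδ : 2 / 3 < δ) (hδ1 : δ < 1) (ε : ℝ) (hε : 0 < ε) :
    ∃ C0 η : ℝ, 1 ≤ C0 ∧ 0 < η ∧ ∀ (q : ZI) (T : ℝ) (V : Subgroup (RQ q)ˣ), q ≠ 0 → two2 ∣ q →
      NU q ≤ V → (nrm q : ℝ) ^ δ ≤ ((FU q V).card : ℝ) →
      C0 * (1 + Real.sqrt (Real.log ‖tc q‖)) ≤ T → T ≤ ‖tc q‖ ^ η →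
      T * ((FU q V).card : ℝ) ≤ ∑ χ ∈ FU q V, (NN (LH (pr q χ)) T (2 * T) : ℝ) ∧
      (2 - δ / 2 - Real.cot (δ / Real.sqrt 2) / Real.sqrt 2 - ε) *
        ∑ χ ∈ FU q V, (NN (LH (pr q χ)) T (2 * T) : ℝ) ≤
        ∑ χ ∈ FU q V, (Ns (LH (pr q χ)) T (2 * T) : ℝ) := by
  have hs : 0 < Real.sqrt 2 := by positivity
  have hδ0 : 0 < δ := by linarith
  have h2 : Real.sqrt 2 ≤ 2 := by
    rw [Real.sqrt_le_left (by norm_num)]; norm_num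
  have h0 : 0 < Real.sqrt 2 * δ := by positivity
  have hπ : Real.sqrt 2 * δ < Real.pi := by
    have h3 : Real.sqrt 2 * δ ≤ 2 * 1 := mul_le_mul h2 hδ1.le hδ0.le (by norm_num)
    have := Real.pi_gt_three
    linarith
  obtain ⟨C0, η, hC0, hη, H⟩ := ab_core cd pr hprim δ hδ hδ1 (Real.sqrt 2 * δ) h0 hπ ε hε
  refine ⟨C0, η, hC0, hη, ?_⟩
  intro q T V hq hq2 hV hVδ hT1 hT2
  obtain ⟨a1, a2, -⟩ := H q T V hq hq2 hV hVδ hT1 hT2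
  refine ⟨a1, ?_⟩
  rw [const_closed δ hδ0 hδ1, Finset.sum_sub_distrib, ← Finset.mul_sum] at a2
  linarith

end Pool.Agent.Y693.AB
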