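import Pool.Agent.Y693.AB.Count2
import Pool.Agent.Y693.AB.Fm

/-!
Project AB (helper693): the zeros of `L(E/K, s)` for the large abelian extensions `K` of `ℚ(i)`;
Euler factors at the primes dividing `q` omitted.
-/

set_option autoImplicit false

open Complex Filter Topology Set NumberField IsDedekindDomain
open H370 (zset mult NN Nd Ns)
open H385 (ZI RQ im1 chiZ FQs phiQ nrm)
open Pool.Agent.H82R3.EK (cnt cnt_prod NN_eq Ns_le strip line)
open Pool.Agent.H304R3.HK (tc HC LH aH psi uh_psi one_le_norm_tc goodH tc_star_mul)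
open Pool.Agent.W164.RC (two2 Cq Cq_ne Cq_diff zerosH NH NH₀ zeros_shift N_shift N₀_shift
  norm_tc_star two_dvd_star eulerFactor)

namespace Pool.Agent.Y693.AB

/-- the constant -/
noncomputable def kap (δ : ℝ) : ℝ := 2 - δ / 2 - Real.cot (δ / Real.sqrt 2) / Real.sqrt 2

theorem main_final_ab : ∃ F : (q : ZI) → Subgroup (RQ q)ˣ → ℂ → ℂ,
    (∀ q : ZI, q ≠ 0 → two2 ∣ q → ∀ (K : Type) [Field K] [NumberField K] (ι : ZI →+* 𝓞 K)
      (art : (RQ q)ˣ →* (𝓞 K ≃+* 𝓞 K)), IsAbelianExtension q K ι art →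
      Differentiable ℂ (F q art.ker) ∧
      ∀ s : ℂ, 3 / 2 < s.re → HasProd (open Classical in fun v : HeightOneSpectrum (𝓞 K) =>
        if ι q ∈ v.asIdeal then 1 else eulerFactor s v) (F q art.ker s)) ∧
    ∀ δ : ℝ, 2 / 3 < δ → δ < 1 → ∀ ε : ℝ, 0 < ε → ∃ C η : ℝ, 0 < η ∧
      ∀ q : ZI, q ≠ 0 → two2 ∣ q → ∀ V : Subgroup (RQ q)ˣ, NU q ≤ V →
      (Zsqrtd.norm q : ℝ) ^ δ ≤ ((FU q V).card : ℝ) →
      ∀ T : ℝ, C * (1 + Real.sqrt (Real.log (Zsqrtd.norm q : ℝ))) ≤ T →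
        T ≤ (Zsqrtd.norm q : ℝ) ^ η →
        (zerosH (F q V) T).Finite ∧
        2 * ((FU q V).card : ℝ) * T ≤ (NH (F q V) T : ℝ) ∧
        (kap δ - ε) * (NH (F q V) T : ℝ) ≤ (NH₀ (F q V) T : ℝ) := by
  classical
  obtain ⟨cd, pr, hp, -, -, -, -, -⟩ := H385.he_main
  have hprim : ∀ q : ZI, q ≠ 0 → ∀ χ ∈ FQs q, cd q χ ∣ q ∧ HC (cd q χ) (pr q χ) ∧
      ∀ a : ZI, IsCoprime a q → pr q χ a = chiZ q χ a :=
    fun q hq χ hχ => hp q hq χ (((H385.fq_finite q hq).2.2 χ).1 hχ)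
  obtain ⟨A, hA, hgood⟩ := goodH
  refine ⟨fun q V s => FV pr q V (s - 1 / 2) * FV pr (star q) (starV V) (s - 1 / 2), ?_, ?_⟩
  · intro q hq h2 K _ _ ι art H
    have hq' : star q ≠ 0 := fun h => hq (by rw [← star_star q, h, star_zero])
    have hd1 := FV_diff cd pr hprim hq art.ker
    have hd2 := FV_diff cd pr hprim hq' (starV art.ker)
    refine ⟨(hd1.comp (by fun_prop)).mul (hd2.comp (by fun_prop)), fun s hs => ?_⟩
    exact hasProd_KV cd pr hprim hq h2 H hs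
  · intro δ hδ hδ1 ε hε
    obtain ⟨C0, η, hC0, hη, Hm⟩ := ab_main cd pr hprim δ hδ hδ1 ε hε
    refine ⟨C0, η / 2, by positivity, ?_⟩
    intro q hq h2 V hV hVδ T hT1 hT2
    have hq' : star q ≠ 0 := fun h => hq (by rw [← star_star q, h, star_zero])
    have h2' := two_dvd_star h2
    have hQ1 : 1 ≤ ‖tc q‖ := one_le_norm_tc hq
    have hn : (Zsqrtd.norm q : ℝ) = ‖tc q‖ ^ 2 := (tc_star_mul q).symm
    have hlog : Real.log ‖tc q‖ ≤ Real.log (Zsqrtd.norm q : ℝ) := by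
      rw [hn]
      exact Real.log_le_log (by linarith) (by nlinarith)
    have hsq := Real.sqrt_le_sqrt hlog
    have hs0 := Real.sqrt_nonneg (Real.log ‖tc q‖)
    have hTa : C0 * (1 + Real.sqrt (Real.log ‖tc q‖)) ≤ T := by
      refine le_trans ?_ hT1
      exact mul_le_mul_of_nonneg_left (by linarith) (by linarith)
    have hTc : T ≤ ‖tc q‖ ^ η := by
      refine hT2.trans (le_of_eq ?_)
      rw [hn, ← Real.rpow_natCast, ← Real.rpow_mul (by linarith)]
      congr 1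
      push_cast
      ring
    have hT0 : 1 ≤ T := by
      refine le_trans ?_ hTa
      nlinarith
    have hst := norm_tc_star q
    have hcast : ∀ a : ZI, ((nrm a : ℕ) : ℝ) = (Zsqrtd.norm a : ℝ) := by
      intro a
      rw [H385.nrm_eq, tc_star_mul]
    have hVδ1 : (nrm q : ℝ) ^ δ ≤ ((FU q V).card : ℝ) := by
      rw [hcast]
      exact hVδ
    have hVδ2 : (nrm (star q) : ℝ) ^ δ ≤ ((FU (star q) (starV V)).card : ℝ) := by
      rw [card_FU_star hq h2 V hV, hcast, Pool.Agent.H304R2.EC.A1.gnorm_star]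
      exact hVδ
    -- non-vanishing
    have hne : ∀ q : ZI, q ≠ 0 → ∀ V : Subgroup (RQ q)ˣ, ∀ z : ℂ, 1 ≤ z.re → 1 ≤ z.im →
        FV pr q V z ≠ 0 := by
      intro q hq V z h1 h3
      unfold FV
      rw [Finset.prod_ne_zero_iff]
      intro χ hχ
      obtain ⟨b1, b2, b3⟩ := hprim q hq χ (mem_FU.1 hχ).1
      exact mul_ne_zero ((hgood _ _ b2).2.2.2.nzr z h1 h3)
        (Cq_ne q (uh_psi _ _ b2) (by linarith))
    have hG : ∀ z : ℂ, 1 ≤ z.re → 1 ≤ z.im → FV pr q V z * FV pr (star q) (starV V) z ≠ 0 :=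
      fun z h1 h3 => mul_ne_zero (hne q hq V z h1 h3) (hne _ hq' (starV V) z h1 h3)
    obtain ⟨t1, t2, t3⟩ := tot_cntV cd pr hprim hq V hT0
    have e1 := N_shift (G := fun z => FV pr q V z * FV pr (star q) (starV V) z) hT0 hG
    have e2 := N₀_shift (G := fun z => FV pr q V z * FV pr (star q) (starV V) z) hT0 hG
    have e3 := zeros_shift (G := fun z => FV pr q V z * FV pr (star q) (starV V) z) hT0 hG
    obtain ⟨a1, a2⟩ := Hm q T V hq h2 hV hVδ1 hTa hTc
    obtain ⟨b1, b2⟩ := Hm (star q) T (starV V) hq' h2' (NU_starV V hV) hVδ2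
      (by rw [hst]; exact hTa) (by rw [hst]; exact hTc)
    refine ⟨?_, ?_, ?_⟩
    · rw [e3]
      exact t3.image _
    · rw [e1, t1]
      push_cast
      rw [card_FU_star hq h2 V hV] at b1
      linarith
    · rw [e1, e2, t1]
      have t2' : ((∑ χ ∈ FU q V, Ns (LH (pr q χ)) T (2 * T) +
        ∑ χ ∈ FU (star q) (starV V), Ns (LH (pr (star q) χ)) T (2 * T) : ℕ) : ℝ) ≤
        ((cnt (fun z => FV pr q V z * FV pr (star q) (starV V) z) (line T (2 * T)) : ℕ) : ℝ) := by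
        exact_mod_cast t2
      push_cast at t2' ⊢
      unfold kap
      linarith

end Pool.Agent.Y693.AB
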