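import Pool.Agent.Y693.AB.Ray2
import Pool.Agent.W164.RC.Euler2

/-!
Project AB (helper693): products over the characters of the family, and the dual family.
-/

set_option autoImplicit false

open Complex
open H385 (ZI RQ im1 chiZ FQs phiQ nrm)
open Pool.Agent.H304R2.EC.A1 (prim prim_one prim_star)
open Pool.Agent.W164.RC (two2 hasSum_congr_fun prim_pow star_dvd phiQ_star two_dvd_star)

namespace Pool.Agent.Y693.AB

theorem sum_FU_pow {q : ZI} (hq : q ≠ 0) (h2 : two2 ∣ q) (V : Subgroup (RQ q)ˣ) {z : ZI}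
    (hz : prim z) (hc : IsCoprime z q) (k : ℕ) :
    ∑ χ ∈ FU q V, chiZ q χ (z ^ k) = if fV V z ∣ k then ((FU q V).card : ℂ) else 0 := by
  classical
  obtain ⟨u, hu⟩ := H385.he2_unit hc
  have hw : PrimCl q (u ^ k) := ⟨z ^ k, prim_pow hz k, by
    rw [Units.val_pow_eq_pow_val, hu, map_pow]⟩
  have h := orth_FU hq h2 V hw
  have e1 : ∀ χ : MulChar (RQ q) ℂ, chiZ q χ (z ^ k) = χ ((u ^ k : (RQ q)ˣ) : RQ q) := by
    intro χ
    rw [Units.val_pow_eq_pow_val, hu, ← map_pow (Ideal.Quotient.mk (Ideal.span {q}))]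
    rfl
  simp_rw [e1]
  rw [h]
  simp only [fV_dvd V u hu]

/-- `∏_χ (1 - χ(z) Y) = (1 - Y^f)^N` -/
theorem prod_FU {q : ZI} (hq : q ≠ 0) (h2 : two2 ∣ q) (V : Subgroup (RQ q)ˣ) {z : ZI}
    (hz : prim z) (hc : IsCoprime z q) (N : ℕ) (hN : N * fV V z = (FU q V).card)
    (Y : ℂ) (hY : ‖Y‖ < 1) :
    ∏ χ ∈ FU q V, (1 - chiZ q χ z * Y) = (1 - Y ^ fV V z) ^ N := by
  classical
  have hf0 : 0 < fV V z := fV_pos hq V hc
  set f := fV V z with hf
  have hYf : ‖Y ^ f‖ < 1 := by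
    rw [norm_pow]
    exact pow_lt_one₀ (norm_nonneg _) hY hf0.ne'
  have hχ : ∀ χ ∈ FU q V, ‖chiZ q χ z * Y‖ < 1 := by
    intro χ _
    rw [norm_mul, H385.he9_norm q hq χ z hc, one_mul]
    exact hY
  have h1 : HasSum (fun k : ℕ => ∑ χ ∈ FU q V, (chiZ q χ z * Y) ^ k / k)
      (∑ χ ∈ FU q V, -Complex.log (1 - chiZ q χ z * Y)) :=
    hasSum_sum fun χ h => Complex.hasSum_taylorSeries_neg_log (hχ χ h)
  have hphi : ((FU q V).card : ℂ) = N * f := by
    rw [← hN]; push_cast; ring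
  have h2' : ∀ k : ℕ, ∑ χ ∈ FU q V, (chiZ q χ z * Y) ^ k / k =
      if f ∣ k then ((N : ℂ) * f) * (Y ^ k / k) else 0 := by
    intro k
    have e1 : ∀ χ : MulChar (RQ q) ℂ, (chiZ q χ z * Y) ^ k / k =
        chiZ q χ (z ^ k) * (Y ^ k / k) := by
      intro χ
      rw [mul_pow, map_pow, mul_div_assoc]
    simp_rw [e1]
    rw [← Finset.sum_mul, sum_FU_pow hq h2 V hz hc, ← hf, hphi]
    split_ifs with hk
    · rfl
    · rw [zero_mul]
  have h3 : HasSum (fun j : ℕ => ((N : ℂ) * f) * (Y ^ (f * j) / ((f * j : ℕ) : ℂ)))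
      (∑ χ ∈ FU q V, -Complex.log (1 - chiZ q χ z * Y)) := by
    have hinj : Function.Injective (fun j : ℕ => f * j) :=
      fun i j h => Nat.eq_of_mul_eq_mul_left hf0 h
    have := (hinj.hasSum_iff (f := fun k : ℕ => ∑ χ ∈ FU q V, (chiZ q χ z * Y) ^ k / k)
      (a := ∑ χ ∈ FU q V, -Complex.log (1 - chiZ q χ z * Y)) (by
        intro k hk
        rw [h2', if_neg]
        rintro ⟨j, rfl⟩
        exact hk ⟨j, rfl⟩)).2 h1
    refine hasSum_congr_fun this (fun j => ?_)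
    show _ = ∑ χ ∈ FU q V, (chiZ q χ z * Y) ^ (f * j) / ((f * j : ℕ) : ℂ)
    rw [h2', if_pos (dvd_mul_right f j)]
  have h4 : HasSum (fun j : ℕ => ((N : ℂ) * f) * (Y ^ (f * j) / ((f * j : ℕ) : ℂ)))
      ((N : ℂ) * -Complex.log (1 - Y ^ f)) := by
    have := (Complex.hasSum_taylorSeries_neg_log hYf).mul_left (N : ℂ)
    refine hasSum_congr_fun this (fun j => ?_)
    have hf0' : (f : ℂ) ≠ 0 := by exact_mod_cast hf0.ne'
    rw [pow_mul]
    push_cast
    rcases eq_or_ne (j : ℂ) 0 with hj | hj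
    · rw [hj]; simp
    · field_simp
  have h5 := h3.unique h4
  have h6 : Complex.exp (∑ χ ∈ FU q V, Complex.log (1 - chiZ q χ z * Y)) =
      Complex.exp (N * Complex.log (1 - Y ^ f)) := by
    congr 1
    rw [Finset.sum_neg_distrib] at h5
    linear_combination -h5
  have hne : ∀ w : ℂ, ‖w‖ < 1 → 1 - w ≠ 0 := by
    intro w hw h
    have : w = 1 := by linear_combination -h
    rw [this] at hw
    simp at hw
  rw [Complex.exp_sum, Complex.exp_nat_mul, Complex.exp_log (hne _ hYf)] at h6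
  rw [← h6]
  apply Finset.prod_congr rfl
  intro χ h
  rw [Complex.exp_log (hne _ (hχ χ h))]

/-! ### the dual family -/

/-- complex conjugation on the unit groups -/
noncomputable def starU (q : ZI) : (RQ q)ˣ ≃* (RQ (star q))ˣ :=
  Units.mapEquiv (Ideal.quotientEquiv (Ideal.span {q}) (Ideal.span {star q})
    (starRingAut : RingAut ZI) (by
      rw [Ideal.map_span, Set.image_singleton]
      rfl)).toMulEquiv

theorem starU_mk {q : ZI} (u : (RQ q)ˣ) {a : ZI}
    (hu : (u : RQ q) = Ideal.Quotient.mk (Ideal.span {q}) a) :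
    ((starU q u : (RQ (star q))ˣ) : RQ (star q)) =
      Ideal.Quotient.mk (Ideal.span {star q}) (star a) := by
  have key : ∀ e : RQ q ≃+* RQ (star q),
      ((Units.mapEquiv e.toMulEquiv u : (RQ (star q))ˣ) : RQ (star q)) = e (u : RQ q) :=
    fun e => rfl
  unfold starU
  rw [key, hu]
  rfl

/-- the dual group -/
noncomputable def starV {q : ZI} (V : Subgroup (RQ q)ˣ) : Subgroup (RQ (star q))ˣ :=
  V.map (starU q).toMonoidHom

theorem mem_starV {q : ZI} (V : Subgroup (RQ q)ˣ) (u : (RQ q)ˣ) :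
    starU q u ∈ starV V ↔ u ∈ V := by
  unfold starV
  rw [Subgroup.mem_map]
  constructor
  · rintro ⟨w, hw, h⟩
    have : w = u := (starU q).injective h
    rw [← this]
    exact hw
  · intro h
    exact ⟨u, h, rfl⟩

theorem card_starV {q : ZI} (V : Subgroup (RQ q)ˣ) : Nat.card (starV V) = Nat.card V := by
  unfold starV
  exact (Nat.card_congr (V.equivMapOfInjective (starU q).toMonoidHom (starU q).injective).toEquiv).symm

theorem NU_starV {q : ZI} (V : Subgroup (RQ q)ˣ) (h : NU q ≤ V) : NU (star q) ≤ starV V := by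
  intro w hw
  obtain ⟨u, rfl⟩ := (starU q).surjective w
  rw [mem_starV]
  apply h
  rw [mem_NU] at hw ⊢
  obtain ⟨e, he⟩ := hw
  obtain ⟨a, ha⟩ := Ideal.Quotient.mk_surjective (u : RQ q)
  rw [starU_mk u ha.symm, Ideal.Quotient.eq, Ideal.mem_span_singleton] at he
  have he' : IsUnit (star (e : ZI)) := e.isUnit.star
  obtain ⟨e', he'⟩ := he'
  refine ⟨e', ?_⟩
  rw [he', ← ha, Ideal.Quotient.eq, Ideal.mem_span_singleton]
  have h3 : a - star (e : ZI) = star (star a - (e : ZI)) := by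
    rw [star_sub, star_star]
  rw [h3, ← star_star q]
  exact star_dvd.2 he

theorem card_FU_star {q : ZI} (hq : q ≠ 0) (h2 : two2 ∣ q) (V : Subgroup (RQ q)ˣ)
    (h : NU q ≤ V) : (FU (star q) (starV V)).card = (FU q V).card := by
  have hfq := H385.he1_finite hq
  have hfu : Finite (RQ q)ˣ := inferInstance
  have hq' : star q ≠ 0 := fun h => hq (by rw [← star_star q, h, star_zero])
  have h1 := card_FU hq h2 V h
  have h3 := card_FU hq' (two_dvd_star h2) (starV V) (NU_starV V h)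
  rw [card_starV, phiQ_star, ← h1] at h3
  exact Nat.eq_of_mul_eq_mul_left Nat.card_pos h3

theorem fV_star {q : ZI} (V : Subgroup (RQ q)ˣ) {z : ZI} (hc : IsCoprime z q) :
    fV (starV V) (star z) = fV V z := by
  obtain ⟨u, hu⟩ := H385.he2_unit hc
  have h : ∀ k : ℕ, fV (starV V) (star z) ∣ k ↔ fV V z ∣ k := by
    intro k
    rw [← fV_dvd V u hu, ← fV_dvd (starV V) (starU q u) (starU_mk u hu), ← map_pow, mem_starV]
  exact Nat.dvd_antisymm ((h _).2 dvd_rfl) ((h _).1 dvd_rfl)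

end Pool.Agent.Y693.AB
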