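import Pool.Agent.H385R5.HeDefs

/-!
Project AB (helper693), part 1: counting coprime pairs of Gaussian integers in a lattice
`x ≡ h y mod q`.
-/

set_option autoImplicit false

open H385 (ZI nrm)

namespace Pool.Agent.Y693.AB

theorem norm_eq (a : ZI) : a.norm = a.re ^ 2 + a.im ^ 2 := by
  rw [Zsqrtd.norm_def]
  ring

theorem nrm_cast (a : ZI) : ((nrm a : ℕ) : ℤ) = a.re ^ 2 + a.im ^ 2 := by
  unfold nrm
  rw [Int.natCast_natAbs, abs_of_nonneg (GaussianInt.norm_nonneg a), norm_eq]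

theorem nrm_mul (a b : ZI) : nrm (a * b) = nrm a * nrm b := by
  unfold nrm
  rw [Zsqrtd.norm_mul, Int.natAbs_mul]

theorem nrm_sub_le (a b : ZI) : nrm (a - b) ≤ 2 * nrm a + 2 * nrm b := by
  have e1 := nrm_cast (a - b)
  have e2 := nrm_cast a
  have e3 := nrm_cast b
  simp only [Zsqrtd.re_sub, Zsqrtd.im_sub] at e1
  have h4 : ((nrm (a - b) : ℕ) : ℤ) ≤ 2 * (nrm a : ℕ) + 2 * (nrm b : ℕ) := by
    rw [e1, e2, e3]
    nlinarith [sq_nonneg (a.re + b.re), sq_nonneg (a.im + b.im)]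
  exact_mod_cast h4

theorem nrm_zero_iff (a : ZI) : nrm a = 0 ↔ a = 0 := by
  unfold nrm
  rw [Int.natAbs_eq_zero]
  exact GaussianInt.norm_eq_zero

theorem nrm_pos {a : ZI} (h : a ≠ 0) : 0 < nrm a :=
  Nat.pos_of_ne_zero fun h1 => h ((nrm_zero_iff a).1 h1)

theorem nrm_one : nrm (1 : ZI) = 1 := by
  decide

/-- the Gaussian integers of norm at most `R` -/
noncomputable def GB (R : ℕ) : Finset ZI :=
  ((Finset.Icc (-(Nat.sqrt R : ℤ)) (Nat.sqrt R)) ×ˢ
    (Finset.Icc (-(Nat.sqrt R : ℤ)) (Nat.sqrt R))).image (fun p : ℤ × ℤ => (⟨p.1, p.2⟩ : ZI))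

theorem mem_GB {R : ℕ} {a : ZI} (h : nrm a ≤ R) : a ∈ GB R := by
  unfold GB
  rw [Finset.mem_image]
  refine ⟨(a.re, a.im), ?_, rfl⟩
  have e := nrm_cast a
  have h1 : a.re ^ 2 + a.im ^ 2 ≤ (R : ℤ) := by rw [← e]; exact_mod_cast h
  have key : ∀ x : ℤ, x ^ 2 ≤ (R : ℤ) → -(Nat.sqrt R : ℤ) ≤ x ∧ x ≤ (Nat.sqrt R : ℤ) := by
    intro x hx
    have h2 : x.natAbs ≤ Nat.sqrt R := by
      rw [Nat.le_sqrt]
      have h3 : ((x.natAbs * x.natAbs : ℕ) : ℤ) = x ^ 2 := by
        push_cast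
        rw [← sq, sq_abs]
      have h4 : ((x.natAbs * x.natAbs : ℕ) : ℤ) ≤ (R : ℤ) := by rw [h3]; exact hx
      exact_mod_cast h4
    omega
  have k1 := key a.re (by nlinarith [sq_nonneg a.im])
  have k2 := key a.im (by nlinarith [sq_nonneg a.re])
  rw [Finset.mem_product, Finset.mem_Icc, Finset.mem_Icc]
  exact ⟨k1, k2⟩

theorem card_GB (R : ℕ) : (GB R).card ≤ 8 * R + 1 := by
  refine Finset.card_image_le.trans ?_
  rw [Finset.card_product, Int.card_Icc]
  have h1 : ((Nat.sqrt R : ℤ) + 1 - -(Nat.sqrt R : ℤ)).toNat = 2 * Nat.sqrt R + 1 := by omega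
  rw [h1]
  have h2 : Nat.sqrt R * Nat.sqrt R ≤ R := Nat.sqrt_le R
  rcases Nat.eq_zero_or_pos (Nat.sqrt R) with h3 | h3
  · rw [h3]; omega
  · nlinarith

/-- two pairs with the same determinant against a third -/
theorem same_det {v w w' : ZI × ZI} (hv : IsCoprime v.1 v.2)
    (h : v.1 * w.2 - v.2 * w.1 = v.1 * w'.2 - v.2 * w'.1) :
    ∃ t : ZI, w.1 - w'.1 = v.1 * t ∧ w.2 - w'.2 = v.2 * t := by
  obtain ⟨a, b, hab⟩ := hv
  refine ⟨a * (w.1 - w'.1) + b * (w.2 - w'.2), ?_, ?_⟩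
  · linear_combination (-(w.1 - w'.1)) * hab - b * h
  · linear_combination (-(w.2 - w'.2)) * hab + a * h

/-- coprime pairs of small norm in the lattice `x ≡ h y mod q` -/
theorem lattice_count (q h : ZI) (hq : q ≠ 0) (B : ℕ) (S : Finset (ZI × ZI))
    (hS : ∀ v ∈ S, q ∣ v.1 - h * v.2 ∧ IsCoprime v.1 v.2 ∧ nrm v.1 ≤ B ∧ nrm v.2 ≤ B) :
    S.card ≤ 33 * (8 * (4 * B ^ 2 / nrm q) + 1) := by
  classical
  rcases S.eq_empty_or_nonempty with rfl | hne
  · simp
  obtain ⟨v, hv, hmax⟩ := S.exists_max_image (fun v => max (nrm v.1) (nrm v.2)) hne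
  obtain ⟨hvq, hvc, hv1, hv2⟩ := hS v hv
  have hdiv : ∀ w : ZI × ZI, ∃ m : ZI, w ∈ S → v.1 * w.2 - v.2 * w.1 = q * m := by
    intro w
    by_cases hw : w ∈ S
    · obtain ⟨hwq, -, -, -⟩ := hS w hw
      obtain ⟨c, hc⟩ := hvq
      obtain ⟨d, hd⟩ := hwq
      refine ⟨c * w.2 - v.2 * d, fun _ => ?_⟩
      linear_combination w.2 * hc - v.2 * hd
    · exact ⟨0, fun h => absurd h hw⟩
  choose m hm using hdiv
  have hmap : ∀ w ∈ S, m w ∈ GB (4 * B ^ 2 / nrm q) := by
    intro w hw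
    obtain ⟨-, -, hw1, hw2⟩ := hS w hw
    apply mem_GB
    rw [Nat.le_div_iff_mul_le (nrm_pos hq), mul_comm, ← nrm_mul, ← hm w hw]
    refine (nrm_sub_le _ _).trans ?_
    rw [nrm_mul, nrm_mul]
    have h1 : nrm v.1 * nrm w.2 ≤ B * B := Nat.mul_le_mul hv1 hw2
    have h2 : nrm v.2 * nrm w.1 ≤ B * B := Nat.mul_le_mul hv2 hw1
    nlinarith
  have hfib : ∀ b ∈ GB (4 * B ^ 2 / nrm q), (S.filter (fun w => m w = b)).card ≤ 33 := by
    intro b _
    rcases (S.filter (fun w => m w = b)).eq_empty_or_nonempty with he | ⟨w0, hw0⟩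
    · rw [he]; simp
    rw [Finset.mem_filter] at hw0
    have ht : ∀ w : ZI × ZI, ∃ t : ZI, w ∈ S.filter (fun w => m w = b) →
        w.1 - w0.1 = v.1 * t ∧ w.2 - w0.2 = v.2 * t := by
      intro w
      by_cases hw : w ∈ S.filter (fun w => m w = b)
      · have hw' := hw
        rw [Finset.mem_filter] at hw'
        obtain ⟨t, ht⟩ := same_det (w := w) (w' := w0) hvc
          (by rw [hm w hw'.1, hm w0 hw0.1, hw'.2, hw0.2])
        exact ⟨t, fun _ => ht⟩
      · exact ⟨0, fun h => absurd h hw⟩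
    choose t ht using ht
    have hinj : Set.InjOn t (S.filter (fun w => m w = b) : Set (ZI × ZI)) := by
      intro w hw w' hw' heq
      rw [Finset.mem_coe] at hw hw'
      obtain ⟨a1, a2⟩ := ht w hw
      obtain ⟨b1, b2⟩ := ht w' hw'
      rw [heq] at a1 a2
      refine Prod.ext ?_ ?_
      · linear_combination a1 - b1
      · linear_combination a2 - b2
    have hin : ∀ w ∈ S.filter (fun w => m w = b), t w ∈ GB 4 := by
      intro w hw
      obtain ⟨a1, a2⟩ := ht w hw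
      rw [Finset.mem_filter] at hw
      apply mem_GB
      have hw1 := hmax w hw.1
      have hw2 := hmax w0 hw0.1
      set M := max (nrm v.1) (nrm v.2) with hM
      have c1 : nrm w.1 ≤ M := (le_max_left _ _).trans hw1
      have c2 : nrm w.2 ≤ M := (le_max_right _ _).trans hw1
      have c3 : nrm w0.1 ≤ M := (le_max_left _ _).trans hw2
      have c4 : nrm w0.2 ≤ M := (le_max_right _ _).trans hw2
      have d1 : nrm v.1 * nrm (t w) ≤ 4 * M := by
        rw [← nrm_mul, ← a1]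
        exact (nrm_sub_le _ _).trans (by omega)
      have d2 : nrm v.2 * nrm (t w) ≤ 4 * M := by
        rw [← nrm_mul, ← a2]
        exact (nrm_sub_le _ _).trans (by omega)
      have d3 : M * nrm (t w) ≤ 4 * M := by
        rcases max_choice (nrm v.1) (nrm v.2) with h3 | h3
        · rw [hM, h3]
          rw [hM, h3] at d1
          exact d1
        · rw [hM, h3]
          rw [hM, h3] at d2
          exact d2
      have hM0 : 0 < M := by
        rcases Nat.eq_zero_or_pos M with h0 | h0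
        · exfalso
          have e1 : nrm v.1 = 0 := by
            have := le_max_left (nrm v.1) (nrm v.2)
            omega
          have e2 : nrm v.2 = 0 := by
            have := le_max_right (nrm v.1) (nrm v.2)
            omega
          rw [nrm_zero_iff] at e1 e2
          obtain ⟨a, b, hab⟩ := hvc
          rw [e1, e2] at hab
          simp at hab
        · exact h0
      have d4 : M * nrm (t w) ≤ M * 4 := by rw [mul_comm M 4]; exact d3
      exact Nat.le_of_mul_le_mul_left d4 hM0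
    calc (S.filter (fun w => m w = b)).card ≤ (GB 4).card :=
          Finset.card_le_card_of_injOn t hin hinj
      _ ≤ 33 := card_GB 4
  have h1 := Finset.card_le_mul_card_image_of_maps_to (f := m) hmap 33 hfib
  refine h1.trans ?_
  exact Nat.mul_le_mul_left _ (card_GB _)

end Pool.Agent.Y693.AB
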