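import Pool.Agent.Y693.AB.Fam
import Pool.Agent.H385R5.HE11

/-!
Project AB (helper693): few characters of the family have a small conductor.
-/

set_option autoImplicit false
set_option maxHeartbeats 4000000

open Complex
open H385 (ZI RQ im1 chiZ FQs phiQ nrm)
open Pool.Agent.H304R3.HK (tc HC CS bb LamK psi bH aH LH)
open Pool.Agent.W164.RC (two2)

namespace Pool.Agent.Y693.AB

open H385.H10 in
/-- few characters have a small conductor -/
theorem bad_count (cd : (q : ZI) → MulChar (RQ q) ℂ → ZI)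
    (pr : (q : ZI) → MulChar (RQ q) ℂ → (ZI →* ℂ))
    (hprim : ∀ q : ZI, q ≠ 0 → ∀ χ ∈ FQs q, cd q χ ∣ q ∧ HC (cd q χ) (pr q χ) ∧
      ∀ a : ZI, IsCoprime a q → pr q χ a = chiZ q χ a) (x δ : ℝ) (hx : x < δ) (ε : ℝ)
    (hε : 0 < ε) :
    ∃ C : ℝ, 0 < C ∧ ∀ (q : ZI) (_ : q ≠ 0) (V : Subgroup (RQ q)ˣ)
      (_ : (nrm q : ℝ) ^ δ ≤ ((FU q V).card : ℝ)) (_ : C ≤ Real.log ‖tc q‖),
      (((FU q V).filter (fun χ => ((nrm (cd q χ) : ℕ) : ℝ) ≤ (nrm q : ℝ) ^ x)).card : ℝ) ≤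
        ε * ((FU q V).card : ℝ) := by
  classical
  set k : ℝ := (δ - x) / 4 with hk
  have hk0 : 0 < k := by rw [hk]; linarith
  obtain ⟨C1, hC1, hdiv⟩ := Pool.Agent.H369R2.divisor_bound k hk0
  set C : ℝ := |Real.log (4 * C1 ^ 2 / ε)| / (2 * k) + 1 with hC
  refine ⟨C, by positivity, ?_⟩
  intro q hq V hV hCq
  have hnq := H385.H10.log_tc q hq
  set N := nrm q with hN
  have hN1 : 1 ≤ N := nrm_pos hq
  have hN1' : (1 : ℝ) ≤ N := by exact_mod_cast hN1
  have hN0 : (0 : ℝ) < N := by linarith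
  have hsub : ∀ χ ∈ FU q V, χ ∈ FQs q := fun χ hχ => (mem_FU.1 hχ).1
  have hcd : ∀ χ ∈ FU q V, cd q χ ≠ 0 ∧ cd q χ ∈ Dv q := by
    intro χ hχ
    have h1 := (hprim q hq χ (hsub χ hχ)).1
    refine ⟨?_, (mem_Dv hq _).2 h1⟩
    intro h
    rw [h] at h1
    exact hq (zero_dvd_iff.1 h1)
  set τ : ℝ := ((Dv q).card : ℝ) with hτ
  have hτb : τ ≤ 4 * (C1 * (N : ℝ) ^ k) ^ 2 := by
    have h1 : τ ≤ 4 * ((N.divisors.card : ℕ) : ℝ) ^ 2 := by
      have h0 : ((Dv q).card : ℝ) ≤ ((4 * (nrm q).divisors.card ^ 2 : ℕ) : ℝ) := by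
        exact_mod_cast card_Dv q hq
      rw [hτ, hN]
      push_cast at h0
      exact h0
    have h2 := hdiv N hN1
    have h3 : ((N.divisors.card : ℕ) : ℝ) ^ 2 ≤ (C1 * (N : ℝ) ^ k) ^ 2 :=
      pow_le_pow_left₀ (Nat.cast_nonneg _) h2 2
    linarith
  set B := (FU q V).filter (fun χ => ((nrm (cd q χ) : ℕ) : ℝ) ≤ (N : ℝ) ^ x) with hB
  have hBcard : (B.card : ℝ) ≤ τ * (N : ℝ) ^ x := by
    have h1 : B.card = ∑ d ∈ Dv q, (B.filter (fun χ => cd q χ = d)).card := by
      apply Finset.card_eq_sum_card_fiberwise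
      intro χ hχ
      exact (hcd χ (Finset.mem_filter.1 hχ).1).2
    rw [h1]
    push_cast
    calc ∑ d ∈ Dv q, ((B.filter (fun χ => cd q χ = d)).card : ℝ)
        ≤ ∑ _d ∈ Dv q, (N : ℝ) ^ x := by
          refine Finset.sum_le_sum fun d hd => ?_
          by_cases hne : (B.filter (fun χ => cd q χ = d)).Nonempty
          · obtain ⟨χ0, hχ0⟩ := hne
            rw [Finset.mem_filter, hB, Finset.mem_filter] at hχ0
            have hd0 : d ≠ 0 := by
              rw [← hχ0.2]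
              exact (hcd χ0 hχ0.1.1).1
            have h2 := card_cond q d hd0 (B.filter (fun χ => cd q χ = d)) (pr q) (by
              intro χ hχ
              rw [Finset.mem_filter, hB, Finset.mem_filter] at hχ
              have h3 := hprim q hq χ (hsub χ hχ.1.1)
              rw [hχ.2] at h3
              exact h3.2)
            have h4 : ((B.filter (fun χ => cd q χ = d)).card : ℝ) ≤ (nrm d : ℝ) := by
              exact_mod_cast h2
            refine h4.trans ?_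
            have h5 := hχ0.1.2
            rw [hχ0.2] at h5
            exact h5
          · rw [Finset.not_nonempty_iff_eq_empty] at hne
            rw [hne, Finset.card_empty, Nat.cast_zero]
            positivity
      _ = τ * (N : ℝ) ^ x := by
          rw [Finset.sum_const, nsmul_eq_mul]
  have h1 : τ * (N : ℝ) ^ x ≤ ε * (N : ℝ) ^ δ := by
    have e1 : τ * (N : ℝ) ^ x ≤ 4 * (C1 * (N : ℝ) ^ k) ^ 2 * (N : ℝ) ^ x :=
      mul_le_mul_of_nonneg_right hτb (by positivity)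
    refine e1.trans ?_
    have e2 : 4 * (C1 * (N : ℝ) ^ k) ^ 2 * (N : ℝ) ^ x =
        4 * C1 ^ 2 * ((N : ℝ) ^ (2 * k) * (N : ℝ) ^ x) := by
      have : (N : ℝ) ^ (2 * k) = ((N : ℝ) ^ k) ^ 2 := by
        rw [← Real.rpow_natCast, ← Real.rpow_mul hN0.le]
        congr 1
        push_cast
        ring
      rw [this]
      ring
    have e3 : (N : ℝ) ^ δ = (N : ℝ) ^ (2 * k) * ((N : ℝ) ^ (2 * k) * (N : ℝ) ^ x) := by
      rw [← Real.rpow_add hN0, ← Real.rpow_add hN0]
      congr 1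
      rw [hk]
      ring
    rw [e2, e3]
    have e4 : 4 * C1 ^ 2 ≤ ε * (N : ℝ) ^ (2 * k) := by
      have e5 : |Real.log (4 * C1 ^ 2 / ε)| ≤ 2 * k * Real.log N := by
        have h5 : |Real.log (4 * C1 ^ 2 / ε)| / (2 * k) ≤ Real.log N := by
          have h6 : C ≤ 1 / 2 * Real.log N := by rw [← hnq]; exact hCq
          have h7 : 0 ≤ Real.log N := Real.log_nonneg hN1'
          rw [hC] at h6
          linarith
        rw [div_le_iff₀ (by positivity)] at h5
        linarith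
      have e6 : 4 * C1 ^ 2 / ε ≤ (N : ℝ) ^ (2 * k) := by
        calc 4 * C1 ^ 2 / ε = Real.exp (Real.log (4 * C1 ^ 2 / ε)) :=
              (Real.exp_log (by positivity)).symm
          _ ≤ Real.exp (2 * k * Real.log N) :=
              Real.exp_le_exp.2 ((le_abs_self _).trans e5)
          _ = (N : ℝ) ^ (2 * k) := by
              rw [Real.rpow_def_of_pos hN0]
              congr 1
              ring
      rw [div_le_iff₀ hε] at e6
      linarith
    have e7 : 0 ≤ (N : ℝ) ^ (2 * k) * (N : ℝ) ^ x := by positivity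
    calc _ ≤ ε * (N : ℝ) ^ (2 * k) * ((N : ℝ) ^ (2 * k) * (N : ℝ) ^ x) :=
          mul_le_mul_of_nonneg_right e4 e7
      _ = _ := by ring
  calc (B.card : ℝ) ≤ τ * (N : ℝ) ^ x := hBcard
    _ ≤ ε * (N : ℝ) ^ δ := h1
    _ ≤ _ := mul_le_mul_of_nonneg_left hV hε.le

/-- the size of `V` -/
theorem card_V_le {q : ZI} (hq : q ≠ 0) (h2 : two2 ∣ q) (V : Subgroup (RQ q)ˣ) (hV : NU q ≤ V)
    (δ : ℝ) (h : (nrm q : ℝ) ^ δ ≤ ((FU q V).card : ℝ)) :
    (Nat.card V : ℝ) ≤ (nrm q : ℝ) ^ (1 - δ) := by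
  have hfq := H385.he1_finite hq
  have hN1 : 1 ≤ nrm q := H385.H10.nrm_pos hq
  have hN0 : (0 : ℝ) < nrm q := by exact_mod_cast hN1
  have h1 := card_FU hq h2 V hV
  have h3 : phiQ q ≤ nrm q := by
    have h4 := H385.H10.card_RQ q
    rw [← h4]
    unfold phiQ
    exact Nat.card_le_card_of_injective _ Units.val_injective
  have h5 : (Nat.card V : ℝ) * ((FU q V).card : ℝ) ≤ nrm q := by
    have : Nat.card V * (FU q V).card ≤ nrm q := by rw [h1]; exact h3
    exact_mod_cast this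
  have h6 : (Nat.card V : ℝ) * (nrm q : ℝ) ^ δ ≤ nrm q :=
    (mul_le_mul_of_nonneg_left h (Nat.cast_nonneg _)).trans h5
  rw [Real.rpow_sub hN0, Real.rpow_one, le_div_iff₀ (by positivity)]
  exact h6

end Pool.Agent.Y693.AB
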