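import Pool.Agent.Y693.AB.FamAbsV
import Pool.Agent.H385R2.FinB

/-!
Project AB (helper693): numerical lemmas.
-/

set_option autoImplicit false

open MeasureTheory

namespace Pool.Agent.Y693.AB

/-- numerical core -/
theorem v_num (K x0 β C1 C2 ε : ℝ) (hK : 0 ≤ K) (hx0 : 0 < x0) (hβ : 0 < β) (hε : 0 < ε)
    (hC1 : 0 < C1) (hC2 : 0 < C2) :
    ∃ ε1 L0 : ℝ, 0 < ε1 ∧ 1 ≤ L0 ∧ ∀ T ℒ κ s12 A X SM SN : ℝ, 0 < T → L0 ≤ ℒ → 0 ≤ κ →
      κ ≤ ε1 * T → s12 ≤ ε1 * ℒ → x0 ≤ X → A ≤ K * X + ε1 →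
      SM ≤ T / (2 * Real.pi) * ℒ * (A + ε1) +
        C1 * ((ℒ ^ 2 * κ / (β * ℒ) + ℒ * T / (β * ℒ) + κ * ℒ) + ℒ * T * s12 / (β * ℒ)) →
      T / (2 * Real.pi) * ℒ * X - C2 * (T + κ * ℒ) ≤ SN →
      SM ≤ (K + ε) * SN := by
  have hπ := Real.pi_pos
  have hπ4 := Real.pi_lt_four
  have hKε : 0 < K + ε := by linarith
  set D1 : ℝ := 2 + 8 * C1 * (2 / β + 1) + (K + ε) * (8 * C2) with hD1
  have hD1p : 0 < D1 := by positivity
  set D2 : ℝ := 8 * C1 / β + (K + ε) * (8 * C2) with hD2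
  have hD2p : 0 < D2 := by positivity
  set ε1 : ℝ := ε * x0 / (2 * D1) with hε1
  have hε10 : 0 < ε1 := by positivity
  have hε1a : ε1 * D1 = ε * x0 / 2 := by rw [hε1]; field_simp
  set L0 : ℝ := 1 + 2 * D2 / (ε * x0) with hL0
  have hL0a : 0 < 2 * D2 / (ε * x0) := by positivity
  refine ⟨ε1, L0, hε10, by rw [hL0]; linarith, ?_⟩
  intro T ℒ κ s12 A X SM SN hT hℒ hκ hκT hs hX hA hM hN
  have hℒ0 : 0 < ℒ := by linarith
  have hD2ℒ : D2 / ℒ ≤ ε * x0 / 2 := by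
    rw [div_le_iff₀ hℒ0]
    have h1 : 2 * D2 / (ε * x0) ≤ ℒ := by linarith
    rw [div_le_iff₀ (by positivity)] at h1
    linarith
  set U : ℝ := T / (2 * Real.pi) * ℒ with hU
  have hU0 : 0 < U := by positivity
  have hTU : T * ℒ ≤ 8 * U := by
    rw [hU]
    have h1 : 1 ≤ 8 / (2 * Real.pi) := by
      rw [le_div_iff₀ (by positivity)]; linarith
    calc T * ℒ = T * ℒ * 1 := by ring
      _ ≤ T * ℒ * (8 / (2 * Real.pi)) := by gcongr
      _ = _ := by ring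
  have hTU' : T ≤ 8 * U / ℒ := by
    rw [le_div_iff₀ hℒ0]; exact hTU
  have e2 : ℒ ^ 2 * κ / (β * ℒ) = κ * ℒ / β := by field_simp
  have e3 : ℒ * T / (β * ℒ) = T / β := by field_simp
  have e4 : ℒ * T * s12 / (β * ℒ) = T * s12 / β := by field_simp
  rw [e2, e3, e4] at hM
  have f1 : κ * ℒ ≤ ε1 * (8 * U) := by
    calc κ * ℒ ≤ ε1 * T * ℒ := by gcongr
      _ = ε1 * (T * ℒ) := by ring
      _ ≤ _ := by gcongr
  have f2 : T * s12 ≤ ε1 * (8 * U) := by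
    calc T * s12 ≤ T * (ε1 * ℒ) := by gcongr
      _ = ε1 * (T * ℒ) := by ring
      _ ≤ _ := by gcongr
  have g1 : C1 * ((κ * ℒ / β + T / β + κ * ℒ) + T * s12 / β) ≤
      C1 * ((ε1 * (8 * U) / β + (8 * U / ℒ) / β + ε1 * (8 * U)) + ε1 * (8 * U) / β) := by
    gcongr
  have g2 : C1 * ((ε1 * (8 * U) / β + (8 * U / ℒ) / β + ε1 * (8 * U)) + ε1 * (8 * U) / β) =
      U * (ε1 * (8 * C1 * (2 / β + 1))) + U * (8 * C1 / β / ℒ) := by
    field_simp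
    ring
  have hSM : SM ≤ U * (K * X + ε1 * (2 + 8 * C1 * (2 / β + 1)) + 8 * C1 / β / ℒ) := by
    have h1 : U * (A + ε1) ≤ U * (K * X + 2 * ε1) :=
      mul_le_mul_of_nonneg_left (by linarith) hU0.le
    rw [g2] at g1
    have h4 : U * (K * X + ε1 * (2 + 8 * C1 * (2 / β + 1)) + 8 * C1 / β / ℒ) =
        U * (K * X + 2 * ε1) + U * (ε1 * (8 * C1 * (2 / β + 1))) + U * (8 * C1 / β / ℒ) := by ring
    rw [h4]
    linarith
  have hSN : U * (X - ε1 * (8 * C2) - 8 * C2 / ℒ) ≤ SN := by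
    refine le_trans ?_ hN
    have h1 : C2 * (T + κ * ℒ) ≤ C2 * (8 * U / ℒ + ε1 * (8 * U)) := by gcongr
    have h2 : C2 * (8 * U / ℒ + ε1 * (8 * U)) = U * (8 * C2 / ℒ) + U * (ε1 * (8 * C2)) := by
      field_simp
    have h3 : U * (X - ε1 * (8 * C2) - 8 * C2 / ℒ) = U * X - U * (8 * C2 / ℒ) -
        U * (ε1 * (8 * C2)) := by ring
    rw [h3]; linarith
  have hfin : U * (K * X + ε1 * (2 + 8 * C1 * (2 / β + 1)) + 8 * C1 / β / ℒ) ≤
      (K + ε) * (U * (X - ε1 * (8 * C2) - 8 * C2 / ℒ)) := by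
    have h2 : (K + ε) * (U * (X - ε1 * (8 * C2) - 8 * C2 / ℒ)) = U * (K * X + ε * X -
        ε1 * ((K + ε) * (8 * C2)) - (K + ε) * (8 * C2) / ℒ) := by ring
    rw [h2]
    refine mul_le_mul_of_nonneg_left ?_ hU0.le
    have h3 : ε * x0 ≤ ε * X := mul_le_mul_of_nonneg_left hX hε.le
    have h4 : D2 / ℒ = 8 * C1 / β / ℒ + (K + ε) * (8 * C2) / ℒ := by rw [hD2]; ring
    have h5 : ε1 * D1 = ε1 * (2 + 8 * C1 * (2 / β + 1)) + ε1 * ((K + ε) * (8 * C2)) := by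
      rw [hD1]; ring
    linarith
  exact hSM.trans (hfin.trans (mul_le_mul_of_nonneg_left hSN hKε.le))

theorem J_le (γ : ℝ) (h0 : 0 < γ) (hπ : γ < Real.pi) :
    2 * (∫ α in (0 : ℝ)..1, α * H385.Rw γ α) ≤ H385.Rw γ 0 := by
  have hR := H385.Rw_cont γ h0 hπ
  have h1 : ∫ α in (0 : ℝ)..1, α * H385.Rw γ α ≤ ∫ α in (0 : ℝ)..1, α * H385.Rw γ 0 := by
    refine intervalIntegral.integral_mono_on zero_le_one ?_ ?_ ?_
    · exact (continuous_id.mul hR).intervalIntegrable _ _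
    · exact (continuous_id.mul continuous_const).intervalIntegrable _ _
    · intro α hα
      exact mul_le_mul_of_nonneg_left (H385.Rw_le γ h0 hπ α hα.1) hα.1
  rw [intervalIntegral.integral_mul_const, integral_id] at h1
  linarith

/-- the inequality for the contribution of one character -/
theorem quad_ineq (R0 J β δ x : ℝ) (hR0 : 0 ≤ R0) (hβ : 0 < β) (hβδ : β ≤ 2 * δ)
    (hJR : 2 * J ≤ R0) (hJ : 0 ≤ J) (hx : δ ^ 2 ≤ x) (hx1 : x ≤ 1) :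
    2 * R0 / β * x ^ 2 + β * J ≤ (2 * R0 / β + β * J) * x := by
  have h1 : β * J ≤ 2 * R0 / β * x := by
    rw [div_mul_eq_mul_div, le_div_iff₀ hβ]
    have h2 : β ^ 2 ≤ (2 * δ) ^ 2 := pow_le_pow_left₀ hβ.le hβδ 2
    calc β * J * β = β ^ 2 * J := by ring
      _ ≤ (2 * δ) ^ 2 * J := mul_le_mul_of_nonneg_right h2 hJ
      _ = 2 * δ ^ 2 * (2 * J) := by ring
      _ ≤ 2 * δ ^ 2 * R0 := mul_le_mul_of_nonneg_left hJR (by positivity)
      _ = 2 * R0 * δ ^ 2 := by ring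
      _ ≤ 2 * R0 * x := mul_le_mul_of_nonneg_left hx (by positivity)
  have h3 : (2 * R0 / β + β * J) * x - (2 * R0 / β * x ^ 2 + β * J) =
      (1 - x) * (2 * R0 / β * x - β * J) := by ring
  have h4 : 0 ≤ (1 - x) * (2 * R0 / β * x - β * J) :=
    mul_nonneg (by linarith) (by linarith)
  linarith

/-- the parameter `s` -/
theorem s_exists (R0 δ ε : ℝ) (hR0 : 0 ≤ R0) (hδ : 2 / 3 < δ) (hδ1 : δ < 1) (hε : 0 < ε) :
    ∃ s : ℝ, 0 < s ∧ s ≤ 1 ∧ s ≤ 2 * δ - 4 / 3 ∧ δ * (1 + s) < 1 ∧ 0 < 2 * δ - 4 * s ∧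
      2 * R0 / (2 * δ - 4 * s) ≤ R0 / δ + ε / 2 := by
  set s : ℝ := min (min (δ / 4) (2 * δ - 4 / 3)) (min ((1 - δ) / 2) (ε * δ ^ 2 / (8 * R0 + 8)))
    with hs
  have hδ0 : 0 < δ := by linarith
  have hs0 : 0 < s := by
    have h1 : 0 < 2 * δ - 4 / 3 := by linarith
    have h2 : 0 < 1 - δ := by linarith
    positivity
  have hs1 : s ≤ δ / 4 := (min_le_left _ _).trans (min_le_left _ _)
  have hs2 : s ≤ 2 * δ - 4 / 3 := (min_le_left _ _).trans (min_le_right _ _)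
  have hs3 : s ≤ (1 - δ) / 2 := (min_le_right _ _).trans (min_le_left _ _)
  have hs4 : s * (8 * R0 + 8) ≤ ε * δ ^ 2 := by
    rw [← le_div_iff₀ (by positivity)]
    exact (min_le_right _ _).trans (min_le_right _ _)
  refine ⟨s, hs0, by linarith, hs2, ?_, by linarith, ?_⟩
  · nlinarith
  · have h1 : 0 < 2 * δ - 4 * s := by linarith
    rw [div_le_iff₀ h1]
    have h2 : (R0 / δ + ε / 2) * (2 * δ - 4 * s) = 2 * R0 - 4 * (R0 * s) / δ + ε * (δ - 2 * s) := by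
      field_simp
      ring
    rw [h2]
    have h3 : 4 * (R0 * s) / δ ≤ ε * (δ - 2 * s) := by
      rw [div_le_iff₀ hδ0]
      have h4 : ε * (δ / 2) ≤ ε * (δ - 2 * s) := mul_le_mul_of_nonneg_left (by linarith) hε.le
      have h5 : ε * (δ / 2) * δ ≤ ε * (δ - 2 * s) * δ := mul_le_mul_of_nonneg_right h4 hδ0.le
      nlinarith
    linarith

/-- the short sum is short enough -/
theorem short_len (δ s Q T ℒ : ℝ) (hs : 0 < s) (hδ1 : δ < 1) (hδs : 0 < 2 * δ - 4 * s)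
    (hQ : 1 ≤ Q) (hT : 1 ≤ T) (hTQ : T ≤ Q ^ s) (hℒ : ℒ = Real.log (Q * T))
    (hL : 1 / s ^ 2 < Real.log Q) (N : ℕ)
    (hN : (N : ℝ) ≤ 2 * Real.exp ((2 * δ - 4 * s) * ℒ + s * ℒ)) :
    (N : ℝ) ≤ (Q ^ 2) ^ (1 - (1 - δ + s / 2)) := by
  have hQ0 : 0 < Q := by linarith
  have hT0 : 0 < T := by linarith
  have hlQ : 0 ≤ Real.log Q := Real.log_nonneg hQ
  have hlT : Real.log T ≤ s * Real.log Q := by
    have := Real.log_le_log hT0 hTQ
    rwa [Real.log_rpow hQ0] at this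
  have hℒ2 : ℒ ≤ (1 + s) * Real.log Q := by
    rw [hℒ, Real.log_mul (by linarith) (by linarith)]; linarith
  have h1 : (2 * δ - 4 * s) * ℒ + s * ℒ ≤ (2 * δ - s - 3 * s ^ 2) * Real.log Q := by
    have h2 : (2 * δ - 4 * s + s) * ℒ ≤ (2 * δ - 4 * s + s) * ((1 + s) * Real.log Q) :=
      mul_le_mul_of_nonneg_left hℒ2 (by linarith)
    have h3 : (2 * δ - 4 * s + s) * (1 + s) ≤ 2 * δ - s - 3 * s ^ 2 := by nlinarith
    have h4 := mul_le_mul_of_nonneg_right h3 hlQ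
    calc _ = (2 * δ - 4 * s + s) * ℒ := by ring
      _ ≤ (2 * δ - 4 * s + s) * ((1 + s) * Real.log Q) := h2
      _ = (2 * δ - 4 * s + s) * (1 + s) * Real.log Q := by ring
      _ ≤ _ := h4
  have h6 : 1 ≤ s ^ 2 * Real.log Q := by
    rw [div_lt_iff₀ (by positivity)] at hL
    linarith
  have h7 : (2 : ℝ) ≤ Real.exp 1 := by
    have := Real.add_one_le_exp (1 : ℝ)
    linarith
  calc (N : ℝ) ≤ 2 * Real.exp ((2 * δ - 4 * s) * ℒ + s * ℒ) := hN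
    _ ≤ Real.exp 1 * Real.exp ((2 * δ - s - 3 * s ^ 2) * Real.log Q) := by gcongr
    _ = Real.exp (1 + (2 * δ - s - 3 * s ^ 2) * Real.log Q) := by rw [Real.exp_add]
    _ ≤ Real.exp ((2 * δ - s) * Real.log Q) := by
        apply Real.exp_le_exp.2
        linarith
    _ = (Q ^ 2) ^ (1 - (1 - δ + s / 2)) := by
        rw [← Real.rpow_natCast, ← Real.rpow_mul hQ0.le, Real.rpow_def_of_pos hQ0]
        congr 1
        push_cast
        ring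

end Pool.Agent.Y693.AB
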