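import Pool.Agent.Y693.AB.Ext
import Pool.Agent.Y693.AB.Num
import Pool.Agent.Y693.AB.Cond

/-!
Project AB (helper693): the core estimate.
-/

set_option autoImplicit false
set_option maxHeartbeats 4000000

open Complex Filter Topology Set MeasureTheory
open H370 (zset mult NN Nd Ns)
open H385
open Pool.Agent.H304R3.HK (tc HC CS bb LamK psi bH aH LH tc_star_mul one_le_norm_tc)
open Pool.Agent.W164.RC (two2)

namespace Pool.Agent.Y693.AB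

theorem le_mul_r {Q T : ℝ} (hQ : 0 ≤ Q) (hT : 1 ≤ T) : Q ≤ Q * T :=
  le_mul_of_one_le_right hQ hT

theorem le_mul_l {Q T : ℝ} (hQ : 1 ≤ Q) (hT : 0 ≤ T) : T ≤ Q * T :=
  le_mul_of_one_le_left hT hQ

theorem one_le_mul' {Q T : ℝ} (hQ : 1 ≤ Q) (hT : 1 ≤ T) : 1 ≤ Q * T :=
  hT.trans (le_mul_l hQ (zero_le_one.trans hT))

theorem sum_aux {ι : Type*} (s : Finset ι) (p : ι → Prop) [DecidablePred p] (cr a b K e : ℝ)
    (x : ι → ℝ) (hcr : 0 < cr) (hcard : cr = (s.card : ℝ)) (ha : 0 ≤ a) (hb : 0 ≤ b) (hK : 0 ≤ K)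
    (hx0 : ∀ i ∈ s, 0 ≤ x i) (hx1 : ∀ i ∈ s, x i ≤ 1)
    (haK : a ≤ K)
    (hgood : ∀ i ∈ s, ¬ p i → a * x i ^ 2 + b ≤ K * x i)
    (hbad : ((s.filter p).card : ℝ) ≤ e * cr) :
    a * ((1 / cr) * ∑ i ∈ s, x i ^ 2) + b ≤ K * ((1 / cr) * ∑ i ∈ s, x i) + b * e := by
  have h1 : ∀ i ∈ s, a * x i ^ 2 + b ≤ K * x i + (if p i then b else 0) := by
    intro i hi
    by_cases h : p i
    · rw [if_pos h]
      have e1 : a * x i ^ 2 ≤ K * x i := by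
        have h2 : x i ^ 2 ≤ x i := by nlinarith [hx0 i hi, hx1 i hi]
        calc a * x i ^ 2 ≤ a * x i := mul_le_mul_of_nonneg_left h2 ha
          _ ≤ K * x i := mul_le_mul_of_nonneg_right haK (hx0 i hi)
      linarith
    · rw [if_neg h, add_zero]
      exact hgood i hi h
  have h2 := Finset.sum_le_sum h1
  rw [Finset.sum_add_distrib, Finset.sum_add_distrib, ← Finset.mul_sum, ← Finset.mul_sum,
    Finset.sum_const, nsmul_eq_mul, ← hcard, ← Finset.sum_filter, Finset.sum_const,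
    nsmul_eq_mul] at h2
  have h3 : ((s.filter p).card : ℝ) * b ≤ e * cr * b := mul_le_mul_of_nonneg_right hbad hb
  have h4 : a * (∑ i ∈ s, x i ^ 2) + cr * b ≤ K * (∑ i ∈ s, x i) + e * cr * b := by linarith
  have h5 := mul_le_mul_of_nonneg_left h4 (show 0 ≤ 1 / cr by positivity)
  have e1 : 1 / cr * (a * (∑ i ∈ s, x i ^ 2) + cr * b) =
      a * ((1 / cr) * ∑ i ∈ s, x i ^ 2) + b := by field_simp
  have e2 : 1 / cr * (K * (∑ i ∈ s, x i) + e * cr * b) =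
      K * ((1 / cr) * ∑ i ∈ s, x i) + b * e := by field_simp
  rw [e1, e2] at h5
  exact h5

theorem sum_low {ι : Type*} (s : Finset ι) (p : ι → Prop) [DecidablePred p] (cr e x0 : ℝ)
    (x : ι → ℝ) (hcr : 0 < cr) (hcard : cr = (s.card : ℝ)) (hx00 : 0 ≤ x0)
    (hx0 : ∀ i ∈ s, 0 ≤ x i) (hgood : ∀ i ∈ s, ¬ p i → x0 ≤ x i)
    (hbad : ((s.filter p).card : ℝ) ≤ e * cr) :
    x0 * (1 - e) ≤ (1 / cr) * ∑ i ∈ s, x i := by
  have h1 : ∀ i ∈ s, x0 - (if p i then x0 else 0) ≤ x i := by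
    intro i hi
    by_cases h : p i
    · rw [if_pos h, sub_self]
      exact hx0 i hi
    · rw [if_neg h, sub_zero]
      exact hgood i hi h
  have h2 := Finset.sum_le_sum h1
  rw [Finset.sum_sub_distrib, Finset.sum_const, nsmul_eq_mul, ← hcard, ← Finset.sum_filter,
    Finset.sum_const, nsmul_eq_mul] at h2
  have h3 : ((s.filter p).card : ℝ) * x0 ≤ e * cr * x0 := mul_le_mul_of_nonneg_right hbad hx00
  rw [one_div, inv_mul_eq_div, le_div_iff₀ hcr]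
  linarith

/-- the core estimate -/
theorem ab_core (cd : (q : ZI) → MulChar (RQ q) ℂ → ZI)
    (pr : (q : ZI) → MulChar (RQ q) ℂ → (ZI →* ℂ))
    (hprim : ∀ q : ZI, q ≠ 0 → ∀ χ ∈ FQs q, cd q χ ∣ q ∧ HC (cd q χ) (pr q χ) ∧
      ∀ a : ZI, IsCoprime a q → pr q χ a = chiZ q χ a)
    (δ : ℝ) (hδ : 2 / 3 < δ) (hδ1 : δ < 1) (γ : ℝ) (h0 : 0 < γ) (hπ : γ < Real.pi)
    (ε : ℝ) (hε : 0 < ε) :
    ∃ C0 η : ℝ, 1 ≤ C0 ∧ 0 < η ∧ ∀ (q : ZI) (T : ℝ) (V : Subgroup (RQ q)ˣ), q ≠ 0 → two2 ∣ q →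
      NU q ≤ V → (nrm q : ℝ) ^ δ ≤ ((FU q V).card : ℝ) →
      C0 * (1 + Real.sqrt (Real.log ‖tc q‖)) ≤ T → T ≤ ‖tc q‖ ^ η →
      T * ((FU q V).card : ℝ) ≤ ∑ χ ∈ FU q V, (NN (LH (pr q χ)) T (2 * T) : ℝ) ∧
      (∑ χ ∈ FU q V, (2 * (NN (LH (pr q χ)) T (2 * T) : ℝ) - (Ns (LH (pr q χ)) T (2 * T) : ℝ)) ≤
        (1 / δ * Rw γ 0 + 2 * δ * (∫ α in (0 : ℝ)..1, α * Rw γ α) + ε) *
        ∑ χ ∈ FU q V, (NN (LH (pr q χ)) T (2 * T) : ℝ)) ∧
      (∑ χ ∈ FU q V, (3 * (NN (LH (pr q χ)) T (2 * T) : ℝ) -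
          2 * (Nd (LH (pr q χ)) T (2 * T) : ℝ)) ≤
        (1 / δ * Rw γ 0 + 2 * δ * (∫ α in (0 : ℝ)..1, α * Rw γ α) + ε) *
        ∑ χ ∈ FU q V, (NN (LH (pr q χ)) T (2 * T) : ℝ)) := by
  classical
  obtain ⟨A, hA1, hgood⟩ := Pool.Agent.H304R3.HK.goodH
  obtain ⟨CS0, hCS0, hS, hcK, hlam⟩ := selb_cK
  obtain ⟨C1, hC1, hfam⟩ := fam_abstract_V γ h0 hπ 2 A (by norm_num) hA1
  obtain ⟨C1', hC1', hfam'⟩ := fam_abstract_d_V γ h0 hπ 2 A (by norm_num) hA1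
  obtain ⟨C2, hC2, hlow⟩ := N_lower_D 2 A (by norm_num) hA1
  set J : ℝ := ∫ α in (0 : ℝ)..1, α * Rw γ α with hJ
  have hJ0 : 0 ≤ J := I1_nonneg γ h0 hπ
  have hJR : 2 * J ≤ Rw γ 0 := J_le γ h0 hπ
  have hR0 : 0 ≤ Rw γ 0 := Rw_nonneg γ h0 hπ 0
  have hδ0 : 0 < δ := by linarith
  obtain ⟨s, hs0, hs1, hs2, hs3, hs4, hs5⟩ := s_exists (Rw γ 0) δ ε hR0 hδ hδ1 hε
  set β : ℝ := 2 * δ - 4 * s with hβd
  have hβ : 0 < β := hs4
  have hβ1 : β < 2 := by rw [hβd]; linarith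
  have hβδ : β ≤ 2 * δ := by rw [hβd]; linarith
  set θ : ℝ := 1 - δ with hθ
  set θ' : ℝ := 1 - δ + s / 2 with hθ'
  have hθ0 : 0 < θ := by rw [hθ]; linarith
  have hθθ' : θ < θ' := by rw [hθ, hθ']; linarith
  have hθ'3 : θ' ≤ 1 / 3 := by rw [hθ']; linarith
  set CC : ℝ := max C1 C1' with hCC
  have hCC0 : 0 < CC := lt_max_of_lt_left hC1
  set c : ℝ := 2 * Rw γ 0 / β + β * J with hc
  have hc0 : 0 ≤ c := by positivity
  obtain ⟨ε1, L0, hε1, hL0, hnum⟩ := v_num c (δ ^ 2) β CC (2 * C2) (ε / 2)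
    hc0 (by positivity) hβ (by positivity) hCC0 (by positivity)
  -- the mean square
  obtain ⟨cw, M, C5, hcw, hM, hC5, hint⟩ := fu_int θ θ' hθ0 hθθ' hθ'3
  set ε2 : ℝ := ε1 / 4 with hε2
  have hε20 : 0 < ε2 := by positivity
  obtain ⟨δ', hδ', hδ'1, hδ'2⟩ : ∃ δ' : ℝ, 0 < δ' ∧ δ' ≤ 1 ∧ 2 * β * J * δ' ≤ ε2 / 4 := by
    refine ⟨min 1 (ε2 / 4 / (2 * β * J + 1)), lt_min one_pos (by positivity), min_le_left _ _, ?_⟩
    calc 2 * β * J * min 1 (ε2 / 4 / (2 * β * J + 1)) ≤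
        (2 * β * J + 1) * (ε2 / 4 / (2 * β * J + 1)) := by
          gcongr
          · linarith
          · exact min_le_right _ _
      _ = ε2 / 4 := by field_simp
  obtain ⟨L1, hL1, hpoint⟩ := YH_point cK CS0 hS ε2 C5 hε20 hC5 δ' hδ' hδ'1
  obtain ⟨L2, η2, hL2, hη2, hYint⟩ := YH_integral cK CS0 hS γ β ε2 C5 h0 hπ hβ hβ1 hε20 hC5 δ'
    hδ' hδ'1 hδ'2
  obtain ⟨ε3, hε3, hXU⟩ := XU_est cw M C5 hcw hM hC5 γ β ε2 δ' h0 hπ hβ hε20 hδ' hδ'1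
  obtain ⟨Ce, hCe, hint⟩ := hint ε3 hε3
  obtain ⟨L4, hL4, hXU⟩ := hXU Ce hCe
  -- the conductors
  set e0 : ℝ := min (1 / 2) (ε1 / (4 * (β * J) + 4)) with he0
  have he00 : 0 < e0 := by positivity
  have he01 : e0 ≤ 1 / 2 := min_le_left _ _
  have he02 : 2 * (β * J) * e0 ≤ ε1 / 2 := by
    have h1 : e0 ≤ ε1 / (4 * (β * J) + 4) := min_le_right _ _
    have h2 : e0 * (4 * (β * J) + 4) ≤ ε1 := by rwa [le_div_iff₀ (by positivity)] at h1
    linarith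
  set y : ℝ := δ ^ 2 * (1 + s) with hy
  have hyδ : y < δ := by
    rw [hy]
    calc δ ^ 2 * (1 + s) = δ * (δ * (1 + s)) := by ring
      _ < δ * 1 := mul_lt_mul_of_pos_left hs3 hδ0
      _ = δ := mul_one δ
  obtain ⟨C3, hC3, hbadc⟩ := bad_count cd pr hprim y δ hyδ e0 he00
  obtain ⟨L3, hL3, htail⟩ := he_tail s hs0
  obtain ⟨C0, hC01, hheight⟩ := he_height (L0 + L1 + L2 + L3 + L4 + 1 / β +
    16 * (1 + 2 * C2) / δ ^ 2) (min (min ε1 η2) (min (1 / 8) (δ ^ 2 / (64 * C2)))) (by positivity)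
  refine ⟨max C0 (Real.exp (1 / s ^ 2 + 3 + C3)), s, le_max_of_le_left hC01, hs0, ?_⟩
  intro q T V hq hq2 hV hVδ hT hTs
  have hVc := card_V_le hq hq2 V hV δ hVδ
  set Q : ℝ := ‖tc q‖ with hQd
  have hQ1 : 1 ≤ Q := one_le_norm_tc hq
  have hQ0 : 0 < Q := by linarith
  have hsq := Real.sqrt_nonneg (Real.log Q)
  have hTC0 : C0 * (1 + Real.sqrt (Real.log Q)) ≤ T := by
    refine le_trans ?_ hT
    exact mul_le_mul_of_nonneg_right (le_max_left _ _) (by linarith)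
  have hexT : Real.exp (1 / s ^ 2 + 3 + C3) ≤ T := by
    refine le_trans ?_ hT
    have h1 : Real.exp (1 / s ^ 2 + 3 + C3) ≤ max C0 (Real.exp (1 / s ^ 2 + 3 + C3)) :=
      le_max_right _ _
    have h2 : 0 ≤ max C0 (Real.exp (1 / s ^ 2 + 3 + C3)) := by
      have := Real.exp_pos (1 / s ^ 2 + 3 + C3)
      linarith
    calc _ ≤ max C0 (Real.exp (1 / s ^ 2 + 3 + C3)) * 1 := by linarith
      _ ≤ _ := mul_le_mul_of_nonneg_left (by linarith) h2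
  have hQT : T ≤ Q := by
    refine hTs.trans ?_
    calc Q ^ s ≤ Q ^ (1 : ℝ) := Real.rpow_le_rpow_of_exponent_le hQ1 hs1
      _ = Q := Real.rpow_one Q
  have hlogQ : 1 / s ^ 2 + 3 + C3 ≤ Real.log Q := by
    rw [Real.le_log_iff_exp_le hQ0]
    exact hexT.trans hQT
  have hsi : 0 < 1 / s ^ 2 := by positivity
  have hlogQ3 : 1 / s ^ 2 < Real.log Q := by linarith
  have hlogQC : C3 ≤ Real.log Q := by linarith
  have hlogQ0 : 0 < Real.log Q := by linarith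
  obtain ⟨hℒ, hT1, hκT⟩ := hheight Q T hQ1 hTC0
  have hnq : ((nrm q : ℕ) : ℝ) = Q ^ 2 := nrm_eq q
  have hnq1 : 1 ≤ nrm q := H385.H10.nrm_pos hq
  set ℒ : ℝ := Real.log (Q * T) with hℒd
  set κ : ℝ := 4 * Real.sqrt ℒ with hκd
  have hβi : 0 < 1 / β := by positivity
  have hL5 : 0 < 16 * (1 + 2 * C2) / δ ^ 2 := by positivity
  have hℒL0 : L0 ≤ ℒ := by linarith
  have hℒ1 : 1 ≤ ℒ := hL0.trans hℒL0
  have hℒL1 : L1 ≤ ℒ := by linarith
  have hℒL2 : L2 ≤ ℒ := by linarith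
  have hℒL3 : L3 ≤ ℒ := by linarith
  have hℒL4 : L4 ≤ ℒ := by linarith
  have hΛ1 : 1 ≤ β * ℒ := by
    have : 1 / β ≤ ℒ := by linarith
    rw [div_le_iff₀ hβ] at this
    linarith
  have hT0 : 0 < T := by linarith
  have hℒ0 : 0 < ℒ := by linarith
  have hTℒ : T ≤ Real.exp ℒ := by
    rw [hℒd, Real.exp_log (by positivity)]
    exact le_mul_l hQ1 hT0.le
  have hlogn : Real.log (nrm q : ℕ) ≤ 2 * ℒ := by
    rw [hnq, Real.log_pow, hℒd]
    push_cast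
    have : Real.log Q ≤ Real.log (Q * T) := Real.log_le_log hQ0 (le_mul_r hQ0.le hT1)
    linarith
  obtain ⟨p1, p2, p3, p4, p5, p6⟩ := he_param β ℒ T κ hβ1 hℒ1 hκd hTℒ
  have hκ0 : 0 ≤ κ := by linarith
  have hκ1 : κ ≤ ε1 * T := hκT.trans (by
    refine mul_le_mul_of_nonneg_right ?_ hT0.le
    exact (min_le_left _ _).trans (min_le_left _ _))
  have hκ2 : κ ≤ η2 * T := hκT.trans (by
    refine mul_le_mul_of_nonneg_right ?_ hT0.le
    exact (min_le_left _ _).trans (min_le_right _ _))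
  have hκ8 : 8 * κ ≤ T := by
    have : κ ≤ 1 / 8 * T := hκT.trans (by
      refine mul_le_mul_of_nonneg_right ?_ hT0.le
      exact (min_le_right _ _).trans (min_le_left _ _))
    linarith
  have hκ3 : κ ≤ δ ^ 2 / (64 * C2) * T := hκT.trans (by
    refine mul_le_mul_of_nonneg_right ?_ hT0.le
    exact (min_le_right _ _).trans (min_le_right _ _))
  have hκT1 : κ ≤ T := by linarith
  have hcn : 0 < (FU q V).card := card_FU_pos hq hq2 V
  have hc00 : (0 : ℝ) < (FU q V).card := by exact_mod_cast hcn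
  set cr : ℝ := ((FU q V).card : ℝ) with hcr
  have hcr0 : 0 ≤ 1 / cr := div_nonneg zero_le_one hc00.le
  have hW : ∑ _χ ∈ FU q V, (1 / cr) = 1 := by
    rw [Finset.sum_const, nsmul_eq_mul, ← hcr]
    field_simp
  obtain ⟨N, hNb, hN⟩ := htail (β * ℒ) ℒ hℒL3 (by positivity)
    (mul_le_mul_of_nonneg_right hβ1.le hℒ0.le)
  have hNq : (N : ℝ) ≤ (nrm q : ℝ) ^ (1 - θ') := by
    rw [hnq]
    exact short_len δ s Q T ℒ hs0 hδ1 hs4 hQ1 hT1 hTs hℒd hlogQ3 N hNb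
  obtain ⟨y1, y2, hy1, hy2, m2', m5⟩ := hpoint (nrm q) T κ ℒ hnq1 hT1 hℒL1 hlogn hκ0 hκT1
  obtain ⟨⟨y3, hy3, m2'', m6⟩, m7⟩ := hXU (nrm q) T ℒ hnq1 hT1 hℒL4 hlogn
  set YY : ℝ → ℝ := fun u => YH cK δ' C5 (nrm q) T κ u + XU δ' M C5 Ce ε3 cw (nrm q) T u with hYY
  have m2 : ∀ u ∈ Set.Icc 0 (β * ℒ), YY u ≤ T * (y1 * (u + 1) + (y2 + y3)) := by
    intro u hu
    have a1 := m2' u hu.1
    have a2 := m2'' u hu.1
    have e : T * (y1 * (u + 1) + (y2 + y3)) = T * (y1 * (u + 1) + y2) + T * y3 := by ring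
    rw [e, hYY]
    exact add_le_add a1 a2
  have m4' := hYint (nrm q) T κ ℒ hnq1 hT1 hℒL2 hlogn hκ0 hκ2
  have hRc := H385.Rw_cont γ h0 hπ
  have m4 : (2 / (Real.sqrt Real.pi * (β * ℒ))) *
      (∫ u in (0 : ℝ)..(β * ℒ), Rw γ (u / (β * ℒ)) * YY u) ≤
      T / (2 * Real.pi) * ℒ * (2 * β * J + 2 * ε2) := by
    have e1 : ∫ u in (0 : ℝ)..(β * ℒ), Rw γ (u / (β * ℒ)) * YY u =
        (∫ u in (0 : ℝ)..(β * ℒ), Rw γ (u / (β * ℒ)) * YH cK δ' C5 (nrm q) T κ u) +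
        ∫ u in (0 : ℝ)..(β * ℒ), Rw γ (u / (β * ℒ)) * XU δ' M C5 Ce ε3 cw (nrm q) T u := by
      rw [← intervalIntegral.integral_add]
      · apply intervalIntegral.integral_congr
        intro u _
        simp only [hYY]
        ring
      · exact ((hRc.comp (continuous_id.div_const _)).mul
          (YH_cont _ CS0 hS _ _ _ _ _)).intervalIntegrable _ _
      · exact ((hRc.comp (continuous_id.div_const _)).mul
          (XU_cont _ _ _ _ _ _ _ _)).intervalIntegrable _ _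
    rw [e1, mul_add]
    have e2 : T / (2 * Real.pi) * ℒ * (2 * β * J + 2 * ε2) =
        T / (2 * Real.pi) * ℒ * (2 * β * J + ε2) + T / (2 * Real.pi) * ℒ * ε2 := by ring
    rw [e2]
    exact add_le_add m4' m7
  have m5' : Real.sqrt y1 + Real.sqrt (y2 + y3) ≤ ε1 * ℒ := by
    have e1 := H385.sqrt_add_le_c y2 y3 hy2 hy3
    have e2 : ε2 * ℒ = ε1 * ℒ / 4 := by rw [hε2]; ring
    have e3 : 0 ≤ ε1 * ℒ := by positivity
    linarith
  have hpr : ∀ χ ∈ FU q V, HC (cd q χ) (pr q χ) ∧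
      ∀ a : ZI, IsCoprime a q → pr q χ a = chiZ q χ a :=
    fun χ hχ => (hprim q hq χ (mem_FU.1 hχ).1).2
  have m1 : ∀ u ∈ Set.Icc 0 (β * ℒ), ∫ t : ℝ, ∑ χ ∈ FU q V, (1 / cr) *
      ‖∑' n : ℕ, aH (pr q χ) n * ((Real.sqrt n : ℂ)⁻¹ * bt T u t (Real.log n))‖ ^ 2 ≤
      YY u := by
    intro u hu
    exact hint δ' hδ' q hq hq2 V hVc (cd q) (pr q) hpr N hNq T κ u (by linarith) hT1 p4 hu.1
      (hN u hu)
  have m3 : IntervalIntegrable YY volume 0 (β * ℒ) :=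
    ((YH_cont _ CS0 hS _ _ _ _ _).add (XU_cont _ _ _ _ _ _ _ _)).intervalIntegrable _ _
  have hcond1 : ∀ χ ∈ FU q V, (1 : ℝ) ≤ ‖tc (cd q χ)‖ :=
    fun χ hχ => one_le_norm_tc (hpr χ hχ).1.q0
  have hcondq : ∀ χ ∈ FU q V, ‖tc (cd q χ)‖ ≤ Q :=
    fun χ hχ => norm_tc_le_of_dvd _ _ hq (hprim q hq χ (mem_FU.1 hχ).1).1
  have hlogc : ∀ χ ∈ FU q V, Real.log (‖tc (cd q χ)‖ * T) ≤ ℒ := by
    intro χ hχ
    rw [hℒd]
    refine Real.log_le_log ?_ (mul_le_mul_of_nonneg_right (hcondq χ hχ) hT0.le)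
    have := hcond1 χ hχ
    positivity
  have hdata : ∀ χ ∈ FU q V, 0 ≤ (1 / cr) ∧ (1 : ℝ) ≤ ‖tc (cd q χ)‖ ∧
      GoodD 2 A ‖tc (cd q χ)‖ (LH (pr q χ)) (aH (pr q χ)) ∧
      Real.log (‖tc (cd q χ)‖ * T) ≤ ℒ := by
    intro χ hχ
    exact ⟨hcr0, hcond1 χ hχ, (hgood _ _ (hpr χ hχ).1).2.2.2, hlogc χ hχ⟩
  have k1 := hfam (FU q V) (fun _ => 1 / cr) (fun χ => ‖tc (cd q χ)‖)
    (fun χ => LH (pr q χ)) (fun χ => aH (pr q χ)) T κ (β * ℒ) ℒ y1 (y2 + y3)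
    YY hdata p1 hκ8 p3 hΛ1 hℒ1 p5 hy1 (by positivity) m1 m2 m3
  have k2 := hfam' (FU q V) (fun _ => 1 / cr) (fun χ => ‖tc (cd q χ)‖)
    (fun χ => LH (pr q χ)) (fun χ => aH (pr q χ)) T κ (β * ℒ) ℒ y1 (y2 + y3)
    YY hdata p1 hκ8 p3 hΛ1 hℒ1 p5 hy1 (by positivity) m1 m2 m3
  -- the normalised logarithms
  set x : MulChar (RQ q) ℂ → ℝ := fun χ => Real.log (‖tc (cd q χ)‖ * T) / ℒ with hx
  have hx0 : ∀ χ ∈ FU q V, 0 ≤ x χ := by
    intro χ hχ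
    exact div_nonneg (Real.log_nonneg (one_le_mul' (hcond1 χ hχ) hT1)) hℒ0.le
  have hx1 : ∀ χ ∈ FU q V, x χ ≤ 1 := by
    intro χ hχ
    rw [hx]
    simp only
    rw [div_le_one hℒ0]
    exact hlogc χ hχ
  have hxℒ : ∀ χ, Real.log (‖tc (cd q χ)‖ * T) = x χ * ℒ := by
    intro χ
    rw [hx]
    field_simp
  have hgx : ∀ χ ∈ FU q V, ¬ (((nrm (cd q χ) : ℕ) : ℝ) ≤ (nrm q : ℝ) ^ y) → δ ^ 2 ≤ x χ := by
    intro χ hχ hng
    rw [not_le, hnq, nrm_eq (cd q χ)] at hng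
    have hcq := hcond1 χ hχ
    have h1 : y * Real.log Q ≤ Real.log ‖tc (cd q χ)‖ := by
      have h2 : Real.log ((Q ^ 2) ^ y) ≤ Real.log (‖tc (cd q χ)‖ ^ 2) :=
        Real.log_le_log (by positivity) hng.le
      rw [Real.log_rpow (by positivity), Real.log_pow, Real.log_pow] at h2
      push_cast at h2
      linarith
    have h3 : ℒ ≤ (1 + s) * Real.log Q := by
      have hlT : Real.log T ≤ s * Real.log Q := by
        have := Real.log_le_log hT0 hTs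
        rwa [Real.log_rpow hQ0] at this
      rw [hℒd, Real.log_mul (by linarith) (by linarith)]
      linarith
    rw [hx]
    simp only
    rw [le_div_iff₀ hℒ0]
    have h4 : Real.log ‖tc (cd q χ)‖ ≤ Real.log (‖tc (cd q χ)‖ * T) :=
      Real.log_le_log (zero_lt_one.trans_le hcq) (le_mul_r (zero_le_one.trans hcq) hT1)
    calc δ ^ 2 * ℒ ≤ δ ^ 2 * ((1 + s) * Real.log Q) :=
          mul_le_mul_of_nonneg_left h3 (by positivity)
      _ = y * Real.log Q := by rw [hy]; ring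
      _ ≤ _ := h1.trans h4
  have hbad := hbadc q hq V hVδ hlogQC
  rw [← hcr] at hbad
  have hmain := sum_aux (FU q V) (fun χ => ((nrm (cd q χ) : ℕ) : ℝ) ≤ (nrm q : ℝ) ^ y) cr
    (2 * Rw γ 0 / β) (β * J) c e0 x hc00 hcr (by positivity) (by positivity) hc0 hx0 hx1
    (by
      have : 0 ≤ β * J := by positivity
      rw [hc]; linarith)
    (fun χ hχ hng => quad_ineq (Rw γ 0) J β δ (x χ) hR0 hβ hβδ hJR hJ0 (hgx χ hχ hng) (hx1 χ hχ))
    hbad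
  have hXlow := sum_low (FU q V) (fun χ => ((nrm (cd q χ) : ℕ) : ℝ) ≤ (nrm q : ℝ) ^ y) cr
    e0 (δ ^ 2) x hc00 hcr (by positivity) hx0 hgx hbad
  set X1 : ℝ := (1 / cr) * ∑ χ ∈ FU q V, x χ with hX1
  set X2 : ℝ := (1 / cr) * ∑ χ ∈ FU q V, x χ ^ 2 with hX2
  have hX : δ ^ 2 ≤ 2 * X1 := by
    have h1 : δ ^ 2 * (1 / 2) ≤ δ ^ 2 * (1 - e0) :=
      mul_le_mul_of_nonneg_left (by linarith) (by positivity)
    linarith
  have hS2 : ∑ χ ∈ FU q V, (1 / cr) * (2 * Real.log (‖tc (cd q χ)‖ * T)) ^ 2 = 4 * ℒ ^ 2 * X2 := by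
    rw [hX2, Finset.mul_sum, Finset.mul_sum]
    refine Finset.sum_congr rfl fun χ _ => ?_
    rw [hxℒ χ]
    ring
  set SN : ℝ := ∑ χ ∈ FU q V, (1 / cr) * (NN (LH (pr q χ)) T (2 * T) : ℝ) with hSN
  -- lower bound for the number of zeros
  have hNlow : T / (2 * Real.pi) * ℒ * (2 * X1) - 2 * C2 * (T + κ * ℒ) ≤ SN := by
    have hpt : ∀ χ ∈ FU q V,
        T / (2 * Real.pi) * ℒ * (2 * x χ) - 2 * C2 * (T + κ * ℒ) ≤
        (NN (LH (pr q χ)) T (2 * T) : ℝ) := by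
      intro χ hχ
      have hcq := hcond1 χ hχ
      have hl := hlow ‖tc (cd q χ)‖ (LH (pr q χ)) (aH (pr q χ)) hcq
        (hgood _ _ (hpr χ hχ).1).2.2.2 T κ p1 hκ8
      refine le_trans ?_ hl
      have hn : 0 ≤ Real.log (‖tc (cd q χ)‖ * T) := Real.log_nonneg (one_le_mul' hcq hT1)
      have a3 : T * Real.log (‖tc (cd q χ)‖ * T) ^ 2 * Real.exp (-κ ^ 2 / 2) ≤ T := by
        have b1 : Real.log (‖tc (cd q χ)‖ * T) ^ 2 ≤ ℒ ^ 2 :=
          pow_le_pow_left₀ hn (hlogc χ hχ) 2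
        have b2 : Real.log (‖tc (cd q χ)‖ * T) ^ 2 * Real.exp (-κ ^ 2 / 2) ≤ 1 :=
          (mul_le_mul_of_nonneg_right b1 (Real.exp_pos _).le).trans p6
        calc _ = T * (Real.log (‖tc (cd q χ)‖ * T) ^ 2 * Real.exp (-κ ^ 2 / 2)) := by ring
          _ ≤ T * 1 := mul_le_mul_of_nonneg_left b2 hT0.le
          _ = T := mul_one T
      have a4 : κ * Real.log (‖tc (cd q χ)‖ * T) ≤ κ * ℒ :=
        mul_le_mul_of_nonneg_left (hlogc χ hχ) hκ0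
      have a5 : C2 * (T + κ * Real.log (‖tc (cd q χ)‖ * T) +
          T * Real.log (‖tc (cd q χ)‖ * T) ^ 2 * Real.exp (-κ ^ 2 / 2)) ≤
          2 * C2 * (T + κ * ℒ) := by
        have hκℒ : 0 ≤ κ * ℒ := by positivity
        calc _ ≤ C2 * (T + κ * ℒ + T) := mul_le_mul_of_nonneg_left (by linarith) hC2.le
          _ ≤ C2 * (2 * (T + κ * ℒ)) := mul_le_mul_of_nonneg_left (by linarith) hC2.le
          _ = _ := by ring
      have a6 : T / (2 * Real.pi) * ℒ * (2 * x χ) =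
          T / (2 * Real.pi) * (2 * Real.log (‖tc (cd q χ)‖ * T)) := by
        rw [hxℒ χ]; ring
      rw [a6]
      linarith
    have hsum : ∑ χ ∈ FU q V, (1 / cr) *
        (T / (2 * Real.pi) * ℒ * (2 * x χ) - 2 * C2 * (T + κ * ℒ)) ≤ SN :=
      Finset.sum_le_sum fun χ hχ => mul_le_mul_of_nonneg_left (hpt χ hχ) hcr0
    refine le_trans (le_of_eq ?_) hsum
    simp only [mul_sub]
    rw [Finset.sum_sub_distrib, ← Finset.sum_mul, hW, one_mul, hX1, Finset.mul_sum,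
      Finset.mul_sum, Finset.mul_sum]
    congr 1
    refine Finset.sum_congr rfl fun χ _ => ?_
    ring
  have core : ∀ (D SM : ℝ), 0 < D → D ≤ CC →
      SM ≤ (∑ χ ∈ FU q V, (1 / cr) * (2 * Real.log (‖tc (cd q χ)‖ * T)) ^ 2) * Rw γ 0 * T /
          (2 * Real.pi * (β * ℒ)) +
        (2 / (Real.sqrt Real.pi * (β * ℒ))) *
          (∫ u in (0 : ℝ)..(β * ℒ), Rw γ (u / (β * ℒ)) * YY u) +
        D * ((∑ _χ ∈ FU q V, (1 / cr)) *
          (ℒ ^ 2 * κ / (β * ℒ) + ℒ * T / (β * ℒ) + κ * ℒ) +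
          Real.sqrt (∑ _χ ∈ FU q V, (1 / cr)) * ℒ * T *
            (Real.sqrt y1 + Real.sqrt (y2 + y3)) / (β * ℒ)) →
      cr * SM ≤ (1 / δ * Rw γ 0 + 2 * δ * J + ε) *
        ∑ χ ∈ FU q V, (NN (LH (pr q χ)) T (2 * T) : ℝ) := by
    intro D SM hD hDC hSM
    rw [hW, hS2, Real.sqrt_one, one_mul, one_mul] at hSM
    have h1 : SM ≤ (c + ε / 2) * SN := by
      refine hnum T ℒ κ (Real.sqrt y1 + Real.sqrt (y2 + y3))
        (2 * (2 * Rw γ 0 / β * X2 + β * J)) (2 * X1) SM _ hT0 hℒL0 hκ0 hκ1 m5' hX ?_ ?_ hNlow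
      · have e1 : 2 * (2 * Rw γ 0 / β * X2 + β * J) ≤ 2 * (c * X1 + β * J * e0) :=
          mul_le_mul_of_nonneg_left hmain (by norm_num)
        linarith
      · refine hSM.trans ?_
        have hb : 0 ≤ (ℒ ^ 2 * κ / (β * ℒ) + ℒ * T / (β * ℒ) + κ * ℒ) +
            ℒ * T * (Real.sqrt y1 + Real.sqrt (y2 + y3)) / (β * ℒ) := by positivity
        have h2 := mul_le_mul_of_nonneg_right hDC hb
        have e : 4 * ℒ ^ 2 * X2 * Rw γ 0 * T / (2 * Real.pi * (β * ℒ)) =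
            T / (2 * Real.pi) * ℒ * (2 * (2 * Rw γ 0 / β * X2)) := by
          field_simp
          ring
        rw [e]
        have e3 : T / (2 * Real.pi) * ℒ * (2 * (2 * Rw γ 0 / β * X2 + β * J) + ε1) =
            T / (2 * Real.pi) * ℒ * (2 * (2 * Rw γ 0 / β * X2)) +
            T / (2 * Real.pi) * ℒ * (2 * β * J + ε1) := by ring
        rw [e3]
        have e4 : T / (2 * Real.pi) * ℒ * (2 * β * J + 2 * ε2) ≤
            T / (2 * Real.pi) * ℒ * (2 * β * J + ε1) := by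
          refine mul_le_mul_of_nonneg_left ?_ (by positivity)
          rw [hε2]
          linarith
        linarith
    have h3 : cr * SN = ∑ χ ∈ FU q V, (NN (LH (pr q χ)) T (2 * T) : ℝ) := by
      rw [hSN, ← Finset.mul_sum, ← mul_assoc, mul_one_div_cancel hc00.ne', one_mul]
    have hSNn : 0 ≤ ∑ χ ∈ FU q V, (NN (LH (pr q χ)) T (2 * T) : ℝ) :=
      Finset.sum_nonneg fun χ _ => Nat.cast_nonneg _
    have hcc : c + ε / 2 ≤ 1 / δ * Rw γ 0 + 2 * δ * J + ε := by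
      have e1 : β * J ≤ 2 * δ * J := mul_le_mul_of_nonneg_right hβδ hJ0
      have e2 : 1 / δ * Rw γ 0 = Rw γ 0 / δ := by ring
      rw [hc, e2]
      linarith
    calc cr * SM ≤ cr * ((c + ε / 2) * SN) :=
          mul_le_mul_of_nonneg_left h1 hc00.le
      _ = (c + ε / 2) * (cr * SN) := by ring
      _ = (c + ε / 2) * ∑ χ ∈ FU q V, (NN (LH (pr q χ)) T (2 * T) : ℝ) := by rw [h3]
      _ ≤ _ := mul_le_mul_of_nonneg_right hcc hSNn
  refine ⟨?_, ?_, ?_⟩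
  · -- the number of zeros
    have e1 : T ≤ SN := by
      refine le_trans ?_ hNlow
      have e2 : T * ℒ * (δ ^ 2 / 8) ≤ T / (2 * Real.pi) * ℒ * (2 * X1) := by
        have h3 : 1 / 8 ≤ 1 / (2 * Real.pi) := by
          apply one_div_le_one_div_of_le (by positivity)
          linarith [Real.pi_lt_four]
        have e3 : T * ℒ * (δ ^ 2 / 8) = (1 / 8) * (T * ℒ * δ ^ 2) := by ring
        have e4 : T / (2 * Real.pi) * ℒ * (2 * X1) = (1 / (2 * Real.pi)) * (T * ℒ * (2 * X1)) := by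
          ring
        rw [e3, e4]
        refine mul_le_mul h3 ?_ (by positivity) (by positivity)
        exact mul_le_mul_of_nonneg_left hX (by positivity)
      have e5 : 2 * C2 * (κ * ℒ) ≤ T * ℒ * (δ ^ 2 / 32) := by
        have e6 : 2 * C2 * (κ * ℒ) ≤ 2 * C2 * ((δ ^ 2 / (64 * C2) * T) * ℒ) :=
          mul_le_mul_of_nonneg_left (mul_le_mul_of_nonneg_right hκ3 hℒ0.le) (by positivity)
        refine e6.trans (le_of_eq ?_)
        field_simp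
        norm_num
      have e7 : T * (1 + 2 * C2) ≤ T * (ℒ * (δ ^ 2 / 16)) := by
        refine mul_le_mul_of_nonneg_left ?_ hT0.le
        have e8 : 16 * (1 + 2 * C2) / δ ^ 2 ≤ ℒ := by linarith
        rw [div_le_iff₀ (by positivity)] at e8
        linarith
      have e9 : 0 ≤ T * ℒ * δ ^ 2 := by positivity
      linarith
    have h3 : cr * SN = ∑ χ ∈ FU q V, (NN (LH (pr q χ)) T (2 * T) : ℝ) := by
      rw [hSN, ← Finset.mul_sum, ← mul_assoc, mul_one_div_cancel hc00.ne', one_mul]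
    rw [← h3, mul_comm]
    exact mul_le_mul_of_nonneg_left e1 hc00.le
  · have := core C1 _ hC1 (le_max_left _ _) k1
    refine le_trans (le_of_eq ?_) this
    rw [← Finset.mul_sum, ← mul_assoc, mul_one_div_cancel hc00.ne', one_mul]
  · have := core C1' _ hC1' (le_max_right _ _) k2
    refine le_trans (le_of_eq ?_) this
    rw [← Finset.mul_sum, ← mul_assoc, mul_one_div_cancel hc00.ne', one_mul]

end Pool.Agent.Y693.AB
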