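import Pool.Agent.Y693.AB.Euler3
import Pool.Agent.W164.RC.Count
import Pool.Agent.W164.RC.Final

/-!
Project AB (helper693): counting the zeros (variant of `Pool.Agent.W164.RC.Count`).
-/

set_option autoImplicit false

open Complex Filter Topology Set
open H370 (zset mult NN Nd Ns)
open H385 (ZI RQ im1 chiZ FQs phiQ nrm)
open Pool.Agent.H82R3.EK (cnt cnt_prod NN_eq Ns_le strip line)
open Pool.Agent.H304R3.HK (tc HC LH aH psi uh_psi one_le_norm_tc goodH)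
open Pool.Agent.W164.RC (Cq Cq_ne Cq_diff order_mul_ne cnt_mul_ne cnt_mul)

namespace Pool.Agent.Y693.AB

section
variable (cd : (q : ZI) → MulChar (RQ q) ℂ → ZI)
    (pr : (q : ZI) → MulChar (RQ q) ℂ → (ZI →* ℂ))
    (hprim : ∀ q : ZI, q ≠ 0 → ∀ χ ∈ FQs q, cd q χ ∣ q ∧ HC (cd q χ) (pr q χ) ∧
      ∀ a : ZI, IsCoprime a q → pr q χ a = chiZ q χ a)

include hprim

theorem FV_diff {q : ZI} (hq : q ≠ 0) (V : Subgroup (RQ q)ˣ) : Differentiable ℂ (FV pr q V) := by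
  obtain ⟨A, hA, hgood⟩ := goodH
  have h0 : FV pr q V = fun s => ∏ χ ∈ FU q V, (LH (pr q χ) s * Cq q (psi (pr q χ)) s) := rfl
  rw [h0]
  apply Differentiable.fun_finsetProd
  intro χ hχ
  exact (hgood _ _ (hprim q hq χ (mem_FU.1 hχ).1).2.1).1.mul (Cq_diff q _)

/-- the properties of the factors -/
theorem fac_propsV {q : ZI} (hq : q ≠ 0) (V : Subgroup (RQ q)ˣ) {T : ℝ} (hT : 1 ≤ T) :
    ∀ χ ∈ FU q V,
    (∀ s, AnalyticAt ℂ (LH (pr q χ)) s) ∧ (∀ s, analyticOrderAt (LH (pr q χ)) s ≠ ⊤) ∧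
    (zset (LH (pr q χ)) T (2 * T)).Finite := by
  obtain ⟨A, hA, hgood⟩ := goodH
  intro χ hχ
  obtain ⟨h1, h2, h3⟩ := hprim q hq χ (mem_FU.1 hχ).1
  obtain ⟨g1, g2, g3, g4⟩ := hgood _ _ h2
  refine ⟨fun s => g1.analyticAt s, fun s => ?_, ?_⟩
  · have h4 : LH (pr q χ) (⟨2, 1⟩ : ℂ) ≠ 0 := g4.nzr _ (by norm_num) (by norm_num)
    exact H370.Loc.order_ne_top (K := Set.univ) isPreconnected_univ
      (fun z _ => g1.analyticAt z) (Set.mem_univ _) h4 (Set.mem_univ s)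
  · exact H385.zset_finite_D hA (one_le_norm_tc h2.q0) g4 T (2 * T) hT

theorem FV_cnt {q : ZI} (hq : q ≠ 0) (V : Subgroup (RQ q)ˣ) {T : ℝ} (hT : 1 ≤ T) {W : Set ℂ}
    (hW : W ⊆ strip T (2 * T)) :
    cnt (FV pr q V) W = ∑ χ ∈ FU q V, cnt (LH (pr q χ)) W ∧
    (∀ s ∈ W, analyticOrderAt (FV pr q V) s ≠ ⊤) ∧ {s : ℂ | s ∈ W ∧ FV pr q V s = 0}.Finite := by
  classical
  have hp := fac_propsV cd pr hprim hq V hT
  have hre : ∀ s ∈ W, 0 < s.re := fun s hs => (hW hs).1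
  have hC : ∀ χ ∈ FU q V, ∀ s ∈ W, Cq q (psi (pr q χ)) s ≠ 0 := fun χ hχ s hs =>
    Cq_ne q (uh_psi _ _ (hprim q hq χ (mem_FU.1 hχ).1).2.1) (hre s hs)
  have han : ∀ χ ∈ FU q V, ∀ s ∈ W,
      AnalyticAt ℂ (fun z => LH (pr q χ) z * Cq q (psi (pr q χ)) z) s :=
    fun χ hχ s _ => ((hp χ hχ).1 s).mul ((Cq_diff q _).analyticAt s)
  have hord : ∀ χ ∈ FU q V, ∀ s ∈ W,
      analyticOrderAt (fun z => LH (pr q χ) z * Cq q (psi (pr q χ)) z) s ≠ ⊤ := by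
    intro χ hχ s hs
    rw [order_mul_ne ((hp χ hχ).1 s) ((Cq_diff q _).analyticAt s) (hC χ hχ s hs)]
    exact (hp χ hχ).2.1 s
  have hset : ∀ χ ∈ FU q V, {s : ℂ | s ∈ W ∧ LH (pr q χ) s * Cq q (psi (pr q χ)) s = 0}.Finite := by
    intro χ hχ
    refine (hp χ hχ).2.2.subset ?_
    rintro s ⟨h1, h2⟩
    have h3 := (mul_eq_zero.1 h2).resolve_right (hC χ hχ s h1)
    obtain ⟨a, b, c, d⟩ := hW h1
    exact ⟨a, b, c, d, h3⟩
  refine ⟨?_, ?_, ?_⟩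
  · have h := cnt_prod (FU q V) (fun χ z => LH (pr q χ) z * Cq q (psi (pr q χ)) z) han hord hset
    have h0 : FV pr q V = fun s => ∏ χ ∈ FU q V, (LH (pr q χ) s * Cq q (psi (pr q χ)) s) := rfl
    rw [h0, h]
    refine Finset.sum_congr rfl fun χ hχ => ?_
    exact cnt_mul_ne (fun s _ => (hp χ hχ).1 s) (fun s _ => (Cq_diff q _).analyticAt s) (hC χ hχ)
  · intro s hs
    have h := Pool.Agent.H82R3.EK.mult_prod (FU q V)
      (fun χ z => LH (pr q χ) z * Cq q (psi (pr q χ)) z) (s := s)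
      (fun χ hχ => han χ hχ s hs) (fun χ hχ => hord χ hχ s hs)
    exact h.2.1
  · have hunion : (⋃ χ ∈ FU q V,
        {s : ℂ | s ∈ W ∧ LH (pr q χ) s * Cq q (psi (pr q χ)) s = 0}).Finite :=
      Set.Finite.biUnion (FU q V).finite_toSet hset
    refine hunion.subset ?_
    rintro s ⟨h1, h2⟩
    unfold FV at h2
    rw [Finset.prod_eq_zero_iff] at h2
    obtain ⟨χ, hχ, h3⟩ := h2
    exact Set.mem_biUnion hχ ⟨h1, h3⟩

/-- the zeros of the product -/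
theorem tot_cntV {q : ZI} (hq : q ≠ 0) (V : Subgroup (RQ q)ˣ) {T : ℝ} (hT : 1 ≤ T) :
    cnt (fun z => FV pr q V z * FV pr (star q) (starV V) z) (strip T (2 * T)) =
      ∑ χ ∈ FU q V, NN (LH (pr q χ)) T (2 * T) +
      ∑ χ ∈ FU (star q) (starV V), NN (LH (pr (star q) χ)) T (2 * T) ∧
    ∑ χ ∈ FU q V, Ns (LH (pr q χ)) T (2 * T) +
      ∑ χ ∈ FU (star q) (starV V), Ns (LH (pr (star q) χ)) T (2 * T) ≤
      cnt (fun z => FV pr q V z * FV pr (star q) (starV V) z) (line T (2 * T)) ∧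
    {s : ℂ | s ∈ strip T (2 * T) ∧ FV pr q V s * FV pr (star q) (starV V) s = 0}.Finite := by
  have hq' : star q ≠ 0 := fun h => hq (by rw [← star_star q, h, star_zero])
  have hline : line T (2 * T) ⊆ strip T (2 * T) := by
    rintro s ⟨h1, h2, h3⟩
    exact ⟨by rw [h1]; norm_num, by rw [h1]; norm_num, h2, h3⟩
  have hd1 := FV_diff cd pr hprim hq V
  have hd2 := FV_diff cd pr hprim hq' (starV V)
  have key : ∀ W : Set ℂ, W ⊆ strip T (2 * T) →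
      cnt (fun z => FV pr q V z * FV pr (star q) (starV V) z) W = ∑ χ ∈ FU q V, cnt (LH (pr q χ)) W +
        ∑ χ ∈ FU (star q) (starV V), cnt (LH (pr (star q) χ)) W := by
    intro W hW
    obtain ⟨a1, a2, a3⟩ := FV_cnt cd pr hprim hq V hT hW
    obtain ⟨b1, b2, b3⟩ := FV_cnt cd pr hprim hq' (starV V) hT hW
    rw [cnt_mul (fun s _ => hd1.analyticAt s) (fun s _ => hd2.analyticAt s) a2 b2 a3 b3, a1, b1]
  refine ⟨?_, ?_, ?_⟩
  · rw [key _ subset_rfl]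
    congr 1
    · exact Finset.sum_congr rfl fun χ _ => (NN_eq _ _ _).symm
    · exact Finset.sum_congr rfl fun χ _ => (NN_eq _ _ _).symm
  · rw [key _ hline]
    refine add_le_add ?_ ?_
    · exact Finset.sum_le_sum fun χ hχ => Ns_le _ _ _ (fac_propsV cd pr hprim hq V hT χ hχ).2.2
    · exact Finset.sum_le_sum fun χ hχ => Ns_le _ _ _ (fac_propsV cd pr hprim hq' (starV V) hT χ hχ).2.2
  · obtain ⟨a1, a2, a3⟩ := FV_cnt cd pr hprim hq V hT (W := strip T (2 * T)) subset_rfl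
    obtain ⟨b1, b2, b3⟩ := FV_cnt cd pr hprim hq' (starV V) hT (W := strip T (2 * T)) subset_rfl
    refine (a3.union b3).subset ?_
    rintro s ⟨h1, h2⟩
    rcases mul_eq_zero.1 h2 with h | h
    · exact Or.inl ⟨h1, h⟩
    · exact Or.inr ⟨h1, h⟩

end

end Pool.Agent.Y693.AB
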