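import Pool.Agent.Y693.AB.Chars2
import Pool.Agent.W164.RC.Euler2

/-!
Project AB (helper693): the Euler product of `y² = x³ - x` over an abelian extension of `ℚ(i)`
(variant of `Pool.Agent.W164.RC.Euler2`).
-/

set_option autoImplicit false

open NumberField IsDedekindDomain Complex
open H385 (ZI RQ im1 chiZ FQs phiQ nrm)
open Pool.Agent.H304R2.EC.A1 (prim prim_one prim_star norm_def' gnorm_star)
open Pool.Agent.H304R3.HK (bb ee UH tc HC psi LH bH psi_apply tc_ne_zero tc_star_mul uh_psi goodH)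
open Pool.Agent.H921R2.TatePole (below deg nm nm_eq nm_summable two_le_nm)
open Pool.Agent.H82R3.EK (below_eq_of_mem factor_sub_bound)
open Pool.Agent.W164.RC

namespace Pool.Agent.Y693.AB

/-- number of primes above `z` in the extension -/
noncomputable def NV {q : ZI} (V : Subgroup (RQ q)ˣ) (z : ZI) : ℕ := (FU q V).card / fV V z

theorem NV_star {q : ZI} (hq : q ≠ 0) (h2 : two2 ∣ q) (V : Subgroup (RQ q)ˣ) (h : NU q ≤ V)
    {z : ZI} (hc : IsCoprime z q) : NV (starV V) (star z) = NV V z := by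
  unfold NV
  rw [fV_star V hc, card_FU_star hq h2 V h]

/-- product over the characters of the local factors at `p` -/
theorem chi_side_V {q : ZI} (hq : q ≠ 0) (h2 : two2 ∣ q) (V : Subgroup (RQ q)ˣ)
    (pr : MulChar (RQ q) ℂ → (ZI →* ℂ))
    (hval : ∀ χ ∈ FU q V, ∀ a : ZI, IsCoprime a q → pr χ a = chiZ q χ a)
    {p : ℕ} (hp : p.Prime) (N : ZI → ℕ)
    (hf : ∀ z ∈ Ip p, ¬ z ∣ q → N z * fV V z = (FU q V).card) {s : ℂ} (hs : 1 / 2 < s.re) :
    ∏ χ ∈ FU q V, epf q (psi (pr χ)) (s - 1 / 2) p = if p = 2 then 1 else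
      ∏ᶠ z ∈ {z : ZI | z ∈ Ip p ∧ ¬ z ∣ q}, ((1 - YY p s z ^ fV V z) ^ N z)⁻¹ := by
  classical
  unfold epf
  split_ifs with hp2
  · simp
  · have h3 : {z : ZI | z ∈ Ip p ∧ ¬ z ∣ q} = (((Ip p).filter (fun z => ¬ z ∣ q) : Finset ZI) :
        Set ZI) := by
      ext z
      simp
    rw [h3, finprod_mem_coe_finset, Finset.prod_comm]
    refine Finset.prod_congr rfl fun z hz => ?_
    rw [Finset.mem_filter] at hz
    obtain ⟨hz1, hz2⟩ := hz
    have hN := hf z hz1 hz2
    obtain ⟨hprim, hzp, -, -⟩ := Ip_spec hp hz1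
    have hc : IsCoprime z q := (hzp.irreducible.coprime_iff_not_dvd).2 hz2
    rw [← prod_FU hq h2 V hprim hc (N z) hN _ (norm_YY hp hz1 hs),
      ← Finset.prod_inv_distrib]
    refine Finset.prod_congr rfl fun χ hχ => ?_
    rw [psi_YY (d := q) (hval χ hχ) hp hz1 hz2 s]

section
variable {q : ZI} {K : Type} [Field K] [NumberField K] {ι : ZI →+* 𝓞 K}
  {art : (RQ q)ˣ →* (𝓞 K ≃+* 𝓞 K)}

theorem NV_spec (hq : q ≠ 0) (h2 : two2 ∣ q) (H : IsAbelianExtension q K ι art)
    {p : ℕ} (hp : p.Prime) {z : ZI} (hz : z ∈ Ip p) (hzq : ¬ z ∣ q) :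
    (∀ v : HeightOneSpectrum (𝓞 K), ι z ∈ v.asIdeal →
      Ideal.absNorm v.asIdeal = nrm z ^ fV art.ker z) ∧
    Nat.card {v : HeightOneSpectrum (𝓞 K) // ι z ∈ v.asIdeal} = NV art.ker z ∧
    NV art.ker z * fV art.ker z = (FU q art.ker).card ∧ IsCoprime z q := by
  obtain ⟨hprim, hzp, -, -⟩ := Ip_spec hp hz
  have hc : IsCoprime z q := (hzp.irreducible.coprime_iff_not_dvd).2 hzq
  obtain ⟨u, hu⟩ := H385.he2_unit hc
  obtain ⟨h3, h4⟩ := ab_split hq h2 H hzp u hu
  have hf := fV_pos hq art.ker hc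
  have h5 : Nat.card {v : HeightOneSpectrum (𝓞 K) // ι z ∈ v.asIdeal} = NV art.ker z := by
    unfold NV
    rw [← h4, Nat.mul_div_cancel _ hf]
  exact ⟨h3, h5, by rw [← h5]; exact h4, hc⟩

/-- product over the places above `p` -/
theorem fiber_V (hq : q ≠ 0) (h2 : two2 ∣ q) (H : IsAbelianExtension q K ι art) (p : Nat.Primes)
    (s : ℂ) :
    (open Classical in ∏ v : {v : HeightOneSpectrum (𝓞 K) // below v = p},
      (if ι q ∈ v.1.asIdeal then 1 else eulerFactor s v.1)) =
      if (p : ℕ) = 2 then 1 else ∏ᶠ z ∈ {z : ZI | z ∈ Ip p ∧ ¬ z ∣ q},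
        (((1 - YY p s z ^ fV art.ker z) ^ NV art.ker z)⁻¹ * ((1 - YY p s (star z) ^ fV art.ker z) ^ NV art.ker z)⁻¹) := by
  classical
  split_ifs with hp2
  · apply Finset.prod_eq_one
    rintro ⟨v, hv⟩ _
    rw [if_pos]
    have h3 := (nm_eq v).2.2
    rw [hv, hp2] at h3
    have h4 : ι ⟨1, 1⟩ ∈ v.asIdeal := by
      have h5 : ι ⟨1, 1⟩ * ι ⟨1, 1⟩ ∈ v.asIdeal := by
        have e : ((⟨1, 1⟩ : ZI) * ⟨1, 1⟩) = ⟨0, 1⟩ * ((2 : ℕ) : ZI) := by decide
        rw [← map_mul, e, map_mul, map_natCast]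
        exact v.asIdeal.mul_mem_left _ h3
      rcases v.isPrime.mem_or_mem h5 with h | h <;> exact h
    obtain ⟨c, rfl⟩ := (show (⟨1, 1⟩ : ZI) ∣ two2 from ⟨2, by decide⟩).trans h2
    rw [map_mul]
    exact v.asIdeal.mul_mem_right _ h4
  · have h3 : {z : ZI | z ∈ Ip p ∧ ¬ z ∣ q} = (((Ip p).filter (fun z => ¬ z ∣ q) : Finset ZI) :
        Set ZI) := by
      ext z
      simp
    rw [h3, finprod_mem_coe_finset]
    set J := (Ip p).filter (fun z => ¬ z ∣ q) with hJ
    have hcop : ∀ z ∈ J, IsCoprime z q := by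
      intro z hz
      rw [hJ, Finset.mem_filter] at hz
      exact ((Ip_spec p.2 hz.1).2.1.irreducible.coprime_iff_not_dvd).2 hz.2
    rw [Finset.prod_ite, Finset.prod_const_one, one_mul]
    have hU : (Finset.univ : Finset {v : HeightOneSpectrum (𝓞 K) // below v = p}).filter
        (fun v => ¬ ι q ∈ v.1.asIdeal) = J.biUnion (fun z =>
          (Finset.univ : Finset {v : HeightOneSpectrum (𝓞 K) // below v = p}).filter
            (fun v => ι z ∈ v.1.asIdeal)) := by
      ext v
      simp only [Finset.mem_filter, Finset.mem_univ, true_and, Finset.mem_biUnion]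
      constructor
      · intro hv
        have h4 := (nm_eq v.1).2.2
        rw [v.2] at h4
        have := v.1.isPrime
        obtain ⟨z, hz, hzv⟩ := Ip_exists p.2 hp2 ι v.1.asIdeal h4
        refine ⟨z, ?_, hzv⟩
        rw [hJ, Finset.mem_filter]
        refine ⟨hz, ?_⟩
        rintro ⟨c, rfl⟩
        apply hv
        rw [map_mul]
        exact v.1.asIdeal.mul_mem_right _ hzv
      · rintro ⟨z, hz, hzv⟩
        exact not_mem_both (hcop z hz) hzv
    rw [hU, Finset.prod_biUnion]
    · refine Finset.prod_congr rfl fun z hz => ?_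
      have hz' := hz
      rw [hJ, Finset.mem_filter] at hz'
      obtain ⟨k1, k2, k3, k4⟩ := NV_spec hq h2 H p.2 hz'.1 hz'.2
      have h5 : ∀ v ∈ (Finset.univ : Finset {v : HeightOneSpectrum (𝓞 K) // below v = p}).filter
            (fun v => ι z ∈ v.1.asIdeal), eulerFactor s v.1 =
          ((1 - YY p s z ^ fV art.ker z) * (1 - YY p s (star z) ^ fV art.ker z))⁻¹ := by
        intro v hv
        rw [Finset.mem_filter] at hv
        exact eulerFactor_z hp2 hz'.1 v.1 v.2 _ (k1 v.1 hv.2) s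
      rw [Finset.prod_congr rfl h5, Finset.prod_const]
      have h6 : ((Finset.univ : Finset {v : HeightOneSpectrum (𝓞 K) // below v = p}).filter
            (fun v => ι z ∈ v.1.asIdeal)).card = NV art.ker z := by
        rw [← k2, ← Fintype.card_subtype, ← Nat.card_eq_fintype_card]
        refine Nat.card_congr
          { toFun := fun v => ⟨v.1.1, v.2⟩
            invFun := fun v => ⟨⟨v.1, ?_⟩, v.2⟩
            left_inv := fun v => rfl
            right_inv := fun v => rfl }
        apply below_eq_of_mem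
        obtain ⟨c, hc⟩ := (Ip_spec p.2 hz'.1).2.2.2
        have h7 : (((p : ℕ)) : 𝓞 K) = ι z * ι c := by
          rw [← map_mul, ← hc, map_natCast]
        rw [h7]
        exact v.1.asIdeal.mul_mem_right _ v.2
      rw [h6, inv_pow, mul_pow, mul_inv]
    · intro z hz w hw hzw
      rw [Function.onFun, Finset.disjoint_left]
      intro v hv hv'
      rw [Finset.mem_filter] at hv hv'
      have hz' := Finset.mem_coe.1 hz
      have hw' := Finset.mem_coe.1 hw
      rw [hJ, Finset.mem_filter] at hz' hw'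
      exact not_mem_both (Ip_coprime p.2 hz'.1 hw'.1 hzw) hv.2 hv'.2

/-- the entire function attached to `q` -/
noncomputable def FV (pr : (q : ZI) → MulChar (RQ q) ℂ → (ZI →* ℂ)) (q : ZI)
    (V : Subgroup (RQ q)ˣ) (s : ℂ) : ℂ :=
  ∏ χ ∈ FU q V, (LH (pr q χ) s * Cq q (psi (pr q χ)) s)

/-- product over the characters -/
theorem hasProd_FV (cd : (q : ZI) → MulChar (RQ q) ℂ → ZI)
    (pr : (q : ZI) → MulChar (RQ q) ℂ → (ZI →* ℂ))
    (hprim : ∀ q : ZI, q ≠ 0 → ∀ χ ∈ FQs q, cd q χ ∣ q ∧ HC (cd q χ) (pr q χ) ∧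
      ∀ a : ZI, IsCoprime a q → pr q χ a = chiZ q χ a) {q : ZI} (hq : q ≠ 0) (h2 : two2 ∣ q)
    (V : Subgroup (RQ q)ˣ) {s : ℂ} (hs : 1 < s.re) :
    HasProd (fun p : Nat.Primes => ∏ χ ∈ FU q V, epf q (psi (pr q χ)) s p) (FV pr q V s) := by
  obtain ⟨A, hA, hgood⟩ := goodH
  unfold FV
  apply hasProd_prod
  intro χ hχ
  obtain ⟨h1, h3, h4⟩ := hprim q hq χ (mem_FU.1 hχ).1
  exact hasProd_epf hq h2 (uh_psi _ _ h3) (by linarith) ((hgood _ _ h3).2.1 s hs)

theorem hasProd_KV (cd : (q : ZI) → MulChar (RQ q) ℂ → ZI)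
    (pr : (q : ZI) → MulChar (RQ q) ℂ → (ZI →* ℂ))
    (hprim : ∀ q : ZI, q ≠ 0 → ∀ χ ∈ FQs q, cd q χ ∣ q ∧ HC (cd q χ) (pr q χ) ∧
      ∀ a : ZI, IsCoprime a q → pr q χ a = chiZ q χ a)
    (hq : q ≠ 0) (h2 : two2 ∣ q) (H : IsAbelianExtension q K ι art) {s : ℂ} (hs : 3 / 2 < s.re) :
    HasProd (open Classical in fun v : HeightOneSpectrum (𝓞 K) =>
      if ι q ∈ v.asIdeal then 1 else eulerFactor s v)
      (FV pr q art.ker (s - 1 / 2) * FV pr (star q) (starV art.ker) (s - 1 / 2)) := by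
  classical
  have hq' : star q ≠ 0 := fun h => hq (by rw [← star_star q, h, star_zero])
  have h2' := two_dvd_star h2
  have hre : 1 < (s - 1 / 2).re := by
    have : (s - 1 / 2).re = s.re - 1 / 2 := by simp
    rw [this]; linarith
  have hs' : 1 / 2 < s.re := by linarith
  have h1 := (hasProd_FV cd pr hprim hq h2 art.ker hre).mul
    (hasProd_FV cd pr hprim hq' h2' (starV art.ker) hre)
  have h3 : ∀ p : Nat.Primes, (∏ χ ∈ FU q art.ker, epf q (psi (pr q χ)) (s - 1 / 2) p) *
      (∏ χ ∈ FU (star q) (starV art.ker), epf (star q) (psi (pr (star q) χ)) (s - 1 / 2) p) =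
      ∏ v : {v : HeightOneSpectrum (𝓞 K) // below v = p},
        (if ι q ∈ v.1.asIdeal then 1 else eulerFactor s v.1) := by
    intro p
    rw [fiber_V hq h2 H p s,
      chi_side_V hq h2 art.ker (pr q) (fun χ hχ => (hprim q hq χ (mem_FU.1 hχ).1).2.2) p.2
        (NV art.ker)
        (fun z hz hzq => (NV_spec hq h2 H p.2 hz hzq).2.2.1) hs',
      chi_side_V hq' h2' (starV art.ker) (pr (star q))
        (fun χ hχ => (hprim _ hq' χ (mem_FU.1 hχ).1).2.2) p.2
        (NV (starV art.ker))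
        (fun z hz hzq => by
          have hz' := star_mem_Ip p.2 hz
          have hzq' : ¬ star z ∣ q := fun h => hzq (by
            rw [← star_star z]; exact star_dvd.2 h)
          obtain ⟨k1, k2, k3, k4⟩ := NV_spec hq h2 H p.2 hz' hzq'
          have e1 := fV_star art.ker k4
          have e2 := NV_star hq h2 art.ker (NU_le_ker H) k4
          rw [star_star] at e1 e2
          rw [e1, e2, card_FU_star hq h2 art.ker (NU_le_ker H)]
          exact k3) hs']
    split_ifs with hp2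
    · rw [one_mul]
    · have e3 : {z : ZI | z ∈ Ip p ∧ ¬ z ∣ q} = (((Ip p).filter (fun z => ¬ z ∣ q) : Finset ZI) :
          Set ZI) := by
        ext z
        simp
      have e4 : {z : ZI | z ∈ Ip p ∧ ¬ z ∣ star q} =
          ((((Ip p).filter (fun z => ¬ z ∣ q)).image star : Finset ZI) : Set ZI) := by
        ext z
        simp only [Set.mem_ofPred_eq, Finset.coe_image, Set.mem_image, Finset.mem_coe,
          Finset.mem_filter]
        constructor
        · rintro ⟨hz, hzq⟩
          refine ⟨star z, ⟨star_mem_Ip p.2 hz, fun h => hzq ?_⟩, star_star z⟩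
          rw [← star_star z]; exact star_dvd.2 h
        · rintro ⟨w, ⟨hw, hwq⟩, rfl⟩
          exact ⟨star_mem_Ip p.2 hw, fun h => hwq (star_dvd.1 h)⟩
      rw [e3, e4, finprod_mem_coe_finset, finprod_mem_coe_finset, finprod_mem_coe_finset,
        Finset.prod_image (fun a _ b _ h => star_injective h), ← Finset.prod_mul_distrib]
      refine Finset.prod_congr rfl fun z hz => ?_
      rw [Finset.mem_filter] at hz
      have hcz := (NV_spec hq h2 H p.2 hz.1 hz.2).2.2.2
      rw [fV_star art.ker hcz, NV_star hq h2 art.ker (NU_le_ker H) hcz]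
  simp_rw [h3] at h1
  have h4 : Multipliable (fun v : HeightOneSpectrum (𝓞 K) =>
      if ι q ∈ v.asIdeal then 1 else eulerFactor s v) := by
    have hsum := nm_summable (K := K) (x := s.re - 1 / 2) (by linarith)
    have h5 : Summable (fun v : HeightOneSpectrum (𝓞 K) =>
        ‖(if ι q ∈ v.asIdeal then 1 else eulerFactor s v) - 1‖) := by
      refine Summable.of_norm_bounded_eventually (hsum.mul_left 6) ?_
      have h6 := hsum.tendsto_cofinite_zero.eventually (Iio_mem_nhds (by norm_num : (0 : ℝ) < 1 / 6))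
      filter_upwards [h6] with v hv
      rw [norm_norm]
      split_ifs with hiq
      · rw [sub_self, norm_zero]
        positivity
      · have hv2 : (below v : ℕ) ≠ 2 := by
          intro hb
          apply hiq
          have h7 := (nm_eq v).2.2
          rw [hb] at h7
          have h4 : ι ⟨1, 1⟩ ∈ v.asIdeal := by
            have h5 : ι ⟨1, 1⟩ * ι ⟨1, 1⟩ ∈ v.asIdeal := by
              have e : ((⟨1, 1⟩ : ZI) * ⟨1, 1⟩) = ⟨0, 1⟩ * ((2 : ℕ) : ZI) := by decide
              rw [← map_mul, e, map_mul, map_natCast]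
              exact v.asIdeal.mul_mem_left _ h7
            rcases v.isPrime.mem_or_mem h5 with h | h <;> exact h
          obtain ⟨c, rfl⟩ := (show (⟨1, 1⟩ : ZI) ∣ two2 from ⟨2, by decide⟩).trans h2
          rw [map_mul]
          exact v.asIdeal.mul_mem_right _ h4
        rw [eulerFactor_eq v hv2]
        exact factor_sub_bound v s hs (le_of_lt hv)
    have h7 := multipliable_one_add_of_summable h5
    refine h7.congr (fun v => ?_)
    ring
  rw [← (Equiv.sigmaFiberEquiv (below (K := K))).hasProd_iff]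
  refine HasProd.sigma_of_hasProd h1 (fun p => ?_) ?_
  · exact hasProd_fintype _
  · exact (Equiv.sigmaFiberEquiv (below (K := K))).multipliable_iff.2 h4

end

end Pool.Agent.Y693.AB
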