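import Pool.Agent.Y693.AB.Pt

/-!
Project AB (helper693), part 10: the majorant of the mean square over the family.
-/

set_option autoImplicit false
set_option maxHeartbeats 4000000

open Complex MeasureTheory
open H385 (ZI RQ im1 chiZ FQs phiQ nrm wZ bn wt BX lamK2 Gq Tl YH cK Rw bt SW)
open Pool.Agent.H304R3.HK (tc HC CS bb LamK psi bH aH LH)
open Pool.Agent.H304R2.EC.A1 (prim prim_one prim_mul exists_prim norm_def' re_mul' im_mul')
open Pool.Agent.W164.RC (two2)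

namespace Pool.Agent.Y693.AB

/-- the extra part of the majorant -/
noncomputable def XU (δ M C2 Ce ε c : ℝ) (n : ℕ) (T u : ℝ) : ℝ :=
  (T + C2) * ((1 + δ) * (Ce + ε * (1 + Real.log n) ^ 2 * Real.exp (-(c * u))) +
    (1 + 1 / δ) * (M * (Gq n u + 1) ^ 2))

theorem XU_cont (δ M C2 Ce ε c : ℝ) (n : ℕ) (T : ℝ) : Continuous (XU δ M C2 Ce ε c n T) := by
  unfold XU
  have h2 := H385.Gq_cont n
  fun_prop

/-- the mean square -/
theorem fu_int (θ θ' : ℝ) (h0 : 0 < θ) (h1 : θ < θ') (h2 : θ' ≤ 1 / 3) :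
    ∃ c M C2 : ℝ, 0 < c ∧ 0 < M ∧ 0 < C2 ∧
    ∀ ε : ℝ, 0 < ε → ∃ Ce : ℝ, 0 < Ce ∧
    ∀ (δ : ℝ) (_ : 0 < δ) (q : ZI) (_ : q ≠ 0) (_ : two2 ∣ q) (V : Subgroup (RQ q)ˣ)
      (_ : (Nat.card V : ℝ) ≤ (nrm q : ℝ) ^ θ)
      (cd : MulChar (RQ q) ℂ → ZI) (pr : MulChar (RQ q) ℂ → (ZI →* ℂ))
      (_ : ∀ χ ∈ FU q V, HC (cd χ) (pr χ) ∧ ∀ a : ZI, IsCoprime a q → pr χ a = chiZ q χ a)
      (N : ℕ) (_ : (N : ℝ) ≤ (nrm q : ℝ) ^ (1 - θ')) (T κ u : ℝ) (_ : 1 ≤ κ) (_ : 1 ≤ T)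
      (_ : T ≤ Real.exp (κ ^ 2)) (_ : 0 ≤ u) (_ : Tl N u ≤ 1),
      ∫ t : ℝ, ∑ χ ∈ FU q V, (1 / ((FU q V).card : ℝ)) *
        ‖∑' n : ℕ, aH (pr χ) n * ((Real.sqrt n : ℂ)⁻¹ * bt T u t (Real.log n))‖ ^ 2 ≤
        YH cK δ C2 (nrm q) T κ u + XU δ M C2 Ce ε c (nrm q) T u := by
  obtain ⟨C0, hC0, hS, hcK, hlam⟩ := H385.selb_cK
  obtain ⟨C1, hC1, k1⟩ := H385.btc_sum_int cK C0 hS
  obtain ⟨C2, hC2, k2⟩ := H385.wt_sq_int
  obtain ⟨c, M, hc, hM, hpt⟩ := fu_pt θ θ' h0 h1 h2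
  refine ⟨c, M, C1 + C2, hc, hM, by positivity, fun ε hε => ?_⟩
  obtain ⟨Ce, hCe, hpt⟩ := hpt ε hε
  refine ⟨Ce, hCe, ?_⟩
  intro δ hδ q hq hq2 V hV cd pr hpr N hN T κ u hκ hT hTκ hu hTl
  have hT0 : 0 ≤ T := by linarith
  obtain ⟨a1, a2⟩ := k1 T κ u N hκ hT hTκ hu
  obtain ⟨b1, b2⟩ := k2 T hT0
  have hG := H385.Gq_nonneg (nrm q) u
  have e : (fun t : ℝ => ∑ n ∈ Finset.Icc 1 N, lamK2 n * ‖bn T u t n‖ ^ 2) =
      fun t => ∑ n ∈ Finset.Icc 1 N, (ArithmeticFunction.vonMangoldt n) ^ 2 *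
        ‖cK n * ((Real.sqrt n : ℂ)⁻¹ * bt T u t (Real.log n))‖ ^ 2 := by
    funext t
    refine Finset.sum_congr rfl (fun n _ => ?_)
    rw [hlam n, norm_mul (cK n), mul_pow]
    unfold H385.bn
    ring
  have a1' : Integrable (fun t : ℝ => ∑ n ∈ Finset.Icc 1 N, lamK2 n * ‖bn T u t n‖ ^ 2) := by
    rw [e]; exact a1
  set E : ℝ := (1 + δ) * (Ce + ε * (1 + Real.log (nrm q)) ^ 2 * Real.exp (-(c * u))) +
          (1 + 1 / δ) * (M * (Gq (nrm q) u + 1) ^ 2) with hE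
  have hE0 : 0 ≤ E := by positivity
  calc _ ≤ ∫ t : ℝ, ((1 + δ) * (∑ n ∈ Finset.Icc 1 N, lamK2 n * ‖bn T u t n‖ ^ 2) +
      wt T t ^ 2 * E) := by
        refine integral_mono_of_nonneg ?_ ?_ ?_
        · exact Filter.Eventually.of_forall (fun t => Finset.sum_nonneg fun χ _ => by positivity)
        · exact (a1'.const_mul _).add (b1.mul_const _)
        · exact Filter.Eventually.of_forall
            (fun t => hpt δ hδ q hq hq2 V hV cd pr hpr N hN T u t hT0 hu hTl)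
    _ = (1 + δ) * (∫ t : ℝ, ∑ n ∈ Finset.Icc 1 N, lamK2 n * ‖bn T u t n‖ ^ 2) +
      (∫ t : ℝ, wt T t ^ 2) * E := by
        rw [integral_add (a1'.const_mul _) (b1.mul_const _), integral_const_mul,
          integral_mul_const]
    _ ≤ (1 + δ) * (T / (2 * Real.pi) * SW cK u + C1 * κ * (u + 1)) + (T + C2) * E := by
        refine add_le_add ?_ ?_
        · refine mul_le_mul_of_nonneg_left ?_ (by positivity)
          rw [e]
          exact a2
        · exact mul_le_mul_of_nonneg_right b2 hE0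
    _ ≤ _ := by
        unfold YH XU
        rw [← hE]
        have e1 : C1 * κ * (u + 1) ≤ (C1 + C2) * κ * (u + 1) := by gcongr; linarith
        have e3 : (T + C2) * E ≤ (T + (C1 + C2)) * E := by
          gcongr; linarith
        have e4 : 0 ≤ 1 + δ := by positivity
        have e5 : 0 ≤ (1 + 1 / δ) * ((T + (C1 + C2)) * (4 * (Gq (nrm q) u + 1) ^ 2)) := by
          positivity
        have e6 := mul_le_mul_of_nonneg_left (show T / (2 * Real.pi) * SW cK u + C1 * κ * (u + 1) ≤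
          T / (2 * Real.pi) * SW cK u + (C1 + C2) * κ * (u + 1) by linarith) e4
        linarith

/-- estimates of the extra part -/
theorem XU_est (c M C2 : ℝ) (hc : 0 < c) (hM : 0 < M) (hC2 : 0 < C2) (γ β ε1 δ : ℝ) (hγ : 0 < γ)
    (hπ : γ < Real.pi) (hβ : 0 < β) (hε1 : 0 < ε1) (hδ : 0 < δ) (hδ1 : δ ≤ 1) :
    ∃ ε : ℝ, 0 < ε ∧ ∀ Ce : ℝ, 0 < Ce → ∃ L0 : ℝ, 0 < L0 ∧ ∀ (n : ℕ) (T ℒ : ℝ), 1 ≤ n → 1 ≤ T →
      L0 ≤ ℒ → Real.log n ≤ 2 * ℒ →
      (∃ y : ℝ, 0 ≤ y ∧ (∀ u : ℝ, 0 ≤ u → XU δ M C2 Ce ε c n T u ≤ T * y) ∧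
        Real.sqrt y ≤ ε1 * ℒ) ∧
      (2 / (Real.sqrt Real.pi * (β * ℒ))) *
        (∫ u in (0 : ℝ)..(β * ℒ), Rw γ (u / (β * ℒ)) * XU δ M C2 Ce ε c n T u) ≤
      T / (2 * Real.pi) * ℒ * ε1 := by
  have hR0 : 0 ≤ Rw γ 0 := H385.Rw_nonneg γ hγ hπ 0
  set R0 : ℝ := Rw γ 0 with hR0d
  set D : ℝ := (1 + 1 / δ) * M with hD
  have hD0 : 0 < D := by positivity
  -- parameters
  set ε : ℝ := min (ε1 ^ 2 / (512 * (1 + C2))) (ε1 * c * β / (1152 * 2 * (1 + C2) * (R0 + 1)))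
    with hε
  have hε0 : 0 < ε := by positivity
  have hεa : ε * (512 * (1 + C2)) ≤ ε1 ^ 2 := by
    rw [← le_div_iff₀ (by positivity)]
    exact min_le_left _ _
  have hεb : ε * (1152 * 2 * (1 + C2) * (R0 + 1)) ≤ ε1 * c * β := by
    rw [← le_div_iff₀ (by positivity)]
    exact min_le_right _ _
  set e2 : ℝ := ε1 / (16 * Real.sqrt ((1 + C2) * D)) with he2
  have hs0 : 0 < Real.sqrt ((1 + C2) * D) := Real.sqrt_pos.2 (by positivity)
  have he20 : 0 < e2 := by positivity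
  set e3 : ℝ := ε1 * β / (1024 * (1 + C2) * (R0 + 1) * D) with he3
  have he30 : 0 < e3 := by positivity
  obtain ⟨C7, hC7, h7⟩ := H385.noncop_bound e2 he20
  obtain ⟨C8, hC8, h8⟩ := H385.noncop_sq e3 he30
  refine ⟨ε, hε0, fun Ce hCe => ?_⟩
  set K1 : ℝ := Real.sqrt ((1 + C2) * (2 * Ce)) + Real.sqrt ((1 + C2) * (2 * ε)) +
    Real.sqrt ((1 + C2) * D) * (C7 + 1) with hK1
  set K2 : ℝ := (1 + C2) * (2 * (R0 + 1)) * (2 * Ce + D * (2 * C8 + 2)) with hK2
  have hK10 : 0 ≤ K1 := by positivity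
  have hK20 : 0 ≤ K2 := by positivity
  refine ⟨1 + 1 / β + 4 * K1 / ε1 + 32 * K2 / ε1, by positivity, ?_⟩
  intro n T ℒ hn hT hℒ hlogn
  have hT0 : 0 < T := by linarith
  have hn1 : (1 : ℝ) ≤ n := by exact_mod_cast hn
  have hβi : 0 < 1 / β := by positivity
  have hq1 : 0 ≤ 4 * K1 / ε1 := by positivity
  have hq2 : 0 ≤ 32 * K2 / ε1 := by positivity
  have hℒ1 : 1 ≤ ℒ := by linarith
  have hℒ0 : 0 < ℒ := by linarith
  have hΛ1 : 1 ≤ β * ℒ := by
    have : 1 / β ≤ ℒ := by linarith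
    rw [div_le_iff₀ hβ] at this
    linarith
  set Λ := β * ℒ with hΛ
  have hΛ0 : 0 < Λ := by linarith
  have hlog0 : 0 ≤ Real.log n := Real.log_nonneg hn1
  have hsq : (1 + Real.log n) ^ 2 ≤ (1 + 2 * ℒ) ^ 2 :=
    pow_le_pow_left₀ (by linarith) (by linarith) 2
  have hTC : T + C2 ≤ T * (1 + C2) := by
    have : 1 * C2 ≤ T * C2 := mul_le_mul_of_nonneg_right hT hC2.le
    linarith
  refine ⟨?_, ?_⟩
  · -- pointwise
    set g : ℝ := e2 * (2 * ℒ) + C7 + 1 with hg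
    have hg0 : 0 ≤ g := by positivity
    refine ⟨(1 + C2) * (2 * Ce) + (1 + C2) * (2 * ε) * (1 + 2 * ℒ) ^ 2 + (1 + C2) * D * g ^ 2,
      by positivity, ?_, ?_⟩
    · intro u hu
      have hG := (h7 n u hn hu).2
      have hG0 := H385.Gq_nonneg n u
      have hGg : Gq n u + 1 ≤ g := by
        have : Gq n u ≤ e2 * Real.log n + C7 := hG
        have h2 : e2 * Real.log n ≤ e2 * (2 * ℒ) := mul_le_mul_of_nonneg_left hlogn he20.le
        rw [hg]; linarith
      have hG2 : (Gq n u + 1) ^ 2 ≤ g ^ 2 := pow_le_pow_left₀ (by linarith) hGg 2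
      have hex : Real.exp (-(c * u)) ≤ 1 := by
        rw [Real.exp_le_one_iff]
        have : 0 ≤ c * u := by positivity
        linarith
      unfold XU
      calc (T + C2) * ((1 + δ) * (Ce + ε * (1 + Real.log n) ^ 2 * Real.exp (-(c * u))) +
          (1 + 1 / δ) * (M * (Gq n u + 1) ^ 2)) ≤
          (T * (1 + C2)) * (2 * (Ce + ε * (1 + 2 * ℒ) ^ 2 * 1) +
          (1 + 1 / δ) * (M * g ^ 2)) := by
            gcongr
            linarith
        _ = _ := by rw [hD]; ring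
    · have s1 : Real.sqrt ((1 + C2) * (2 * Ce) + (1 + C2) * (2 * ε) * (1 + 2 * ℒ) ^ 2 +
          (1 + C2) * D * g ^ 2) ≤ Real.sqrt ((1 + C2) * (2 * Ce)) +
          Real.sqrt ((1 + C2) * (2 * ε)) * (1 + 2 * ℒ) + Real.sqrt ((1 + C2) * D) * g := by
        refine (H385.sqrt_add_le_c _ _ (by positivity) (by positivity)).trans ?_
        have t1 := H385.sqrt_add_le_c ((1 + C2) * (2 * Ce))
          ((1 + C2) * (2 * ε) * (1 + 2 * ℒ) ^ 2) (by positivity) (by positivity)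
        have t2 : Real.sqrt ((1 + C2) * (2 * ε) * (1 + 2 * ℒ) ^ 2) =
            Real.sqrt ((1 + C2) * (2 * ε)) * (1 + 2 * ℒ) := by
          rw [Real.sqrt_mul (by positivity), Real.sqrt_sq (by positivity)]
        have t3 : Real.sqrt ((1 + C2) * D * g ^ 2) = Real.sqrt ((1 + C2) * D) * g := by
          rw [Real.sqrt_mul (by positivity), Real.sqrt_sq hg0]
        rw [t2] at t1
        rw [t3]
        linarith
      refine s1.trans ?_
      have s2 : Real.sqrt ((1 + C2) * D) * g = ε1 / 8 * ℒ +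
          Real.sqrt ((1 + C2) * D) * (C7 + 1) := by
        rw [hg, he2]; field_simp; ring
      have s3 : Real.sqrt ((1 + C2) * (2 * ε)) ≤ ε1 / 16 := by
        rw [Real.sqrt_le_left (by positivity)]
        have : (ε1 / 16) ^ 2 = ε1 ^ 2 / 256 := by ring
        rw [this, le_div_iff₀ (by norm_num)]
        linarith
      have s4 : K1 ≤ ε1 / 4 * ℒ := by
        have h1 : 4 * K1 / ε1 ≤ ℒ := by linarith
        rw [div_le_iff₀ hε1] at h1
        linarith
      have s5 : Real.sqrt ((1 + C2) * (2 * ε)) * (1 + 2 * ℒ) ≤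
          Real.sqrt ((1 + C2) * (2 * ε)) + ε1 / 8 * ℒ := by
        have : Real.sqrt ((1 + C2) * (2 * ε)) * (2 * ℒ) ≤ ε1 / 16 * (2 * ℒ) :=
          mul_le_mul_of_nonneg_right s3 (by positivity)
        linarith
      have s6 : 0 ≤ ε1 * ℒ := by positivity
      rw [hK1] at s4
      linarith
  · -- integral
    have hRc := H385.Rw_cont γ hγ hπ
    have hG := H385.Gq_cont n
    set E : ℝ → ℝ := fun u => T * (1 + C2) * (2 * (Ce + ε * (1 + Real.log n) ^ 2 *
      Real.exp (-(c * u))) + D * (2 * Gq n u ^ 2 + 2)) with hE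
    have hEc : Continuous E := by rw [hE]; fun_prop
    have hpt : ∀ u ∈ Set.Icc 0 Λ, Rw γ (u / Λ) * XU δ M C2 Ce ε c n T u ≤ R0 * E u := by
      intro u hu
      obtain ⟨hu0, hu2⟩ := hu
      have hG0 := H385.Gq_nonneg n u
      have hGs : (Gq n u + 1) ^ 2 ≤ 2 * Gq n u ^ 2 + 2 := by nlinarith [sq_nonneg (Gq n u - 1)]
      have hRn : 0 ≤ Rw γ (u / Λ) := H385.Rw_nonneg γ hγ hπ _
      have hRle : Rw γ (u / Λ) ≤ R0 := H385.Rw_le γ hγ hπ _ (div_nonneg hu0 hΛ0.le)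
      have hXE : XU δ M C2 Ce ε c n T u ≤ E u := by
        unfold XU
        rw [hE]
        simp only
        calc (T + C2) * ((1 + δ) * (Ce + ε * (1 + Real.log n) ^ 2 * Real.exp (-(c * u))) +
            (1 + 1 / δ) * (M * (Gq n u + 1) ^ 2)) ≤
            (T * (1 + C2)) * (2 * (Ce + ε * (1 + Real.log n) ^ 2 * Real.exp (-(c * u))) +
            (1 + 1 / δ) * (M * (2 * Gq n u ^ 2 + 2))) := by
              gcongr
              linarith
          _ = _ := by rw [hD]; ring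
      have hX0 : 0 ≤ XU δ M C2 Ce ε c n T u := by
        unfold XU
        positivity
      exact mul_le_mul hRle hXE hX0 hR0
    have hI1 : ∫ u in (0 : ℝ)..Λ, Rw γ (u / Λ) * XU δ M C2 Ce ε c n T u ≤
        ∫ u in (0 : ℝ)..Λ, R0 * E u := by
      refine intervalIntegral.integral_mono_on hΛ0.le ?_ ?_ hpt
      · exact ((hRc.comp (continuous_id.div_const Λ)).mul
          (XU_cont _ _ _ _ _ _ _ _)).intervalIntegrable _ _
      · exact (hEc.const_mul _).intervalIntegrable _ _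
    have hexpI : ∫ u in (0 : ℝ)..Λ, Real.exp (-(c * u)) ≤ 1 / c := by
      have e1 : ∫ u in (0 : ℝ)..Λ, Real.exp (-(c * u)) = (1 - Real.exp (-(c * Λ))) / c := by
        have h3 : ∀ u ∈ Set.uIcc (0 : ℝ) Λ, HasDerivAt (fun u : ℝ => -(Real.exp (-(c * u)) / c))
            (Real.exp (-(c * u))) u := by
          intro u _
          have h4 : HasDerivAt (fun u : ℝ => -(c * u)) (-c) u := by
            have h6 := ((hasDerivAt_id u).const_mul c).neg
            rw [mul_one] at h6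
            exact h6
          have h5 := (h4.exp.div_const c).neg
          refine h5.congr_deriv ?_
          field_simp
        rw [intervalIntegral.integral_eq_sub_of_hasDerivAt h3
          ((by fun_prop : Continuous (fun u : ℝ => Real.exp (-(c * u)))).intervalIntegrable _ _)]
        rw [mul_zero, neg_zero, Real.exp_zero]
        ring
      rw [e1]
      apply div_le_div_of_nonneg_right _ hc.le
      have := Real.exp_pos (-(c * Λ))
      linarith
    have hI3 : ∫ u in (0 : ℝ)..Λ, E u = T * (1 + C2) * (2 * (Ce * Λ + ε * (1 + Real.log n) ^ 2 *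
        ∫ u in (0 : ℝ)..Λ, Real.exp (-(c * u))) + D * (2 * (∫ u in (0 : ℝ)..Λ, Gq n u ^ 2) +
          2 * Λ)) := by
      have j1 : IntervalIntegrable (fun u : ℝ => 2 * (Ce + ε * (1 + Real.log n) ^ 2 *
          Real.exp (-(c * u)))) volume 0 Λ := by
        apply Continuous.intervalIntegrable; fun_prop
      have j2 : IntervalIntegrable (fun u : ℝ => D * (2 * Gq n u ^ 2 + 2)) volume 0 Λ := by
        apply Continuous.intervalIntegrable; fun_prop
      have j3 : IntervalIntegrable (fun u : ℝ => ε * (1 + Real.log n) ^ 2 *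
          Real.exp (-(c * u))) volume 0 Λ := by
        apply Continuous.intervalIntegrable; fun_prop
      have j4 : IntervalIntegrable (fun u : ℝ => 2 * Gq n u ^ 2) volume 0 Λ := by
        apply Continuous.intervalIntegrable; fun_prop
      rw [hE, intervalIntegral.integral_const_mul, intervalIntegral.integral_add j1 j2,
        intervalIntegral.integral_const_mul, intervalIntegral.integral_const_mul,
        intervalIntegral.integral_add (continuous_const.intervalIntegrable _ _) j3,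
        intervalIntegral.integral_add j4 (continuous_const.intervalIntegrable _ _),
        intervalIntegral.integral_const_mul, intervalIntegral.integral_const_mul]
      simp only [intervalIntegral.integral_const, smul_eq_mul]
      ring
    have hG4 : ∫ u in (0 : ℝ)..Λ, Gq n u ^ 2 ≤ e3 * (4 * ℒ ^ 2) + C8 := by
      refine le_trans (h8 n Λ hn hΛ0.le) ?_
      have : Real.log n ^ 2 ≤ (2 * ℒ) ^ 2 := pow_le_pow_left₀ hlog0 hlogn 2
      have h2 := mul_le_mul_of_nonneg_left this he30.le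
      have h3 : e3 * (2 * ℒ) ^ 2 = e3 * (4 * ℒ ^ 2) := by ring
      linarith
    have hsp : 1 ≤ Real.sqrt Real.pi := by
      rw [Real.one_le_sqrt]; linarith [Real.pi_gt_three]
    have hsp0 : 0 < Real.sqrt Real.pi := by linarith
    have hpi := Real.pi_pos
    set P : ℝ := 2 / (Real.sqrt Real.pi * Λ) with hP
    have hP0 : 0 ≤ P := by positivity
    have hPΛ : P * Λ ≤ 2 := by
      rw [hP]
      have : 2 / (Real.sqrt Real.pi * Λ) * Λ = 2 / Real.sqrt Real.pi := by field_simp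
      rw [this, div_le_iff₀ hsp0]; linarith
    have hP2 : P ≤ 2 / Λ := by
      rw [hP]
      apply div_le_div_of_nonneg_left (by norm_num) hΛ0
      calc Λ = 1 * Λ := (one_mul _).symm
        _ ≤ _ := mul_le_mul_of_nonneg_right hsp hΛ0.le
    have hP3 : P ≤ 2 := by
      refine hP2.trans ?_
      rw [div_le_iff₀ hΛ0]; linarith
    have n1 : P * ℒ ^ 2 ≤ 2 / β * ℒ := by
      calc P * ℒ ^ 2 ≤ 2 / Λ * ℒ ^ 2 := by gcongr
        _ = _ := by rw [hΛ]; field_simp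
    have h9 : (1 + 2 * ℒ) ^ 2 ≤ 9 * ℒ ^ 2 := by nlinarith
    have hsq9 : (1 + Real.log n) ^ 2 ≤ 9 * ℒ ^ 2 := hsq.trans h9
    have hTR : 0 ≤ T * (1 + C2) * (R0 + 1) := by positivity
    have main : P * (∫ u in (0 : ℝ)..Λ, Rw γ (u / Λ) * XU δ M C2 Ce ε c n T u) ≤
        T * (1 + C2) * (R0 + 1) * (2 * (Ce * (P * Λ) + ε * (9 * (P * ℒ ^ 2)) * (1 / c)) +
          D * (2 * (e3 * (4 * (P * ℒ ^ 2)) + C8 * P) + 2 * (P * Λ))) := by
      have h1 : ∫ u in (0 : ℝ)..Λ, Rw γ (u / Λ) * XU δ M C2 Ce ε c n T u ≤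
          (R0 + 1) * (T * (1 + C2) * (2 * (Ce * Λ + ε * (9 * ℒ ^ 2) * (1 / c)) +
            D * (2 * (e3 * (4 * ℒ ^ 2) + C8) + 2 * Λ))) := by
        refine hI1.trans ?_
        rw [intervalIntegral.integral_const_mul, hI3]
        have hi0 : 0 ≤ ∫ u in (0 : ℝ)..Λ, Real.exp (-(c * u)) :=
          intervalIntegral.integral_nonneg hΛ0.le fun u _ => (Real.exp_pos _).le
        have hi1 : 0 ≤ ∫ u in (0 : ℝ)..Λ, Gq n u ^ 2 :=
          intervalIntegral.integral_nonneg hΛ0.le fun u _ => sq_nonneg _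
        generalize (∫ u in (0 : ℝ)..Λ, Real.exp (-(c * u))) = IE at hexpI hi0 ⊢
        generalize (∫ u in (0 : ℝ)..Λ, Gq n u ^ 2) = IG at hG4 hi1 ⊢
        have w1 : ε * (1 + Real.log n) ^ 2 * IE ≤ ε * (9 * ℒ ^ 2) * (1 / c) :=
          mul_le_mul (mul_le_mul_of_nonneg_left hsq9 hε0.le) hexpI hi0 (by positivity)
        have w2 : 2 * (Ce * Λ + ε * (1 + Real.log n) ^ 2 * IE) + D * (2 * IG + 2 * Λ) ≤
            2 * (Ce * Λ + ε * (9 * ℒ ^ 2) * (1 / c)) +
            D * (2 * (e3 * (4 * ℒ ^ 2) + C8) + 2 * Λ) := by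
          have w3 := mul_le_mul_of_nonneg_left (show 2 * IG + 2 * Λ ≤
            2 * (e3 * (4 * ℒ ^ 2) + C8) + 2 * Λ by linarith) hD0.le
          linarith
        have w4 : T * (1 + C2) * (2 * (Ce * Λ + ε * (1 + Real.log n) ^ 2 * IE) +
            D * (2 * IG + 2 * Λ)) ≤ T * (1 + C2) * (2 * (Ce * Λ + ε * (9 * ℒ ^ 2) * (1 / c)) +
            D * (2 * (e3 * (4 * ℒ ^ 2) + C8) + 2 * Λ)) :=
          mul_le_mul_of_nonneg_left w2 (by positivity)
        have w5 : 0 ≤ T * (1 + C2) * (2 * (Ce * Λ + ε * (1 + Real.log n) ^ 2 * IE) +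
            D * (2 * IG + 2 * Λ)) := by positivity
        exact mul_le_mul (by linarith) w4 w5 (by positivity)
      calc _ ≤ P * ((R0 + 1) * (T * (1 + C2) * (2 * (Ce * Λ + ε * (9 * ℒ ^ 2) * (1 / c)) +
            D * (2 * (e3 * (4 * ℒ ^ 2) + C8) + 2 * Λ)))) := mul_le_mul_of_nonneg_left h1 hP0
        _ = _ := by ring
    have hbd : T * (1 + C2) * (R0 + 1) * (2 * (Ce * (P * Λ) + ε * (9 * (P * ℒ ^ 2)) * (1 / c)) +
          D * (2 * (e3 * (4 * (P * ℒ ^ 2)) + C8 * P) + 2 * (P * Λ))) ≤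
        T * (1 + C2) * (R0 + 1) * (2 * (Ce * 2 + ε * (9 * (2 / β * ℒ)) * (1 / c)) +
          D * (2 * (e3 * (4 * (2 / β * ℒ)) + C8 * 2) + 2 * 2)) := by
      gcongr
    refine (main.trans hbd).trans ?_
    have hA : (1 + C2) * (R0 + 1) * (2 * (ε * (9 * (2 / β * ℒ)) * (1 / c))) ≤ ε1 / 64 * ℒ := by
      have : (1 + C2) * (R0 + 1) * (2 * (ε * (9 * (2 / β * ℒ)) * (1 / c))) =
          (ε * (1152 * 2 * (1 + C2) * (R0 + 1))) * (ℒ / (64 * c * β)) := by
        field_simp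
        ring
      rw [this]
      calc _ ≤ (ε1 * c * β) * (ℒ / (64 * c * β)) := by gcongr
        _ = _ := by field_simp
    have hB : (1 + C2) * (R0 + 1) * (D * (2 * (e3 * (4 * (2 / β * ℒ))))) = ε1 / 64 * ℒ := by
      rw [he3]
      field_simp
      ring
    have hC : K2 ≤ ε1 / 32 * ℒ := by
      have h1 : 32 * K2 / ε1 ≤ ℒ := by linarith
      rw [div_le_iff₀ hε1] at h1
      linarith
    have h3 : 1 / 8 ≤ 1 / (2 * Real.pi) := by
      apply one_div_le_one_div_of_le (by positivity)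
      linarith [Real.pi_lt_four]
    have hfin : T * (ε1 / 8 * ℒ) ≤ T / (2 * Real.pi) * ℒ * ε1 := by
      have n : 0 ≤ T * ℒ * ε1 := by positivity
      calc T * (ε1 / 8 * ℒ) = (1 / 8) * (T * ℒ * ε1) := by ring
        _ ≤ (1 / (2 * Real.pi)) * (T * ℒ * ε1) := by gcongr
        _ = _ := by ring
    refine le_trans ?_ hfin
    have e9 : T * (1 + C2) * (R0 + 1) * (2 * (Ce * 2 + ε * (9 * (2 / β * ℒ)) * (1 / c)) +
          D * (2 * (e3 * (4 * (2 / β * ℒ)) + C8 * 2) + 2 * 2)) =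
        T * ((1 + C2) * (R0 + 1) * (2 * (ε * (9 * (2 / β * ℒ)) * (1 / c))) +
          (1 + C2) * (R0 + 1) * (D * (2 * (e3 * (4 * (2 / β * ℒ))))) + K2) := by
      rw [hK2]; ring
    rw [e9]
    refine mul_le_mul_of_nonneg_left ?_ hT0.le
    rw [hB]
    have : 0 ≤ ε1 * ℒ := by positivity
    linarith

end Pool.Agent.Y693.AB
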