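import Pool.Agent.Y693.AB.Cnt
import Pool.Agent.H385R5.HE123

/-!
Project AB (helper693), part 2: products of pairs of primes which are congruent modulo a subgroup.
-/

set_option autoImplicit false

open H385 (ZI RQ nrm)

namespace Pool.Agent.Y693.AB

/-- `a ≡ u b` modulo `q` with `u ∈ V` -/
def rel {q : ZI} (V : Subgroup (RQ q)ˣ) (a b : ZI) : Prop :=
  ∃ u ∈ V, Ideal.Quotient.mk (Ideal.span {q}) a = (u : RQ q) * Ideal.Quotient.mk (Ideal.span {q}) b

theorem rel_refl {q : ZI} (V : Subgroup (RQ q)ˣ) (a : ZI) : rel V a a :=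
  ⟨1, V.one_mem, by simp⟩

theorem rel_symm {q : ZI} {V : Subgroup (RQ q)ˣ} {a b : ZI} (h : rel V a b) : rel V b a := by
  obtain ⟨u, hu, h1⟩ := h
  refine ⟨u⁻¹, V.inv_mem hu, ?_⟩
  rw [h1, ← mul_assoc, Units.inv_mul, one_mul]

theorem rel_trans {q : ZI} {V : Subgroup (RQ q)ˣ} {a b c : ZI} (h : rel V a b) (h' : rel V b c) :
    rel V a c := by
  obtain ⟨u, hu, h1⟩ := h
  obtain ⟨w, hw, h2⟩ := h'
  refine ⟨u * w, V.mul_mem hu hw, ?_⟩
  rw [h1, h2, Units.val_mul, mul_assoc]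

theorem rel_mul {q : ZI} {V : Subgroup (RQ q)ˣ} {a b c d : ZI} (h : rel V a b) (h' : rel V c d) :
    rel V (a * c) (b * d) := by
  obtain ⟨u, hu, h1⟩ := h
  obtain ⟨w, hw, h2⟩ := h'
  refine ⟨u * w, V.mul_mem hu hw, ?_⟩
  rw [map_mul, map_mul, h1, h2, Units.val_mul]
  ring

theorem rel_prod {q : ZI} {V : Subgroup (RQ q)ˣ} {j : ℕ} (f : Fin j → ZI × ZI)
    (h : ∀ i, rel V (f i).1 (f i).2) : rel V (∏ i, (f i).1) (∏ i, (f i).2) := by
  induction j with
  | zero => simpa using rel_refl V 1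
  | succ j ih =>
    rw [Fin.prod_univ_succ, Fin.prod_univ_succ]
    exact rel_mul (h 0) (ih (fun i => f i.succ) (fun i => h i.succ))

/-- coprime pairs of small norm which are related -/
theorem rel_count (q : ZI) (hq : q ≠ 0) (V : Subgroup (RQ q)ˣ) (B : ℕ) (S : Finset (ZI × ZI))
    (hS : ∀ v ∈ S, rel V v.1 v.2 ∧ IsCoprime v.1 v.2 ∧ nrm v.1 ≤ B ∧ nrm v.2 ≤ B) :
    S.card ≤ Nat.card V * (33 * (8 * (4 * B ^ 2 / nrm q) + 1)) := by
  classical
  have hfq := H385.he1_finite hq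
  have hfu : Finite (RQ q)ˣ := inferInstance
  have hfV : Finite V := inferInstance
  let _ : Fintype V := Fintype.ofFinite V
  have hex : ∀ v : ZI × ZI, ∃ u : V, v ∈ S → Ideal.Quotient.mk (Ideal.span {q}) v.1 =
      (((u : (RQ q)ˣ)) : RQ q) * Ideal.Quotient.mk (Ideal.span {q}) v.2 := by
    intro v
    by_cases hv : v ∈ S
    · obtain ⟨u, hu, h⟩ := (hS v hv).1
      exact ⟨⟨u, hu⟩, fun _ => h⟩
    · exact ⟨1, fun h => absurd h hv⟩
  choose g hg using hex
  have h1 := Finset.card_le_mul_card_image_of_maps_to (f := g) (s := S)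
    (t := (Finset.univ : Finset V)) (fun _ _ => Finset.mem_univ _)
    (33 * (8 * (4 * B ^ 2 / nrm q) + 1)) (by
      intro u _
      refine lattice_count q (Quotient.out (((u : (RQ q)ˣ)) : RQ q) : ZI) hq B _ ?_
      intro v hv
      rw [Finset.mem_filter] at hv
      obtain ⟨-, h2, h3, h4⟩ := hS v hv.1
      refine ⟨?_, h2, h3, h4⟩
      have h5 := hg v hv.1
      rw [hv.2] at h5
      rw [← Ideal.mem_span_singleton, ← Ideal.Quotient.eq, map_mul, h5]
      congr 1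
      exact (Ideal.Quotient.mk_out _).symm)
  rw [Finset.card_univ, ← Nat.card_eq_fintype_card, mul_comm] at h1
  exact h1

open Classical in
/-- the `j`-tuples of pairs in `P` without repeated entries -/
noncomputable def Tup (P : Finset (ZI × ZI)) (j : ℕ) : Finset (Fin j → ZI × ZI) :=
  (Fintype.piFinset (fun _ : Fin j => P)).filter (fun f =>
    (∀ i k, i ≠ k → (f i).1 ≠ (f k).1 ∧ (f i).2 ≠ (f k).2) ∧ ∀ i k, (f i).1 ≠ (f k).2)

theorem mem_Tup {P : Finset (ZI × ZI)} {j : ℕ} {f : Fin j → ZI × ZI} : f ∈ Tup P j ↔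
    (∀ i, f i ∈ P) ∧ (∀ i k, i ≠ k → (f i).1 ≠ (f k).1 ∧ (f i).2 ≠ (f k).2) ∧
      ∀ i k, (f i).1 ≠ (f k).2 := by
  classical
  unfold Tup
  rw [Finset.mem_filter, Fintype.mem_piFinset]

theorem card_Tup_succ (P : Finset (ZI × ZI)) (hP : ∀ p ∈ P, p.1 ≠ p.2) (D : ℕ)
    (hD1 : ∀ e : ZI, (P.filter (fun p => p.1 = e)).card ≤ D)
    (hD2 : ∀ e : ZI, (P.filter (fun p => p.2 = e)).card ≤ D) (j : ℕ) :
    (Tup P j).card * (P.card - 4 * j * D) ≤ (Tup P (j + 1)).card := by
  classical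
  let comp : (Fin j → ZI × ZI) → ZI × ZI → Prop := fun f p =>
    ∀ i, p.1 ≠ (f i).1 ∧ p.2 ≠ (f i).2 ∧ p.1 ≠ (f i).2 ∧ p.2 ≠ (f i).1
  have hcount : ∀ f : Fin j → ZI × ZI, P.card - 4 * j * D ≤ (P.filter (comp f)).card := by
    intro f
    have h1 : P ⊆ P.filter (comp f) ∪ (Finset.univ : Finset (Fin j)).biUnion (fun i =>
        ((P.filter (fun p => p.1 = (f i).1) ∪ P.filter (fun p => p.2 = (f i).2)) ∪
          (P.filter (fun p => p.1 = (f i).2) ∪ P.filter (fun p => p.2 = (f i).1)))) := by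
      intro p hp
      by_cases hc : comp f p
      · exact Finset.mem_union_left _ (Finset.mem_filter.2 ⟨hp, hc⟩)
      · apply Finset.mem_union_right
        have hc' : ∃ i, p.1 = (f i).1 ∨ p.2 = (f i).2 ∨ p.1 = (f i).2 ∨ p.2 = (f i).1 := by
          by_contra hcon
          apply hc
          intro i
          refine ⟨fun h => hcon ⟨i, Or.inl h⟩, fun h => hcon ⟨i, Or.inr (Or.inl h)⟩,
            fun h => hcon ⟨i, Or.inr (Or.inr (Or.inl h))⟩,
            fun h => hcon ⟨i, Or.inr (Or.inr (Or.inr h))⟩⟩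
        obtain ⟨i, hi⟩ := hc'
        rw [Finset.mem_biUnion]
        refine ⟨i, Finset.mem_univ _, ?_⟩
        simp only [Finset.mem_union, Finset.mem_filter]
        rcases hi with h | h | h | h
        · exact Or.inl (Or.inl ⟨hp, h⟩)
        · exact Or.inl (Or.inr ⟨hp, h⟩)
        · exact Or.inr (Or.inl ⟨hp, h⟩)
        · exact Or.inr (Or.inr ⟨hp, h⟩)
    have h2 := (Finset.card_le_card h1).trans (Finset.card_union_le _ _)
    have h3 : ((Finset.univ : Finset (Fin j)).biUnion (fun i =>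
        ((P.filter (fun p => p.1 = (f i).1) ∪ P.filter (fun p => p.2 = (f i).2)) ∪
          (P.filter (fun p => p.1 = (f i).2) ∪ P.filter (fun p => p.2 = (f i).1))))).card ≤
        4 * j * D := by
      refine Finset.card_biUnion_le.trans ?_
      calc _ ≤ ∑ _i : Fin j, 4 * D := by
            refine Finset.sum_le_sum fun i _ => ?_
            have a1 := hD1 (f i).1
            have a2 := hD2 (f i).2
            have a3 := hD1 (f i).2
            have a4 := hD2 (f i).1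
            refine (Finset.card_union_le _ _).trans ?_
            have b1 := Finset.card_union_le (P.filter (fun p => p.1 = (f i).1))
              (P.filter (fun p => p.2 = (f i).2))
            have b2 := Finset.card_union_le (P.filter (fun p => p.1 = (f i).2))
              (P.filter (fun p => p.2 = (f i).1))
            omega
        _ = 4 * j * D := by
            rw [Finset.sum_const, Finset.card_univ, Fintype.card_fin, smul_eq_mul]
            ring
    omega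
  have hsig : (Tup P j).card * (P.card - 4 * j * D) ≤
      ((Tup P j).sigma (fun f => P.filter (comp f))).card := by
    rw [Finset.card_sigma]
    calc (Tup P j).card * (P.card - 4 * j * D) = ∑ _f ∈ Tup P j, (P.card - 4 * j * D) := by
          rw [Finset.sum_const, smul_eq_mul]
      _ ≤ _ := Finset.sum_le_sum fun f _ => hcount f
  refine hsig.trans ?_
  refine Finset.card_le_card_of_injOn (fun x => (Fin.cons x.2 x.1 : Fin (j + 1) → ZI × ZI)) ?_ ?_
  · rintro ⟨f, p⟩ hx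
    rw [Finset.mem_coe, Finset.mem_sigma, Finset.mem_filter, mem_Tup] at hx
    obtain ⟨⟨f1, f2, f3⟩, hpP, hc⟩ := hx
    simp only at f1 f2 f3 hpP hc
    rw [Finset.mem_coe, mem_Tup]
    simp only
    refine ⟨?_, ?_, ?_⟩
    · intro i
      refine Fin.cases ?_ (fun i => ?_) i
      · simpa using hpP
      · simpa using f1 i
    · intro i k
      refine Fin.cases ?_ (fun i => ?_) i
      · refine Fin.cases ?_ (fun k => ?_) k
        · intro h; exact absurd rfl h
        · intro _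
          simpa using ⟨(hc k).1, (hc k).2.1⟩
      · refine Fin.cases ?_ (fun k => ?_) k
        · intro _
          simpa using ⟨(hc i).1.symm, (hc i).2.1.symm⟩
        · intro h
          have h' : i ≠ k := fun e => h (by rw [e])
          simpa using f2 i k h'
    · intro i k
      refine Fin.cases ?_ (fun i => ?_) i
      · refine Fin.cases ?_ (fun k => ?_) k
        · simpa using hP p hpP
        · simpa using (hc k).2.2.1
      · refine Fin.cases ?_ (fun k => ?_) k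
        · simpa using (hc i).2.2.2.symm
        · simpa using f3 i k
  · rintro ⟨f, p⟩ _ ⟨g, r⟩ _ h
    simp only at h
    have h1 := Fin.cons_injective2 h
    obtain ⟨h2, h3⟩ := h1
    subst h2
    subst h3
    rfl

theorem card_Tup_lower (P : Finset (ZI × ZI)) (hP : ∀ p ∈ P, p.1 ≠ p.2) (D : ℕ)
    (hD1 : ∀ e : ZI, (P.filter (fun p => p.1 = e)).card ≤ D)
    (hD2 : ∀ e : ZI, (P.filter (fun p => p.2 = e)).card ≤ D) (J j : ℕ) (hj : j ≤ J) :
    (P.card - 4 * J * D) ^ j ≤ (Tup P j).card := by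
  induction j with
  | zero =>
    rw [pow_zero, Nat.one_le_iff_ne_zero, Finset.card_ne_zero]
    refine ⟨fun i => i.elim0, ?_⟩
    rw [mem_Tup]
    exact ⟨fun i => i.elim0, fun i => i.elim0, fun i => i.elim0⟩
  | succ j ih =>
    have h1 := ih (by omega)
    have h2 := card_Tup_succ P hP D hD1 hD2 j
    refine le_trans ?_ h2
    rw [pow_succ]
    refine Nat.mul_le_mul h1 ?_
    have : 4 * j * D ≤ 4 * J * D := Nat.mul_le_mul_right _ (by omega)
    omega

theorem nrm_prod_le {j : ℕ} (f : Fin j → ZI) (A : ℕ) (h : ∀ i, nrm (f i) ≤ A) :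
    nrm (∏ i, f i) ≤ A ^ j := by
  induction j with
  | zero => simp [nrm_one]
  | succ j ih =>
    rw [Fin.prod_univ_succ, nrm_mul, pow_succ, mul_comm]
    exact Nat.mul_le_mul (ih (fun i => f i.succ) (fun i => h i.succ)) (h 0)

/-- upper bound for the number of tuples -/
theorem card_Tup_upper (q : ZI) (hq : q ≠ 0) (V : Subgroup (RQ q)ˣ) (Pr : Finset ZI)
    (hp : ∀ a ∈ Pr, Prime a) (hdvd : ∀ a ∈ Pr, ∀ b ∈ Pr, a ∣ b → a = b) (A : ℕ)
    (hA : ∀ a ∈ Pr, nrm a ≤ A) (P : Finset (ZI × ZI))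
    (hP : ∀ p ∈ P, p.1 ∈ Pr ∧ p.2 ∈ Pr ∧ rel V p.1 p.2) (j : ℕ) :
    (Tup P j).card ≤ (j ^ j * j ^ j) *
      (Nat.card V * (33 * (8 * (4 * (A ^ j) ^ 2 / nrm q) + 1))) := by
  classical
  let Φ : (Fin j → ZI × ZI) → ZI × ZI := fun f => (∏ i, (f i).1, ∏ i, (f i).2)
  have himg : ((Tup P j).image Φ).card ≤
      Nat.card V * (33 * (8 * (4 * (A ^ j) ^ 2 / nrm q) + 1)) := by
    apply rel_count q hq V (A ^ j)
    intro v hv
    rw [Finset.mem_image] at hv
    obtain ⟨f, hf, rfl⟩ := hv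
    rw [mem_Tup] at hf
    obtain ⟨f1, f2, f3⟩ := hf
    refine ⟨rel_prod f (fun i => (hP _ (f1 i)).2.2), ?_, ?_, ?_⟩
    · show IsCoprime (∏ i, (f i).1) (∏ i, (f i).2)
      refine IsCoprime.prod_left fun i _ => IsCoprime.prod_right fun k _ => ?_
      rw [(hp _ (hP _ (f1 i)).1).irreducible.coprime_iff_not_dvd]
      intro h
      exact f3 i k (hdvd _ (hP _ (f1 i)).1 _ (hP _ (f1 k)).2.1 h)
    · exact nrm_prod_le _ A (fun i => hA _ (hP _ (f1 i)).1)
    · exact nrm_prod_le _ A (fun i => hA _ (hP _ (f1 i)).2.1)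
  have hfib : ∀ v ∈ (Tup P j).image Φ, ((Tup P j).filter (fun f => Φ f = v)).card ≤
      j ^ j * j ^ j := by
    intro v _
    rcases ((Tup P j).filter (fun f => Φ f = v)).eq_empty_or_nonempty with he | ⟨f0, hf0⟩
    · rw [he]; simp
    rw [Finset.mem_filter, mem_Tup] at hf0
    obtain ⟨⟨g1, g2, g3⟩, hv0⟩ := hf0
    have key : ∀ f : Fin j → ZI × ZI, ∃ σ : (Fin j → Fin j) × (Fin j → Fin j),
        f ∈ (Tup P j).filter (fun f => Φ f = v) →
        ∀ i, (f i).1 = (f0 (σ.1 i)).1 ∧ (f i).2 = (f0 (σ.2 i)).2 := by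
      intro f
      by_cases hf : f ∈ (Tup P j).filter (fun f => Φ f = v)
      · have hf' := hf
        rw [Finset.mem_filter, mem_Tup] at hf'
        obtain ⟨⟨f1, f2, f3⟩, hv1⟩ := hf'
        have e : Φ f = Φ f0 := by rw [hv1, hv0]
        have e1 : ∏ i, (f i).1 = ∏ i, (f0 i).1 := congrArg Prod.fst e
        have e2 : ∏ i, (f i).2 = ∏ i, (f0 i).2 := congrArg Prod.snd e
        have k1 : ∀ i, ∃ k, (f i).1 = (f0 k).1 := by
          intro i
          have h1 : (f i).1 ∣ ∏ i, (f0 i).1 := by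
            rw [← e1]
            exact Finset.dvd_prod_of_mem _ (Finset.mem_univ i)
          obtain ⟨k, -, hk⟩ := (Prime.dvd_finsetProd_iff (hp _ (hP _ (f1 i)).1) _).1 h1
          exact ⟨k, hdvd _ (hP _ (f1 i)).1 _ (hP _ (g1 k)).1 hk⟩
        have k2 : ∀ i, ∃ k, (f i).2 = (f0 k).2 := by
          intro i
          have h1 : (f i).2 ∣ ∏ i, (f0 i).2 := by
            rw [← e2]
            exact Finset.dvd_prod_of_mem _ (Finset.mem_univ i)
          obtain ⟨k, -, hk⟩ := (Prime.dvd_finsetProd_iff (hp _ (hP _ (f1 i)).2.1) _).1 h1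
          exact ⟨k, hdvd _ (hP _ (f1 i)).2.1 _ (hP _ (g1 k)).2.1 hk⟩
        choose s hs using k1
        choose s' hs' using k2
        exact ⟨(s, s'), fun _ i => ⟨hs i, hs' i⟩⟩
      · exact ⟨(fun i => i, fun i => i), fun h => absurd h hf⟩
    choose σ hσ using key
    have hinj : Set.InjOn σ ((Tup P j).filter (fun f => Φ f = v) : Set (Fin j → ZI × ZI)) := by
      intro f hf f' hf' heq
      rw [Finset.mem_coe] at hf hf'
      funext i
      have h1 := hσ f hf i
      have h2 := hσ f' hf' i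
      rw [heq] at h1
      exact Prod.ext (h1.1.trans h2.1.symm) (h1.2.trans h2.2.symm)
    calc ((Tup P j).filter (fun f => Φ f = v)).card ≤
        (Finset.univ : Finset ((Fin j → Fin j) × (Fin j → Fin j))).card :=
          Finset.card_le_card_of_injOn σ (fun _ _ => Finset.mem_univ _) hinj
      _ = j ^ j * j ^ j := by
          rw [Finset.card_univ, Fintype.card_prod, Fintype.card_fun, Fintype.card_fin]
  have h1 := Finset.card_le_mul_card_image (f := Φ) (Tup P j) (j ^ j * j ^ j) hfib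
  exact h1.trans (Nat.mul_le_mul_left _ himg)

open Classical in
/-- the pairs of different related primes -/
noncomputable def PP {q : ZI} (V : Subgroup (RQ q)ˣ) (Pr : Finset ZI) : Finset (ZI × ZI) :=
  (Pr ×ˢ Pr).filter (fun p => p.1 ≠ p.2 ∧ rel V p.1 p.2)

theorem mem_PP {q : ZI} {V : Subgroup (RQ q)ˣ} {Pr : Finset ZI} {p : ZI × ZI} :
    p ∈ PP V Pr ↔ p.1 ∈ Pr ∧ p.2 ∈ Pr ∧ p.1 ≠ p.2 ∧ rel V p.1 p.2 := by
  classical
  unfold PP
  rw [Finset.mem_filter, Finset.mem_product, and_assoc]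

/-- the degree -/
theorem degree_le {q : ZI} (V : Subgroup (RQ q)ˣ) (Pr : Finset ZI) (e : ZI) :
    ((PP V Pr).filter (fun p => p.1 = e)).card ≤ Nat.sqrt (PP V Pr).card ∧
    ((PP V Pr).filter (fun p => p.2 = e)).card ≤ Nat.sqrt (PP V Pr).card := by
  classical
  have h1 : ((PP V Pr).filter (fun p => p.1 = e)).card ≤ Nat.sqrt (PP V Pr).card := by
    rw [Nat.le_sqrt]
    set F := (PP V Pr).filter (fun p => p.1 = e) with hF
    rw [← Finset.card_product]
    -- (e, b), (e, c) ↦ (b, c) if b ≠ c, (e, b) otherwise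
    refine Finset.card_le_card_of_injOn
      (fun x => if x.1.2 = x.2.2 then x.1 else (x.1.2, x.2.2)) ?_ ?_
    · rintro ⟨x, y⟩ hxy
      rw [Finset.mem_coe, Finset.mem_product, hF, Finset.mem_filter, Finset.mem_filter] at hxy
      obtain ⟨⟨hx, hx1⟩, ⟨hy, hy1⟩⟩ := hxy
      simp only at hx hx1 hy hy1
      rw [Finset.mem_coe]
      simp only
      split_ifs with h
      · exact hx
      · rw [mem_PP] at hx hy ⊢
        obtain ⟨a1, a2, a3, a4⟩ := hx
        obtain ⟨b1, b2, b3, b4⟩ := hy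
        refine ⟨a2, b2, h, ?_⟩
        rw [hx1] at a4
        rw [hy1] at b4
        exact rel_trans (rel_symm a4) b4
    · rintro ⟨x, y⟩ hxy ⟨x', y'⟩ hxy' h
      rw [Finset.mem_coe, Finset.mem_product, hF, Finset.mem_filter, Finset.mem_filter] at hxy hxy'
      obtain ⟨⟨hx, hx1⟩, ⟨hy, hy1⟩⟩ := hxy
      obtain ⟨⟨hx', hx1'⟩, ⟨hy', hy1'⟩⟩ := hxy'
      simp only at hx hx1 hy hy1 hx' hx1' hy' hy1' h
      have hne : ∀ z : ZI × ZI, z ∈ PP V Pr → z.1 ≠ z.2 := fun z hz => (mem_PP.1 hz).2.2.1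
      split_ifs at h with c1 c2 c2
      · -- both diagonal
        subst h
        have e1 : y = x := Prod.ext (hy1.trans hx1.symm) c1.symm
        have e2 : y' = x := Prod.ext (hy1'.trans hx1.symm) c2.symm
        rw [e1, e2]
      · exfalso
        have e1 : x.1 = x'.2 := congrArg Prod.fst h
        exact hne x' hx' (by rw [hx1', ← hx1, e1])
      · exfalso
        have e1 : x.2 = x'.1 := congrArg Prod.fst h
        exact hne x hx (by rw [hx1, ← hx1', e1])
      · have e1 : x.2 = x'.2 := (Prod.mk.inj h).1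
        have e2 : y.2 = y'.2 := (Prod.mk.inj h).2
        have e3 : x = x' := Prod.ext (hx1.trans hx1'.symm) e1
        have e4 : y = y' := Prod.ext (hy1.trans hy1'.symm) e2
        rw [e3, e4]
  refine ⟨h1, ?_⟩
  refine le_trans ?_ h1
  refine Finset.card_le_card_of_injOn (fun x => (x.2, x.1)) ?_ ?_
  · intro x hx
    rw [Finset.mem_coe, Finset.mem_filter] at hx ⊢
    obtain ⟨h2, h3⟩ := hx
    rw [mem_PP] at h2 ⊢
    obtain ⟨a1, a2, a3, a4⟩ := h2
    exact ⟨⟨a2, a1, a3.symm, rel_symm a4⟩, h3⟩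
  · intro x _ y _ h
    simp only [Prod.mk.injEq] at h
    exact Prod.ext h.2 h.1

/-- the bound for the number of pairs -/
theorem card_PP_le (q : ZI) (hq : q ≠ 0) (V : Subgroup (RQ q)ˣ) (Pr : Finset ZI)
    (hp : ∀ a ∈ Pr, Prime a) (hdvd : ∀ a ∈ Pr, ∀ b ∈ Pr, a ∣ b → a = b) (A : ℕ)
    (hA : ∀ a ∈ Pr, nrm a ≤ A) (j : ℕ) (hj : 1 ≤ j) :
    ((PP V Pr).card : ℝ) ≤ 64 * (j : ℝ) ^ 2 + 2 * (j : ℝ) ^ 2 *
      (33 * (Nat.card V : ℝ) * (1 + 32 * ((A : ℝ) ^ j) ^ 2 / (nrm q : ℝ))) ^ (1 / (j : ℝ)) := by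
  classical
  set P := PP V Pr with hPdef
  have hj0 : (0 : ℝ) < j := by exact_mod_cast hj
  set X : ℝ := 33 * (Nat.card V : ℝ) * (1 + 32 * ((A : ℝ) ^ j) ^ 2 / (nrm q : ℝ)) with hX
  have hX0 : 0 ≤ X := by positivity
  set D := Nat.sqrt P.card with hD
  by_cases hbig : (P.card : ℝ) ≤ 64 * (j : ℝ) ^ 2
  · have : 0 ≤ 2 * (j : ℝ) ^ 2 * X ^ (1 / (j : ℝ)) := by positivity
    linarith
  rw [not_le] at hbig
  have hDs : (D : ℝ) ^ 2 ≤ P.card := by
    have := Nat.sqrt_le' P.card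
    exact_mod_cast this
  have hD4 : 4 * (j : ℝ) * D ≤ P.card / 2 := by
    by_contra hcon
    rw [not_le] at hcon
    have h1 : (P.card : ℝ) < 8 * j * D := by linarith
    have h2 : (P.card : ℝ) ^ 2 < (8 * j * D) ^ 2 :=
      pow_lt_pow_left₀ h1 (Nat.cast_nonneg _) (by norm_num)
    have h3 : (8 * (j : ℝ) * D) ^ 2 ≤ 64 * (j : ℝ) ^ 2 * P.card := by
      have : (8 * (j : ℝ) * D) ^ 2 = 64 * (j : ℝ) ^ 2 * (D : ℝ) ^ 2 := by ring
      rw [this]
      exact mul_le_mul_of_nonneg_left hDs (by positivity)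
    have h4 : (P.card : ℝ) * P.card < 64 * (j : ℝ) ^ 2 * P.card := by
      rw [← sq]; linarith
    have hc : (0 : ℝ) < P.card := by
      have : 0 ≤ 64 * (j : ℝ) ^ 2 := by positivity
      linarith
    have := lt_of_mul_lt_mul_right h4 hc.le
    linarith
  have hlow := card_Tup_lower P (fun p h => (mem_PP.1 h).2.2.1) D
    (fun e => (degree_le V Pr e).1) (fun e => (degree_le V Pr e).2) j j le_rfl
  have hupp := card_Tup_upper q hq V Pr hp hdvd A hA P
    (fun p h => ⟨(mem_PP.1 h).1, (mem_PP.1 h).2.1, (mem_PP.1 h).2.2.2⟩) j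
  have h1 := hlow.trans hupp
  have hle : 4 * j * D ≤ P.card := by
    have h2 : 4 * (j : ℝ) * D ≤ P.card := by
      have : (0 : ℝ) ≤ P.card := Nat.cast_nonneg _
      linarith
    exact_mod_cast h2
  have h2 : (((P.card - 4 * j * D : ℕ) : ℝ)) ^ j ≤ ((j : ℝ) ^ j * (j : ℝ) ^ j) * X := by
    have h3 : (((P.card - 4 * j * D : ℕ) : ℝ)) ^ j ≤ (((j ^ j * j ^ j) *
      (Nat.card V * (33 * (8 * (4 * (A ^ j) ^ 2 / nrm q) + 1))) : ℕ) : ℝ) := by exact_mod_cast h1
    refine h3.trans ?_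
    push_cast
    refine mul_le_mul_of_nonneg_left ?_ (by positivity)
    rw [hX]
    have h4 : (((4 * (A ^ j) ^ 2 / nrm q : ℕ)) : ℝ) ≤ 4 * ((A : ℝ) ^ j) ^ 2 / (nrm q : ℝ) := by
      refine Nat.cast_div_le.trans ?_
      push_cast
      exact le_rfl
    calc (Nat.card V : ℝ) * (33 * (8 * (((4 * (A ^ j) ^ 2 / nrm q : ℕ)) : ℝ) + 1)) ≤
        (Nat.card V : ℝ) * (33 * (8 * (4 * ((A : ℝ) ^ j) ^ 2 / (nrm q : ℝ)) + 1)) := by gcongr
      _ = _ := by ring
  have h3 : ((P.card : ℝ) / 2) ^ j ≤ ((j : ℝ) ^ 2) ^ j * X := by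
    have h4 : (P.card : ℝ) / 2 ≤ ((P.card - 4 * j * D : ℕ) : ℝ) := by
      rw [Nat.cast_sub hle]
      push_cast
      linarith
    calc ((P.card : ℝ) / 2) ^ j ≤ (((P.card - 4 * j * D : ℕ) : ℝ)) ^ j :=
          pow_le_pow_left₀ (by positivity) h4 j
      _ ≤ ((j : ℝ) ^ j * (j : ℝ) ^ j) * X := h2
      _ = ((j : ℝ) ^ 2) ^ j * X := by ring
  have h4 : (P.card : ℝ) / 2 ≤ (j : ℝ) ^ 2 * X ^ (1 / (j : ℝ)) := by
    have h5 : ((j : ℝ) ^ 2 * X ^ (1 / (j : ℝ))) ^ j = ((j : ℝ) ^ 2) ^ j * X := by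
      rw [mul_pow, ← Real.rpow_natCast (X ^ (1 / (j : ℝ))) j, ← Real.rpow_mul hX0,
        one_div_mul_cancel hj0.ne', Real.rpow_one]
    rw [← h5] at h3
    exact (pow_le_pow_iff_left₀ (by positivity) (by positivity) (by omega)).1 h3
  have h5 : 0 ≤ 64 * (j : ℝ) ^ 2 := by positivity
  linarith

end Pool.Agent.Y693.AB
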