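import Pool.Agent.Y693.AB.Cnt
import Pool.Agent.Y693.AB.Tup
import Pool.Agent.W164.RC.Euler2

/-!
Project AB (helper693), part 5: the family of Hecke characters of an abelian extension of `ℚ(i)`.
-/

set_option autoImplicit false

open Complex
open H385 (ZI RQ im1 chiZ FQs phiQ nrm)
open Pool.Agent.H304R2.EC.A1 (prim prim_one prim_mul exists_prim norm_def' re_mul' im_mul')
open Pool.Agent.W164.RC (two2 prim_pow prim_unit sum_FQ fz fz_dvd unit_norm card_units_img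
  prim_iff_dvd)

namespace Pool.Agent.Y693.AB

/-- the classes of primary elements -/
def PrimCl (q : ZI) (u : (RQ q)ˣ) : Prop :=
  ∃ a : ZI, prim a ∧ (u : RQ q) = Ideal.Quotient.mk (Ideal.span {q}) a

theorem coprime_of_unit {q : ZI} {a : ZI} {u : (RQ q)ˣ}
    (hu : (u : RQ q) = Ideal.Quotient.mk (Ideal.span {q}) a) : IsCoprime a q := by
  obtain ⟨w, hw⟩ := Ideal.Quotient.mk_surjective ((u⁻¹ : (RQ q)ˣ) : RQ q)
  have h3 : (u : RQ q) * ((u⁻¹ : (RQ q)ˣ) : RQ q) = 1 := u.mul_inv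
  rw [hu, ← hw, ← map_mul, ← map_one (Ideal.Quotient.mk (Ideal.span {q})), Ideal.Quotient.eq,
    Ideal.mem_span_singleton] at h3
  obtain ⟨c, hc⟩ := h3
  exact ⟨w, -c, by linear_combination hc⟩

theorem primCl_one (q : ZI) : PrimCl q 1 := ⟨1, prim_one, by simp⟩

theorem primCl_mul {q : ZI} {u v : (RQ q)ˣ} (hu : PrimCl q u) (hv : PrimCl q v) :
    PrimCl q (u * v) := by
  obtain ⟨a, ha, h1⟩ := hu
  obtain ⟨b, hb, h2⟩ := hv
  exact ⟨a * b, prim_mul ha hb, by rw [Units.val_mul, h1, h2, map_mul]⟩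

theorem primCl_inv {q : ZI} (hq : q ≠ 0) {u : (RQ q)ˣ} (hu : PrimCl q u) : PrimCl q u⁻¹ := by
  have hfq := H385.he1_finite hq
  have hfu : Finite (RQ q)ˣ := inferInstance
  obtain ⟨a, ha, h1⟩ := hu
  have h2 : u⁻¹ = u ^ (orderOf u - 1) := by
    rw [inv_eq_iff_mul_eq_one, ← pow_succ', Nat.sub_add_cancel (orderOf_pos u), pow_orderOf_eq_one]
  refine ⟨a ^ (orderOf u - 1), prim_pow ha _, ?_⟩
  rw [h2, Units.val_pow_eq_pow_val, h1, map_pow]

/-- the primary classes in `V` -/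
def U1 {q : ZI} (hq : q ≠ 0) (V : Subgroup (RQ q)ˣ) : Subgroup (RQ q)ˣ where
  carrier := {u | u ∈ V ∧ PrimCl q u}
  mul_mem' := fun h h' => ⟨V.mul_mem h.1 h'.1, primCl_mul h.2 h'.2⟩
  one_mem' := ⟨V.one_mem, primCl_one q⟩
  inv_mem' := fun h => ⟨V.inv_mem h.1, primCl_inv hq h.2⟩

theorem mem_U1 {q : ZI} (hq : q ≠ 0) (V : Subgroup (RQ q)ˣ) (u : (RQ q)ˣ) :
    u ∈ U1 hq V ↔ u ∈ V ∧ PrimCl q u := Iff.rfl

open Classical in
/-- the characters `χ` with `χ(i) = -i` which are trivial on the primary classes of `V` -/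
noncomputable def FU (q : ZI) (V : Subgroup (RQ q)ˣ) : Finset (MulChar (RQ q) ℂ) :=
  (FQs q).filter (fun χ => ∀ u ∈ V, PrimCl q u → χ (u : RQ q) = 1)

theorem mem_FU {q : ZI} {V : Subgroup (RQ q)ˣ} {χ : MulChar (RQ q) ℂ} :
    χ ∈ FU q V ↔ χ ∈ FQs q ∧ ∀ u ∈ V, PrimCl q u → χ (u : RQ q) = 1 := by
  classical
  unfold FU
  rw [Finset.mem_filter]

theorem sum_FQ_unit {q : ZI} (hq : q ≠ 0) (h2 : two2 ∣ q) {w : (RQ q)ˣ} (hw : PrimCl q w) :
    ∑ χ ∈ FQs q, χ (w : RQ q) = open Classical in if w = 1 then (phiQ q : ℂ) / 4 else 0 := by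
  classical
  obtain ⟨a, ha, h1⟩ := hw
  have hc := coprime_of_unit h1
  have h := sum_FQ hq h2 ha hc (fz q a) (fz_dvd q a) 1
  have e1 : ∀ χ : MulChar (RQ q) ℂ, chiZ q χ (a ^ 1) = χ (w : RQ q) := by
    intro χ
    rw [pow_one, h1]
    rfl
  simp_rw [e1] at h
  rw [h]
  have e2 : fz q a ∣ 1 ↔ w = 1 := by
    rw [← fz_dvd, pow_one, ← Ideal.mem_span_singleton, ← Ideal.Quotient.eq, ← h1, map_one]
    constructor
    · intro h
      exact Units.ext h
    · intro h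
      rw [h]; rfl
  simp only [e2]

theorem sum_U1 {q : ZI} (hq : q ≠ 0) (V : Subgroup (RQ q)ˣ) [Fintype (U1 hq V)]
    {χ : MulChar (RQ q) ℂ} (hχ : χ ∈ FQs q) :
    ∑ u : U1 hq V, χ (((u : (RQ q)ˣ)) : RQ q) =
      open Classical in if χ ∈ FU q V then (Nat.card (U1 hq V) : ℂ) else 0 := by
  classical
  split_ifs with h
  · rw [mem_FU] at h
    rw [Finset.sum_congr rfl (g := fun _ => (1 : ℂ))]
    · rw [Finset.sum_const, Finset.card_univ, nsmul_eq_mul, mul_one, Nat.card_eq_fintype_card]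
    · intro u _
      exact h.2 u u.2.1 u.2.2
  · have h3 : ∃ w : U1 hq V, χ (((w : (RQ q)ˣ)) : RQ q) ≠ 1 := by
      by_contra hcon
      apply h
      rw [mem_FU]
      refine ⟨hχ, fun u hu hu' => ?_⟩
      by_contra h4
      exact hcon ⟨⟨u, hu, hu'⟩, h4⟩
    obtain ⟨w, hw⟩ := h3
    refine eq_zero_of_mul_eq_self_left hw ?_
    rw [Finset.mul_sum]
    refine Fintype.sum_bijective (fun u => w * u) (Group.mulLeft_bijective w) _ _ fun u => ?_
    rw [Subgroup.coe_mul, Units.val_mul, map_mul]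

theorem sum_FU {q : ZI} (hq : q ≠ 0) (h2 : two2 ∣ q) (V : Subgroup (RQ q)ˣ) {w : (RQ q)ˣ}
    (hw : PrimCl q w) : (Nat.card (U1 hq V) : ℂ) * ∑ χ ∈ FU q V, χ (w : RQ q) =
      open Classical in if w ∈ V then (phiQ q : ℂ) / 4 else 0 := by
  classical
  have hfq := H385.he1_finite hq
  have hfu : Finite (RQ q)ˣ := inferInstance
  have hfU : Finite (U1 hq V) := inferInstance
  let _ : Fintype (U1 hq V) := Fintype.ofFinite _
  have h1 : (Nat.card (U1 hq V) : ℂ) * ∑ χ ∈ FU q V, χ (w : RQ q) =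
      ∑ χ ∈ FQs q, χ (w : RQ q) * ∑ u : U1 hq V, χ (((u : (RQ q)ˣ)) : RQ q) := by
    have e : ∀ χ ∈ FQs q, χ (w : RQ q) * ∑ u : U1 hq V, χ (((u : (RQ q)ˣ)) : RQ q) =
        if χ ∈ FU q V then (Nat.card (U1 hq V) : ℂ) * χ (w : RQ q) else 0 := by
      intro χ hχ
      rw [sum_U1 hq V hχ]
      split_ifs
      · ring
      · ring
    rw [Finset.sum_congr rfl e, ← Finset.sum_filter, Finset.mul_sum]
    apply Finset.sum_congr _ (fun _ _ => rfl)
    ext χ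
    rw [Finset.mem_filter]
    constructor
    · intro h
      exact ⟨(mem_FU.1 h).1, h⟩
    · intro h
      exact h.2
  rw [h1]
  have h3 : ∑ χ ∈ FQs q, χ (w : RQ q) * ∑ u : U1 hq V, χ (((u : (RQ q)ˣ)) : RQ q) =
      ∑ u : U1 hq V, ∑ χ ∈ FQs q, χ ((w * (u : (RQ q)ˣ) : (RQ q)ˣ) : RQ q) := by
    rw [Finset.sum_comm]
    refine Finset.sum_congr rfl fun χ _ => ?_
    rw [Finset.mul_sum]
    refine Finset.sum_congr rfl fun u _ => ?_
    rw [Units.val_mul, map_mul]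
  rw [h3]
  have h4 : ∀ u : U1 hq V, ∑ χ ∈ FQs q, χ ((w * (u : (RQ q)ˣ) : (RQ q)ˣ) : RQ q) =
      if w * (u : (RQ q)ˣ) = 1 then (phiQ q : ℂ) / 4 else 0 := fun u =>
    sum_FQ_unit hq h2 (primCl_mul hw u.2.2)
  simp_rw [h4]
  split_ifs with hV
  · have hm : w⁻¹ ∈ U1 hq V := (U1 hq V).inv_mem ⟨hV, hw⟩
    rw [Finset.sum_eq_single (⟨w⁻¹, hm⟩ : U1 hq V)]
    · rw [if_pos (mul_inv_cancel w)]
    · intro u _ hu
      rw [if_neg]
      intro h
      apply hu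
      apply Subtype.ext
      exact (eq_inv_of_mul_eq_one_right h)
    · intro h
      exact absurd (Finset.mem_univ _) h
  · apply Finset.sum_eq_zero
    intro u _
    rw [if_neg]
    intro h
    apply hV
    have h5 : w = (u : (RQ q)ˣ)⁻¹ := eq_inv_of_mul_eq_one_left h
    rw [h5]
    exact V.inv_mem u.2.1

theorem card_FU_U1 {q : ZI} (hq : q ≠ 0) (h2 : two2 ∣ q) (V : Subgroup (RQ q)ˣ) :
    4 * (Nat.card (U1 hq V) * (FU q V).card) = phiQ q := by
  classical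
  have h := sum_FU hq h2 V (w := 1) (primCl_one q)
  rw [if_pos V.one_mem] at h
  simp only [Units.val_one, map_one, Finset.sum_const, nsmul_eq_mul, mul_one] at h
  have h3 : (4 : ℂ) * ((Nat.card (U1 hq V) : ℂ) * ((FU q V).card : ℂ)) = (phiQ q : ℂ) := by
    rw [h]; ring
  exact_mod_cast h3

/-- orthogonality -/
theorem orth_FU {q : ZI} (hq : q ≠ 0) (h2 : two2 ∣ q) (V : Subgroup (RQ q)ˣ) {w : (RQ q)ˣ}
    (hw : PrimCl q w) : ∑ χ ∈ FU q V, χ (w : RQ q) =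
      open Classical in if w ∈ V then ((FU q V).card : ℂ) else 0 := by
  classical
  have h := sum_FU hq h2 V hw
  have h1 := card_FU_U1 hq h2 V
  have hfq := H385.he1_finite hq
  have hfu : Finite (RQ q)ˣ := inferInstance
  have hU : (Nat.card (U1 hq V) : ℂ) ≠ 0 := by
    have : Nat.card (U1 hq V) ≠ 0 := Nat.card_pos.ne'
    exact_mod_cast this
  have h3 : (phiQ q : ℂ) = 4 * ((Nat.card (U1 hq V) : ℂ) * ((FU q V).card : ℂ)) := by
    exact_mod_cast h1.symm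
  apply mul_left_cancel₀ hU
  rw [h, h3]
  split_ifs
  · ring
  · ring

theorem odd_of_coprime {q : ZI} (h2 : two2 ∣ q) {a : ZI} (ha : IsCoprime a q) :
    a.norm % 2 = 1 := by
  by_contra hcon
  have h3 : a.norm % 2 = 0 := by omega
  rw [norm_def'] at h3
  have h4 : (a.re + a.im) % 2 = 0 := by
    have e : (a.re ^ 2 + a.im ^ 2) = (a.re + a.im) * (a.re + a.im) - 2 * (a.re * a.im) := by ring
    rw [e] at h3
    have h5 : ((a.re + a.im) * (a.re + a.im)) % 2 = 0 := by omega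
    rcases Int.emod_two_eq_zero_or_one (a.re + a.im) with h6 | h6
    · exact h6
    · rw [Int.mul_emod, h6] at h5
      norm_num at h5
  have h5 : (⟨1, 1⟩ : ZI) ∣ a := by
    refine ⟨⟨(a.re + a.im) / 2, (a.im - a.re) / 2⟩, ?_⟩
    ext
    · rw [re_mul']
      simp only
      omega
    · rw [im_mul']
      simp only
      omega
  have h6 : (⟨1, 1⟩ : ZI) ∣ q := (show (⟨1, 1⟩ : ZI) ∣ two2 from ⟨2, by decide⟩).trans h2
  have h7 := ha.isUnit_of_dvd' h5 h6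
  have h8 : (⟨1, 1⟩ : ZI).norm.natAbs = 1 := Zsqrtd.norm_eq_one_iff.2 h7
  revert h8
  decide

/-- the classes of the units -/
noncomputable def NU (q : ZI) : Subgroup (RQ q)ˣ :=
  (Units.map (Ideal.Quotient.mk (Ideal.span {q})).toMonoidHom).range

theorem mem_NU {q : ZI} (u : (RQ q)ˣ) : u ∈ NU q ↔
    ∃ e : ZIˣ, (u : RQ q) = Ideal.Quotient.mk (Ideal.span {q}) (e : ZI) := by
  unfold NU
  rw [MonoidHom.mem_range]
  constructor
  · rintro ⟨e, rfl⟩
    exact ⟨e, rfl⟩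
  · rintro ⟨e, he⟩
    exact ⟨e, Units.ext he.symm⟩

/-- the number of elements of `V` -/
theorem card_V {q : ZI} (hq : q ≠ 0) (h2 : two2 ∣ q) (V : Subgroup (RQ q)ˣ) (hV : NU q ≤ V) :
    Nat.card V = 4 * Nat.card (U1 hq V) := by
  have h1 : Nat.card (NU q) = 4 := card_units_img hq h2 (NU q) mem_NU
  rw [← h1, ← Nat.card_prod]
  symm
  apply Nat.card_congr
  refine Equiv.ofBijective (fun x : NU q × U1 hq V =>
    (⟨(x.1 : (RQ q)ˣ) * (x.2 : (RQ q)ˣ), V.mul_mem (hV x.1.2) x.2.2.1⟩ : V)) ⟨?_, ?_⟩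
  · rintro ⟨n, u⟩ ⟨n', u'⟩ h
    have h3 : (n : (RQ q)ˣ) * (u : (RQ q)ˣ) = (n' : (RQ q)ˣ) * (u' : (RQ q)ˣ) :=
      congrArg (fun x : V => (x : (RQ q)ˣ)) h
    have h4 : (n' : (RQ q)ˣ)⁻¹ * (n : (RQ q)ˣ) = (u' : (RQ q)ˣ) * (u : (RQ q)ˣ)⁻¹ := by
      rw [inv_mul_eq_iff_eq_mul, ← mul_assoc, ← h3, mul_inv_cancel_right]
    have h5 : (n' : (RQ q)ˣ)⁻¹ * (n : (RQ q)ˣ) ∈ NU q := (NU q).mul_mem ((NU q).inv_mem n'.2) n.2
    have h6 : (n' : (RQ q)ˣ)⁻¹ * (n : (RQ q)ˣ) ∈ U1 hq V := by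
      rw [h4]
      exact (U1 hq V).mul_mem u'.2 ((U1 hq V).inv_mem u.2)
    rw [mem_NU] at h5
    obtain ⟨e, he⟩ := h5
    obtain ⟨-, a, ha, hb⟩ := h6
    rw [he, Ideal.Quotient.eq, Ideal.mem_span_singleton] at hb
    have h7 : (e : ZI) = 1 := prim_unit h2 ha (unit_norm e) (by
      obtain ⟨c, hc⟩ := hb
      exact ⟨-c, by linear_combination -hc⟩)
    have h8 : (n' : (RQ q)ˣ)⁻¹ * (n : (RQ q)ˣ) = 1 := by
      apply Units.ext
      rw [he, h7, map_one]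
      rfl
    have h9 : (n : (RQ q)ˣ) = n' := by
      rw [inv_mul_eq_one] at h8
      exact h8.symm
    have h10 : (u : (RQ q)ˣ) = u' := by
      rw [h9] at h3
      exact mul_left_cancel h3
    exact Prod.ext (Subtype.ext h9) (Subtype.ext h10)
  · rintro ⟨v, hv⟩
    obtain ⟨a, ha⟩ := Ideal.Quotient.mk_surjective (v : RQ q)
    have hc := coprime_of_unit ha.symm
    obtain ⟨e, e', hee, hp⟩ := exists_prim a (odd_of_coprime h2 hc)
    have hu1 : IsUnit (Ideal.Quotient.mk (Ideal.span {q}) e') :=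
      IsUnit.of_mul_eq_one (Ideal.Quotient.mk (Ideal.span {q}) e) (by
        rw [← map_mul, mul_comm e' e, hee, map_one])
    have hu2 : IsUnit (Ideal.Quotient.mk (Ideal.span {q}) (e * a)) := by
      rw [map_mul]
      refine IsUnit.mul ?_ (by rw [ha]; exact v.isUnit)
      exact IsUnit.of_mul_eq_one (Ideal.Quotient.mk (Ideal.span {q}) e') (by
        rw [← map_mul, hee, map_one])
    obtain ⟨n, hn⟩ := hu1
    obtain ⟨u, hu⟩ := hu2
    have hnN : n ∈ NU q := by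
      rw [mem_NU]
      exact ⟨⟨e', e, by rw [mul_comm]; exact hee, hee⟩, hn⟩
    have hprod : n * u = v := by
      apply Units.ext
      rw [Units.val_mul, hn, hu, ← map_mul, ← ha]
      congr 1
      linear_combination a * hee
    have huV : u ∈ V := by
      have : u = n⁻¹ * v := by rw [← hprod, inv_mul_cancel_left]
      rw [this]
      exact V.mul_mem (V.inv_mem (hV hnN)) hv
    exact ⟨(⟨n, hnN⟩, ⟨u, huV, e * a, hp, hu⟩), Subtype.ext hprod⟩

/-- the number of characters in the family -/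
theorem card_FU {q : ZI} (hq : q ≠ 0) (h2 : two2 ∣ q) (V : Subgroup (RQ q)ˣ) (hV : NU q ≤ V) :
    Nat.card V * (FU q V).card = phiQ q := by
  rw [card_V hq h2 V hV, ← card_FU_U1 hq h2 V]
  ring

end Pool.Agent.Y693.AB
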