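import Pool.Agent.H385R2.FamAbsD

/-!
Project AB (helper693): the abstract family theorem with individual density terms
(variant of `Pool.Agent.H385R2.FamAbsD`).
-/

set_option autoImplicit false
set_option maxHeartbeats 4000000

open Complex Filter Topology Set MeasureTheory
open H370 (zset mult NN Nd Ns)
open H385

namespace Pool.Agent.Y693.AB

lemma fa_fixed_u_V (d A : ℝ) (hd : 1 ≤ d) (hA : 1 ≤ A) :
    ∃ K : ℝ, 0 < K ∧ ∀ {ι : Type} (s : Finset ι) (ω : ι → ℝ) (Q : ι → ℝ) (F : ι → ℂ → ℂ)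
      (a : ι → ℕ → ℂ) (T κ Λ Lm y1 y2 : ℝ) (Y : ℝ → ℝ),
      (∀ i ∈ s, 0 ≤ ω i ∧ 1 ≤ Q i ∧ GoodD d A (Q i) (F i) (a i) ∧ Real.log (Q i * T) ≤ Lm) →
      3 ≤ κ → 8 * κ ≤ T → T ≤ Real.exp (κ ^ 2 / 2) → 1 ≤ Λ → 1 ≤ Lm →
      Lm ^ 2 * Real.exp (Λ - κ ^ 2 / 2) ≤ Real.exp (-Λ) → 0 ≤ y1 → 0 ≤ y2 →
      (∀ u ∈ Set.Icc 0 Λ,
        ∫ t : ℝ, ∑ i ∈ s, ω i *
          ‖∑' n : ℕ, a i n * ((Real.sqrt n : ℂ)⁻¹ * bt T u t (Real.log n))‖ ^ 2 ≤ Y u) →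
      (∀ u ∈ Set.Icc 0 Λ, Y u ≤ T * (y1 * (u + 1) + y2)) →
      ∃ V1 V2 : ι → ℝ, (∀ i ∈ s, (zset (F i) (V1 i) (V2 i)).Finite ∧
          T - 3 * κ ≤ V1 i ∧ V1 i ≤ T - 3 * κ + 1 ∧
          2 * T + 3 * κ - 1 ≤ V2 i ∧ V2 i ≤ 2 * T + 3 * κ) ∧
        ∀ u ∈ Set.Icc 0 Λ, ∑ i ∈ s, ω i * ∫ t : ℝ, ‖BB (F i) (V1 i) (V2 i) T u t‖ ^ 2 ≤
          (∑ i ∈ s, ω i * (d * Real.log (Q i * T)) ^ 2) * (T / (2 * Real.pi) * Real.exp (-u ^ 2)) + Y u +
          K * ((∑ i ∈ s, ω i) * ((d * Lm) ^ 2 * κ) + (∑ i ∈ s, ω i) * ((d * Lm) * T) +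
            Real.sqrt (∑ i ∈ s, ω i) * (d * Lm) * T * (Real.sqrt y1 + Real.sqrt y2)) *
              Real.exp (-u / 2) := by
  obtain ⟨C1, hC1, hA1⟩ := A1_formula_D d A hd hA
  obtain ⟨C3, hC3, hwt⟩ := wt_sq_int
  obtain ⟨C4, hC4, hbt⟩ := bt_sq_int
  obtain ⟨C5, hC5, hzc⟩ := zcount_long_D d A hd hA
  refine ⟨Real.exp 1 * C4 + 2 * ((1 + C4) * Real.exp 1 + (1 + C4) * (4 * C1) * (1 + C3) +
    4 * C1 * (1 + C3)) + (4 * C1) ^ 2 * (1 + C3) ^ 2 + 100 * (6 * C5) ^ 2 , by positivity, ?_⟩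
  intro ι s ω Q F a T κ Λ Lm0 y1 y2 Y hs hκ hT hTκ hΛ hLm0 hLmΛ hy1 hy2 hY hYb
  obtain ⟨Lm, hLmd⟩ : ∃ L, L = d * Lm0 := ⟨_, rfl⟩
  rw [← hLmd]
  have hLm : 1 ≤ Lm := by rw [hLmd]; exact NL.a1 hd hLm0
  have hd0 : 0 ≤ d := by linarith
  have hT0 : 0 < T := by linarith
  have hT1 : 1 ≤ T := by linarith
  have hmain : ∀ i : ι, ∃ V : ℝ × ℝ, i ∈ s → T - 3 * κ ≤ V.1 ∧ V.1 ≤ T - 3 * κ + 1 ∧
      2 * T + 3 * κ - 1 ≤ V.2 ∧ V.2 ≤ 2 * T + 3 * κ ∧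
      ∀ u m : ℝ, 0 ≤ u → V.1 + κ ≤ m → m ≤ V.2 - κ →
        ‖A1 (F i) V.1 V.2 u m - (1 / (2 * Real.sqrt Real.pi) : ℝ) *
          (((d * Real.log (Q i * T) : ℝ) : ℂ) * cexp (I * m * u) * Real.exp (-u ^ 2 / 4)
            - PP1 (a i) u m)‖ ≤
        C1 * (Real.exp (-u) + (Real.log (Q i * T)) ^ 2 * Real.exp (u - κ ^ 2 / 2)) := by
    intro i
    by_cases hi : i ∈ s
    · obtain ⟨-, hQ, hg, -⟩ := hs i hi
      obtain ⟨V1, V2, h1, h2, h3, h4, h5⟩ := hA1 (Q i) (F i) (a i) hQ hg T κ hκ hT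
      exact ⟨(V1, V2), fun _ => ⟨h1, h2, h3, h4, h5⟩⟩
    · exact ⟨0, fun h => absurd h hi⟩
  choose V hV using hmain
  have hfin : ∀ i ∈ s, (zset (F i) (V i).1 (V i).2).Finite := by
    intro i hi
    obtain ⟨-, hQ, hg, -⟩ := hs i hi
    obtain ⟨h1, h2, h3, h4, h5⟩ := hV i hi
    exact zset_finite_D hA hQ hg _ _ (by linarith)
  refine ⟨fun i => (V i).1, fun i => (V i).2, fun i hi => ?_, ?_⟩
  · obtain ⟨h1, h2, h3, h4, h5⟩ := hV i hi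
    exact ⟨hfin i hi, h1, h2, h3, h4⟩
  intro u hu
  obtain ⟨hu0, huΛ⟩ := hu
  set W := ∑ i ∈ s, ω i with hW
  have hW0 : 0 ≤ W := Finset.sum_nonneg fun i hi => (hs i hi).1
  have hlogpos : ∀ i ∈ s, 0 ≤ Real.log (Q i * T) := by
    intro i hi
    apply Real.log_nonneg
    exact NL.a1 (hs i hi).2.1 hT1
  -- the three functions
  set f : ι → ℝ → ℝ := fun i t => (d * Real.log (Q i * T)) * ‖bt T u t 0‖ with hf
  set g : ι → ℝ → ℝ := fun i t => ‖Pf (a i) T u t‖ with hg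
  set h : ι → ℝ → ℝ := fun _ t => (4 * C1 * Real.exp (-u)) * wt T t with hh
  have hfc : ∀ i ∈ s, Continuous (f i) := fun i _ => continuous_const.mul (fa_bt_cont T u 0).norm
  have hgc : ∀ i ∈ s, Continuous (g i) := fun i hi =>
    (fa_Pf_cont_D hd0 (hs i hi).2.2.1.ha T u hT0.le).norm
  have hhc : ∀ i ∈ s, Continuous (h i) := fun i _ => continuous_const.mul (wt_cont T)
  have hbt0 := hbt T κ u 0 (by linarith) hT1
    (hTκ.trans (Real.exp_le_exp.mpr (NL.a2 κ)))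
  have hf2 : ∀ i ∈ s, Integrable (fun t => f i t ^ 2) := by
    intro i _
    simp only [hf, mul_pow]
    exact hbt0.1.const_mul _
  have hg2 : ∀ i ∈ s, Integrable (fun t => g i t ^ 2) := fun i hi =>
    fa_Pf_int_D hd0 (hs i hi).2.2.1.ha T u hT0.le
  have hh2 : ∀ i ∈ s, Integrable (fun t => h i t ^ 2) := by
    intro i _
    simp only [hh, mul_pow]
    exact (hwt T hT0.le).1.const_mul _
  set S2 := ∑ i ∈ s, ω i * (d * Real.log (Q i * T)) ^ 2 with hS2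
  have hS20 : 0 ≤ S2 := Finset.sum_nonneg fun i hi => mul_nonneg (hs i hi).1 (sq_nonneg _)
  have hS2W : S2 ≤ W * Lm ^ 2 := by
    rw [hS2, hW, Finset.sum_mul]
    refine Finset.sum_le_sum fun i hi => ?_
    refine mul_le_mul_of_nonneg_left ?_ (hs i hi).1
    refine pow_le_pow_left₀ (mul_nonneg hd0 (hlogpos i hi)) ?_ 2
    rw [hLmd]
    exact mul_le_mul_of_nonneg_left (hs i hi).2.2.2 hd0
  set X := S2 * (T / (2 * Real.pi) * Real.exp (-u ^ 2) + C4 * κ * Real.exp (-u ^ 2 / 2))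
    with hXdef
  set Z := W * (4 * C1 * Real.exp (-u)) ^ 2 * (T + C3) with hZdef
  have hX : ∑ i ∈ s, ω i * ∫ t, f i t ^ 2 ≤ X := by
    have e0 : ∀ i ∈ s, ω i * ∫ t, f i t ^ 2 =
        ω i * (d * Real.log (Q i * T)) ^ 2 * ∫ t, ‖bt T u t 0‖ ^ 2 := by
      intro i _
      have e1 : (fun t => f i t ^ 2) =
          fun t => (d * Real.log (Q i * T)) ^ 2 * ‖bt T u t 0‖ ^ 2 := by
        funext t
        rw [hf]
        ring
      rw [e1, integral_const_mul]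
      ring
    rw [Finset.sum_congr rfl e0, ← Finset.sum_mul, ← hS2, hXdef]
    have := hbt0.2
    rw [sub_zero] at this
    exact mul_le_mul_of_nonneg_left this hS20
  have hY1 : ∑ i ∈ s, ω i * ∫ t, g i t ^ 2 ≤ Y u := by
    refine le_trans (le_of_eq ?_) (hY u ⟨hu0, huΛ⟩)
    rw [integral_finsetSum]
    · apply Finset.sum_congr rfl
      intro i _
      rw [integral_const_mul]
      rfl
    · intro i hi
      exact (hg2 i hi).const_mul _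
  have hZ : ∑ i ∈ s, ω i * ∫ t, h i t ^ 2 ≤ Z := by
    simp only [hh, mul_pow]
    rw [integral_const_mul, ← Finset.sum_mul, ← hW, hZdef]
    have := (hwt T hT0.le).2
    rw [mul_assoc W]
    simp only [mul_pow]
    gcongr
  obtain ⟨hint, hmk⟩ := fa_mink s ω (fun i hi => (hs i hi).1) f g h hfc hgc hhc hf2 hg2 hh2
    hX hY1 hZ
  have hYu0 : 0 ≤ Y u := le_trans (Finset.sum_nonneg fun i hi =>
    mul_nonneg (hs i hi).1 (integral_nonneg fun t => sq_nonneg _)) hY1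
  -- each BB
  have hLmbig : Lm0 ^ 2 * Real.exp (u - κ ^ 2 / 2) ≤ Real.exp (-u) := by
    calc Lm0 ^ 2 * Real.exp (u - κ ^ 2 / 2) ≤ Lm0 ^ 2 * Real.exp (Λ - κ ^ 2 / 2) := by gcongr
      _ ≤ Real.exp (-Λ) := hLmΛ
      _ ≤ Real.exp (-u) := by gcongr
  have hBB : ∀ i ∈ s, ∫ t : ℝ, ‖BB (F i) (V i).1 (V i).2 T u t‖ ^ 2 ≤
      (∫ t, (f i t + g i t + h i t) ^ 2) + 100 * (6 * C5) ^ 2 * (T * Real.exp (-u)) := by
    intro i hi
    obtain ⟨h1, h2, h3, h4, h5⟩ := hV i hi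
    obtain ⟨hωi, hQ, hgd, hLi⟩ := hs i hi
    have hbbi := BB_int (F i) (V i).1 (V i).2 T (hfin i hi)
    rw [← integral_add_compl (measurableSet_Icc : MeasurableSet
      (Set.Icc (T - 3 * κ) (2 * T + 3 * κ))) (hbbi.1 u)]
    apply add_le_add
    · refine le_trans ?_ (setIntegral_le_integral (s := Set.Icc (T - 3 * κ) (2 * T + 3 * κ))
        (hint i hi) (Filter.Eventually.of_forall fun t => sq_nonneg _))
      apply setIntegral_mono_on (hbbi.1 u).integrableOn (hint i hi).integrableOn measurableSet_Icc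
      intro t ht
      apply pow_le_pow_left₀ (norm_nonneg _)
      have hE : ∀ m : ℝ, (V i).1 + κ ≤ m → m ≤ (V i).2 - κ →
          ‖A1 (F i) (V i).1 (V i).2 u m - (1 / (2 * Real.sqrt Real.pi) : ℝ) *
          (((d * Real.log (Q i * T) : ℝ) : ℂ) * cexp (I * m * u) * Real.exp (-u ^ 2 / 4)
            - PP1 (a i) u m)‖ ≤
          2 * C1 * Real.exp (-u) := by
        intro m hm1 hm2
        refine (h5 u m hu0 hm1 hm2).trans ?_
        have hsq : (Real.log (Q i * T)) ^ 2 ≤ Lm0 ^ 2 :=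
          pow_le_pow_left₀ (hlogpos i hi) hLi 2
        have : (Real.log (Q i * T)) ^ 2 * Real.exp (u - κ ^ 2 / 2) ≤ Real.exp (-u) :=
          (mul_le_mul_of_nonneg_right hsq (Real.exp_pos _).le).trans hLmbig
        exact NL.a3 hC1.le this
      have hb := BB_formula_D (F i) (a i) d hd0 hgd.ha (d * Real.log (Q i * T)) (V i).1 (V i).2 T κ u
        (2 * C1 * Real.exp (-u)) (hfin i hi) hκ hT h2 h3 hE t ht.1 ht.2
      have hb2 : ‖BB (F i) (V i).1 (V i).2 T u t‖ ≤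
          ‖((d * Real.log (Q i * T) : ℝ) : ℂ) * bt T u t 0 - Pf (a i) T u t‖ +
          2 * (2 * C1 * Real.exp (-u)) * wt T t := by
        have := norm_le_insert' (BB (F i) (V i).1 (V i).2 T u t)
          (((d * Real.log (Q i * T) : ℝ) : ℂ) * bt T u t 0 - Pf (a i) T u t)
        unfold Pf at *
        linarith
      have hb3 : ‖((d * Real.log (Q i * T) : ℝ) : ℂ) * bt T u t 0 - Pf (a i) T u t‖ ≤
          (d * Real.log (Q i * T)) * ‖bt T u t 0‖ + ‖Pf (a i) T u t‖ := by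
        refine (norm_sub_le _ _).trans ?_
        rw [norm_mul, Complex.norm_real, Real.norm_eq_abs,
          abs_of_nonneg (mul_nonneg hd0 (hlogpos i hi))]
      simp only [hf, hg, hh]
      linarith
    · refine (BB_far (F i) (V i).1 (V i).2 T κ u (hfin i hi) hT0.le (by linarith) hu0).trans ?_
      have hNN : (NN (F i) (V i).1 (V i).2 : ℝ) ≤ 6 * C5 * (T * Lm0) := by
        refine (hzc (Q i) (F i) (a i) hQ hgd (V i).1 (V i).2 (by linarith) (by linarith)).trans ?_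
        have e1 : (V i).2 - (V i).1 ≤ 2 * T := by linarith
        have e2 : Real.log (Q i * (V i).2) ≤ 3 * Lm0 := by
          have hQ0 : 0 < Q i := by linarith
          have e3 : Q i * (V i).2 ≤ 3 * (Q i * T) := by
            calc Q i * (V i).2 ≤ Q i * (3 * T) :=
                  mul_le_mul_of_nonneg_left (by linarith) hQ0.le
              _ = _ := by ring
          have e4 : Real.log (Q i * (V i).2) ≤ Real.log (3 * (Q i * T)) := by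
            apply Real.log_le_log _ e3
            apply mul_pos hQ0; linarith
          rw [Real.log_mul (x := 3) (y := Q i * T) (by norm_num) (by positivity)] at e4
          have e5 : Real.log 3 ≤ 2 := by
            have := Real.log_le_sub_one_of_pos (show (0:ℝ) < 3 by norm_num)
            linarith
          linarith
        have e6 : 0 ≤ Real.log (Q i * (V i).2) := by
          apply Real.log_nonneg
          have : (1 : ℝ) * 1 ≤ Q i * (V i).2 :=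
            mul_le_mul hQ (by linarith) (by norm_num) (by linarith)
          linarith
        have e7 : 0 ≤ (V i).2 - (V i).1 := by linarith
        calc C5 * ((V i).2 - (V i).1) * Real.log (Q i * (V i).2) ≤
            C5 * (2 * T) * (3 * Lm0) := by gcongr
          _ = _ := by ring
      have hNN2 : (NN (F i) (V i).1 (V i).2 : ℝ) ^ 2 ≤ (6 * C5 * (T * Lm0)) ^ 2 :=
        pow_le_pow_left₀ (by positivity) hNN 2
      calc 100 * (NN (F i) (V i).1 (V i).2 : ℝ) ^ 2 * Real.exp (u - κ ^ 2)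
          ≤ 100 * (6 * C5 * (T * Lm0)) ^ 2 * Real.exp (u - κ ^ 2) := by gcongr
        _ = 100 * (6 * C5) ^ 2 * (T * ((T * Real.exp (-(κ ^ 2 / 2))) *
            (Lm0 ^ 2 * Real.exp (u - κ ^ 2 / 2)))) := by
            have : Real.exp (u - κ ^ 2) = Real.exp (-(κ ^ 2 / 2)) * Real.exp (u - κ ^ 2 / 2) := by
              rw [← Real.exp_add]; congr 1; ring
            rw [this]; ring
        _ ≤ 100 * (6 * C5) ^ 2 * (T * (1 * Real.exp (-u))) := by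
            have : T * Real.exp (-(κ ^ 2 / 2)) ≤ 1 := by
              calc T * Real.exp (-(κ ^ 2 / 2)) ≤
                  Real.exp (κ ^ 2 / 2) * Real.exp (-(κ ^ 2 / 2)) := by gcongr
                _ = 1 := by rw [← Real.exp_add]; simp
            gcongr
        _ = _ := by ring
  have hsum : ∑ i ∈ s, ω i * ∫ t : ℝ, ‖BB (F i) (V i).1 (V i).2 T u t‖ ^ 2 ≤
      (∑ i ∈ s, ω i * ∫ t, (f i t + g i t + h i t) ^ 2) +
        W * (100 * (6 * C5) ^ 2 * (T * Real.exp (-u))) := by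
    rw [hW, Finset.sum_mul, ← Finset.sum_add_distrib]
    apply Finset.sum_le_sum
    intro i hi
    rw [← mul_add]
    exact mul_le_mul_of_nonneg_left (hBB i hi) (hs i hi).1
  -- square roots
  set E2 := Real.exp (-u / 2) with hE2
  have hE2p : 0 < E2 := Real.exp_pos _
  have heu : Real.exp (-u) ≤ E2 := by
    rw [hE2]; apply Real.exp_le_exp.mpr; linarith
  have heu1 : Real.exp (-u) ≤ 1 := by
    rw [Real.exp_le_one_iff]; linarith
  have sX : Real.sqrt X ≤ Real.sqrt W * Lm * Real.sqrt T * (1 + C4) * Real.exp (-u ^ 2 / 4) := by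
    rw [Real.sqrt_le_left (by positivity)]
    have e1 : (Real.sqrt W * Lm * Real.sqrt T * (1 + C4) * Real.exp (-u ^ 2 / 4)) ^ 2 =
        W * Lm ^ 2 * (T * (1 + C4) ^ 2 * Real.exp (-u ^ 2 / 2)) := by
      rw [mul_pow, mul_pow, mul_pow, mul_pow, Real.sq_sqrt hW0, Real.sq_sqrt hT0.le,
        ← Real.exp_nat_mul]
      have : ((2 : ℕ) : ℝ) * (-u ^ 2 / 4) = -u ^ 2 / 2 := by push_cast; ring
      rw [this]; ring
    rw [e1]
    have hXW : X ≤ W * Lm ^ 2 * (T / (2 * Real.pi) * Real.exp (-u ^ 2) +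
        C4 * κ * Real.exp (-u ^ 2 / 2)) := by
      rw [hXdef]
      refine mul_le_mul_of_nonneg_right hS2W ?_
      have : 0 ≤ κ := by linarith
      positivity
    refine hXW.trans ?_
    have e2 : Real.exp (-u ^ 2) ≤ Real.exp (-u ^ 2 / 2) := by
      exact Real.exp_le_exp.mpr (NL.a4 u)
    have e3 : T / (2 * Real.pi) ≤ T := by
      rw [div_le_iff₀ (by positivity)]
      exact NL.a5 hT0.le
    have e4 : κ ≤ T := by linarith
    have e5 : T / (2 * Real.pi) * Real.exp (-u ^ 2) + C4 * κ * Real.exp (-u ^ 2 / 2) ≤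
        T * (1 + C4) ^ 2 * Real.exp (-u ^ 2 / 2) := by
      calc T / (2 * Real.pi) * Real.exp (-u ^ 2) + C4 * κ * Real.exp (-u ^ 2 / 2) ≤
          T * Real.exp (-u ^ 2 / 2) + C4 * T * Real.exp (-u ^ 2 / 2) := by gcongr
        _ = T * (1 + C4) * Real.exp (-u ^ 2 / 2) := by ring
        _ ≤ T * (1 + C4) ^ 2 * Real.exp (-u ^ 2 / 2) := by
          have : (1 + C4) ≤ (1 + C4) ^ 2 := NL.a6 hC4.le
          gcongr
    gcongr
  have sY : Real.sqrt (Y u) ≤ Real.sqrt T * Real.sqrt (u + 1) * (Real.sqrt y1 + Real.sqrt y2) := by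
    rw [Real.sqrt_le_left (by positivity)]
    rw [mul_pow, mul_pow, Real.sq_sqrt hT0.le, Real.sq_sqrt (by linarith)]
    refine (hYb u ⟨hu0, huΛ⟩).trans ?_
    have e1 : (Real.sqrt y1 + Real.sqrt y2) ^ 2 ≥ y1 + y2 := by
      exact NL.a7 hy1 hy2
    calc T * (y1 * (u + 1) + y2) ≤ T * ((u + 1) * (y1 + y2)) := by
          apply mul_le_mul_of_nonneg_left _ hT0.le
          exact NL.a8 hu0 hy2
      _ ≤ T * ((u + 1) * (Real.sqrt y1 + Real.sqrt y2) ^ 2) := by gcongr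
      _ = _ := by ring
  have sZ : Real.sqrt Z ≤ Real.sqrt W * (4 * C1 * Real.exp (-u)) * Real.sqrt T * (1 + C3) := by
    rw [Real.sqrt_le_left (by positivity)]
    have e1 : (Real.sqrt W * (4 * C1 * Real.exp (-u)) * Real.sqrt T * (1 + C3)) ^ 2 =
        W * (4 * C1 * Real.exp (-u)) ^ 2 * (T * (1 + C3) ^ 2) := by
      calc (Real.sqrt W * (4 * C1 * Real.exp (-u)) * Real.sqrt T * (1 + C3)) ^ 2 =
          (Real.sqrt W) ^ 2 * (4 * C1 * Real.exp (-u)) ^ 2 *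
            ((Real.sqrt T) ^ 2 * (1 + C3) ^ 2) := by ring
        _ = _ := by rw [Real.sq_sqrt hW0, Real.sq_sqrt hT0.le]
    rw [e1, hZdef]
    have : T + C3 ≤ T * (1 + C3) ^ 2 := NL.a9 hT1 hC3
    exact mul_le_mul_of_nonneg_left this (by positivity)
  set S := Real.sqrt y1 + Real.sqrt y2 with hS
  have hS0 : 0 ≤ S := by positivity
  set rW := Real.sqrt W with hrW
  have hrW0 : 0 ≤ rW := Real.sqrt_nonneg _
  have hrWW : rW * rW = W := Real.mul_self_sqrt hW0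
  have hTT : Real.sqrt T * Real.sqrt T = T := Real.mul_self_sqrt hT0.le
  have cXY : Real.sqrt X * Real.sqrt (Y u) ≤
      (1 + C4) * Real.exp 1 * (rW * Lm * T * S) * E2 := by
    calc Real.sqrt X * Real.sqrt (Y u) ≤
        (rW * Lm * Real.sqrt T * (1 + C4) * Real.exp (-u ^ 2 / 4)) *
          (Real.sqrt T * Real.sqrt (u + 1) * S) := by gcongr
      _ = (1 + C4) * (rW * Lm * (Real.sqrt T * Real.sqrt T) * S) *
          (Real.exp (-u ^ 2 / 4) * Real.sqrt (u + 1)) := by ring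
      _ ≤ (1 + C4) * (rW * Lm * (Real.sqrt T * Real.sqrt T) * S) *
          (Real.exp 1 * Real.exp (-u / 2)) :=
          mul_le_mul_of_nonneg_left (fa_arith1 u) (by positivity)
      _ = _ := by rw [hTT]; ring
  have cXZ : Real.sqrt X * Real.sqrt Z ≤
      (1 + C4) * (4 * C1) * (1 + C3) * (W * (Lm * T)) * E2 := by
    calc Real.sqrt X * Real.sqrt Z ≤
        (rW * Lm * Real.sqrt T * (1 + C4) * Real.exp (-u ^ 2 / 4)) *
          (rW * (4 * C1 * Real.exp (-u)) * Real.sqrt T * (1 + C3)) := by gcongr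
      _ = (1 + C4) * (4 * C1) * (1 + C3) * ((rW * rW) * (Lm * (Real.sqrt T * Real.sqrt T))) *
          (Real.exp (-u ^ 2 / 4) * Real.exp (-u)) := by ring
      _ ≤ (1 + C4) * (4 * C1) * (1 + C3) * ((rW * rW) * (Lm * (Real.sqrt T * Real.sqrt T))) *
          (1 * E2) := by
          have : Real.exp (-u ^ 2 / 4) ≤ 1 := by
            exact Real.exp_le_one_iff.mpr (NL.a10 u)
          gcongr
      _ = _ := by rw [hTT, hrWW]; ring
  have cYZ : Real.sqrt (Y u) * Real.sqrt Z ≤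
      4 * C1 * (1 + C3) * (rW * Lm * T * S) * E2 := by
    calc Real.sqrt (Y u) * Real.sqrt Z ≤
        (Real.sqrt T * Real.sqrt (u + 1) * S) *
          (rW * (4 * C1 * Real.exp (-u)) * Real.sqrt T * (1 + C3)) := by gcongr
      _ = 4 * C1 * (1 + C3) * (rW * 1 * (Real.sqrt T * Real.sqrt T) * S) *
          (Real.exp (-u) * Real.sqrt (u + 1)) := by ring
      _ ≤ 4 * C1 * (1 + C3) * (rW * Lm * (Real.sqrt T * Real.sqrt T) * S) * E2 := by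
          have := fa_arith2 u
          gcongr
      _ = _ := by rw [hTT]
  have cZ : Z ≤ (4 * C1) ^ 2 * (1 + C3) ^ 2 * (W * (Lm * T)) * E2 := by
    calc Z ≤ W * (4 * C1 * Real.exp (-u)) ^ 2 * (T * (1 + C3) ^ 2) := by
          have : T + C3 ≤ T * (1 + C3) ^ 2 := NL.a9 hT1 hC3
          rw [hZdef]
          gcongr
      _ = (4 * C1) ^ 2 * (1 + C3) ^ 2 * (W * (1 * T)) * (Real.exp (-u) * Real.exp (-u)) := by ring
      _ ≤ (4 * C1) ^ 2 * (1 + C3) ^ 2 * (W * (Lm * T)) * (1 * E2) := by gcongr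
      _ = _ := by ring
  have cX : X ≤ S2 * (T / (2 * Real.pi) * Real.exp (-u ^ 2)) +
      Real.exp 1 * C4 * (W * (Lm ^ 2 * κ)) * E2 := by
    have := fa_arith3 u
    have e0 : S2 * (C4 * κ * Real.exp (-u ^ 2 / 2)) ≤
        W * Lm ^ 2 * (C4 * κ * Real.exp (-u ^ 2 / 2)) := by
      refine mul_le_mul_of_nonneg_right hS2W ?_
      have : 0 ≤ κ := by linarith
      positivity
    have e1 : W * Lm ^ 2 * (C4 * κ * Real.exp (-u ^ 2 / 2)) ≤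
        W * Lm ^ 2 * (C4 * κ * (Real.exp 1 * Real.exp (-u / 2))) := by
      have : 0 ≤ κ := by linarith
      gcongr
    rw [hXdef, mul_add]
    have e2 : W * Lm ^ 2 * (C4 * κ * (Real.exp 1 * Real.exp (-u / 2))) =
      Real.exp 1 * C4 * (W * (Lm ^ 2 * κ)) * E2 := by rw [hE2]; ring
    linarith
  have cO : W * (100 * (6 * C5) ^ 2 * (T * Real.exp (-u))) ≤
      100 * (6 * C5) ^ 2 * (W * (Lm * T)) * E2 := by
    calc W * (100 * (6 * C5) ^ 2 * (T * Real.exp (-u))) =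
        100 * (6 * C5) ^ 2 * (W * (1 * T)) * Real.exp (-u) := by ring
      _ ≤ _ := by gcongr
  -- final
  set D1 := W * (Lm ^ 2 * κ) with hD1
  set D2 := W * (Lm * T) with hD2
  set D3 := rW * Lm * T * S with hD3
  have d1 : 0 ≤ D1 * E2 := by
    have : 0 ≤ κ := by linarith
    positivity
  have d2 : 0 ≤ D2 * E2 := by positivity
  have d3 : 0 ≤ D3 * E2 := by positivity
  have k1 : 0 < Real.exp 1 * C4 := by positivity
  have k2 : 0 < (1 + C4) * Real.exp 1 := by positivity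
  have k3 : 0 < (1 + C4) * (4 * C1) * (1 + C3) := by positivity
  have k4 : 0 < 4 * C1 * (1 + C3) := by positivity
  have k5 : 0 < (4 * C1) ^ 2 * (1 + C3) ^ 2 := by positivity
  have k6 : 0 < 100 * (6 * C5) ^ 2 := by positivity
  set K1 := Real.exp 1 * C4 with hK1
  set K2 := (1 + C4) * Real.exp 1
  set K3 := (1 + C4) * (4 * C1) * (1 + C3)
  set K4 := 4 * C1 * (1 + C3)
  set K5 := (4 * C1) ^ 2 * (1 + C3) ^ 2
  set K6 := 100 * (6 * C5) ^ 2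
  have key : (K1 * (D1 * E2) + 2 * (K2 * (D3 * E2) + K3 * (D2 * E2) + K4 * (D3 * E2)) +
      K5 * (D2 * E2) + K6 * (D2 * E2)) ≤
      (K1 + 2 * (K2 + K3 + K4) + K5 + K6) * (D1 * E2 + D2 * E2 + D3 * E2) := by
    generalize D1 * E2 = g1 at *
    generalize D2 * E2 = g2 at *
    generalize D3 * E2 = g3 at *
    have e1 : (K1 + 2 * (K2 + K3 + K4) + K5 + K6) * (g1 + g2 + g3) -
        (K1 * g1 + 2 * (K2 * g3 + K3 * g2 + K4 * g3) + K5 * g2 + K6 * g2) =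
        K1 * (g2 + g3) + 2 * (K2 * (g1 + g2) + K3 * (g1 + g3) + K4 * (g1 + g2)) +
        K5 * (g1 + g3) + K6 * (g1 + g3) := by ring
    have e2 : 0 ≤ K1 * (g2 + g3) + 2 * (K2 * (g1 + g2) + K3 * (g1 + g3) + K4 * (g1 + g2)) +
        K5 * (g1 + g3) + K6 * (g1 + g3) := by positivity
    linarith
  have e0 : (K1 + 2 * (K2 + K3 + K4) + K5 + K6) * (D1 * E2 + D2 * E2 + D3 * E2) =
      (K1 + 2 * (K2 + K3 + K4) + K5 + K6) * (D1 + D2 + D3) * E2 := by ring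
  calc ∑ i ∈ s, ω i * ∫ t : ℝ, ‖BB (F i) (V i).1 (V i).2 T u t‖ ^ 2 ≤
      X + Y u + Z + 2 * (Real.sqrt X * Real.sqrt (Y u) + Real.sqrt X * Real.sqrt Z +
        Real.sqrt (Y u) * Real.sqrt Z) + W * (K6 * (T * Real.exp (-u))) := by
        linarith
    _ ≤ S2 * (T / (2 * Real.pi) * Real.exp (-u ^ 2)) + Y u +
        (K1 * (D1 * E2) + 2 * (K2 * (D3 * E2) + K3 * (D2 * E2) + K4 * (D3 * E2)) +
      K5 * (D2 * E2) + K6 * (D2 * E2)) := by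
        linarith
    _ ≤ _ := by linarith


/-! ### integration over `u` -/

lemma fa_core_V (γ : ℝ) (h0 : 0 < γ) (hπ : γ < Real.pi) (d A : ℝ) (hd : 1 ≤ d) (hA : 1 ≤ A) :
    ∃ K : ℝ, 0 < K ∧ ∀ {ι : Type} (s : Finset ι) (ω : ι → ℝ) (Q : ι → ℝ) (F : ι → ℂ → ℂ)
      (a : ι → ℕ → ℂ) (T κ Λ Lm y1 y2 : ℝ) (Y : ℝ → ℝ),
      (∀ i ∈ s, 0 ≤ ω i ∧ 1 ≤ Q i ∧ GoodD d A (Q i) (F i) (a i) ∧ Real.log (Q i * T) ≤ Lm) →
      3 ≤ κ → 8 * κ ≤ T → T ≤ Real.exp (κ ^ 2 / 2) → 1 ≤ Λ → 1 ≤ Lm →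
      Lm ^ 2 * Real.exp (Λ - κ ^ 2 / 2) ≤ Real.exp (-Λ) → 0 ≤ y1 → 0 ≤ y2 →
      (∀ u ∈ Set.Icc 0 Λ,
        ∫ t : ℝ, ∑ i ∈ s, ω i *
          ‖∑' n : ℕ, a i n * ((Real.sqrt n : ℂ)⁻¹ * bt T u t (Real.log n))‖ ^ 2 ≤ Y u) →
      (∀ u ∈ Set.Icc 0 Λ, Y u ≤ T * (y1 * (u + 1) + y2)) →
      IntervalIntegrable Y volume 0 Λ →
      ∃ V1 V2 : ι → ℝ, (∀ i ∈ s,
          T - 3 * κ ≤ V1 i ∧ V1 i ≤ T - 3 * κ + 1 ∧
          2 * T + 3 * κ - 1 ≤ V2 i ∧ V2 i ≤ 2 * T + 3 * κ) ∧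
        ∑ i ∈ s, ω i * ((2 / (Real.sqrt Real.pi * Λ)) * (∫ u in (0 : ℝ)..Λ, Rw γ (u / Λ) *
          ∫ t : ℝ, ‖BB (F i) (V1 i) (V2 i) T u t‖ ^ 2)) ≤
        (∑ i ∈ s, ω i * (d * Real.log (Q i * T)) ^ 2) * Rw γ 0 * T / (2 * Real.pi * Λ) +
        (2 / (Real.sqrt Real.pi * Λ)) * (∫ u in (0 : ℝ)..Λ, Rw γ (u / Λ) * Y u) +
        K * ((∑ i ∈ s, ω i) * ((d * Lm) ^ 2 * κ / Λ + (d * Lm) * T / Λ) +
          Real.sqrt (∑ i ∈ s, ω i) * (d * Lm) * T * (Real.sqrt y1 + Real.sqrt y2) / Λ) := by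
  obtain ⟨K, hK, hfix⟩ := fa_fixed_u_V d A hd hA
  have hR0 : 0 ≤ Rw γ 0 := Rw_nonneg γ h0 hπ 0
  have hRc := fa_Rw_cont γ h0 hπ
  refine ⟨4 * (Rw γ 0 + 1) * K / Real.sqrt Real.pi, by positivity, ?_⟩
  intro ι s ω Q F a T κ Λ Lm0 y1 y2 Y hs hκ hT hTκ hΛ hLm0 hLmΛ hy1 hy2 hY hYb hYi
  obtain ⟨V1, V2, hV, hu⟩ := hfix s ω Q F a T κ Λ Lm0 y1 y2 Y hs hκ hT hTκ hΛ hLm0 hLmΛ hy1 hy2
    hY hYb
  obtain ⟨Lm, hLmd⟩ : ∃ L, L = d * Lm0 := ⟨_, rfl⟩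
  rw [← hLmd] at hu ⊢
  have hLm : 1 ≤ Lm := by rw [hLmd]; exact NL.a1 hd hLm0
  refine ⟨V1, V2, fun i hi => (hV i hi).2, ?_⟩
  have hT0 : 0 < T := by linarith
  have hΛ0 : 0 < Λ := by linarith
  have hκ0 : 0 < κ := by linarith
  set W := ∑ i ∈ s, ω i with hW
  have hW0 : 0 ≤ W := Finset.sum_nonneg fun i hi => (hs i hi).1
  set S2 := ∑ i ∈ s, ω i * (d * Real.log (Q i * T)) ^ 2 with hS2
  have hS20 : 0 ≤ S2 := Finset.sum_nonneg fun i hi => mul_nonneg (hs i hi).1 (sq_nonneg _)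
  set D := W * (Lm ^ 2 * κ) + W * (Lm * T) +
    Real.sqrt W * Lm * T * (Real.sqrt y1 + Real.sqrt y2) with hD
  have hD0 : 0 ≤ D := by positivity
  set G : ι → ℝ → ℝ := fun i u => ∫ t : ℝ, ‖BB (F i) (V1 i) (V2 i) T u t‖ ^ 2 with hG
  have hGc : ∀ i ∈ s, Continuous (G i) := fun i hi =>
    (BB_int (F i) (V1 i) (V2 i) T (hV i hi).1).2
  have hRc2 : Continuous (fun u : ℝ => Rw γ (u / Λ)) := hRc.comp (by fun_prop)
  have hlhs : ∑ i ∈ s, ω i * ((2 / (Real.sqrt Real.pi * Λ)) *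
      (∫ u in (0 : ℝ)..Λ, Rw γ (u / Λ) * G i u)) =
      (2 / (Real.sqrt Real.pi * Λ)) * ∫ u in (0 : ℝ)..Λ, Rw γ (u / Λ) * ∑ i ∈ s, ω i * G i u := by
    have e1 : ∀ u, Rw γ (u / Λ) * ∑ i ∈ s, ω i * G i u =
        ∑ i ∈ s, ω i * (Rw γ (u / Λ) * G i u) := by
      intro u
      rw [Finset.mul_sum]
      apply Finset.sum_congr rfl
      intro i _
      ring
    simp_rw [e1]
    rw [intervalIntegral.integral_finsetSum, Finset.mul_sum]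
    · apply Finset.sum_congr rfl
      intro i _
      rw [intervalIntegral.integral_const_mul]
      ring
    · intro i hi
      exact (continuous_const.mul (hRc2.mul (hGc i hi))).intervalIntegrable _ _
  show ∑ i ∈ s, ω i * ((2 / (Real.sqrt Real.pi * Λ)) *
      (∫ u in (0 : ℝ)..Λ, Rw γ (u / Λ) * G i u)) ≤ _
  rw [hlhs]
  have hgi : IntervalIntegrable (fun u : ℝ => Rw γ 0 * (S2 * (T / (2 * Real.pi)) *
      Real.exp (-u ^ 2))) volume 0 Λ :=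
    (by fun_prop : Continuous (fun u : ℝ => Rw γ 0 * (S2 * (T / (2 * Real.pi)) *
      Real.exp (-u ^ 2)))).intervalIntegrable _ _
  have hYi2 : IntervalIntegrable (fun u : ℝ => Rw γ (u / Λ) * Y u) volume 0 Λ :=
    hYi.continuousOn_mul hRc2.continuousOn
  have hei : IntervalIntegrable (fun u : ℝ => Rw γ 0 * (K * D * Real.exp (-u / 2))) volume 0 Λ :=
    (by fun_prop : Continuous (fun u : ℝ => Rw γ 0 * (K * D *
      Real.exp (-u / 2)))).intervalIntegrable _ _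
  have hint : ∫ u in (0 : ℝ)..Λ, Rw γ (u / Λ) * ∑ i ∈ s, ω i * G i u ≤
      ∫ u in (0 : ℝ)..Λ, (Rw γ 0 * (S2 * (T / (2 * Real.pi)) * Real.exp (-u ^ 2)) +
        Rw γ (u / Λ) * Y u + Rw γ 0 * (K * D * Real.exp (-u / 2))) := by
    apply intervalIntegral.integral_mono_on hΛ0.le _ ((hgi.add hYi2).add hei)
    · intro u hu'
      have h1 := hu u hu'
      have hr0 := Rw_nonneg γ h0 hπ (u / Λ)
      have hr1 : Rw γ (u / Λ) ≤ Rw γ 0 := fa_Rw_le γ h0 hπ (div_nonneg hu'.1 hΛ0.le)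
      calc Rw γ (u / Λ) * ∑ i ∈ s, ω i * G i u ≤
          Rw γ (u / Λ) * (S2 * (T / (2 * Real.pi) * Real.exp (-u ^ 2)) + Y u +
          K * D * Real.exp (-u / 2)) := mul_le_mul_of_nonneg_left h1 hr0
        _ = Rw γ (u / Λ) * (S2 * (T / (2 * Real.pi)) * Real.exp (-u ^ 2)) +
            Rw γ (u / Λ) * Y u + Rw γ (u / Λ) * (K * D * Real.exp (-u / 2)) := by ring
        _ ≤ _ := by gcongr
    · apply Continuous.intervalIntegrable
      exact hRc2.mul (continuous_finsetSum _ fun i hi => continuous_const.mul (hGc i hi))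
  rw [intervalIntegral.integral_add (hgi.add hYi2) hei,
    intervalIntegral.integral_add hgi hYi2, intervalIntegral.integral_const_mul,
    intervalIntegral.integral_const_mul, intervalIntegral.integral_const_mul,
    intervalIntegral.integral_const_mul] at hint
  have hg1 := fa_gauss_int Λ hΛ0.le
  have he1 := fa_exp_int Λ
  have hsp : 0 < Real.sqrt Real.pi := Real.sqrt_pos.mpr Real.pi_pos
  have hc0 : 0 < 2 / (Real.sqrt Real.pi * Λ) := by positivity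
  set IY := ∫ u in (0 : ℝ)..Λ, Rw γ (u / Λ) * Y u with hIY
  have hfin2 : ∫ u in (0 : ℝ)..Λ, Rw γ (u / Λ) * ∑ i ∈ s, ω i * G i u ≤
      Rw γ 0 * (S2 * (T / (2 * Real.pi)) * (Real.sqrt Real.pi / 2)) + IY +
        (Rw γ 0 + 1) * (K * D * 2) := by
    refine hint.trans ?_
    have e1 : Rw γ 0 * (S2 * (T / (2 * Real.pi)) * ∫ u in (0 : ℝ)..Λ, Real.exp (-u ^ 2)) ≤
        Rw γ 0 * (S2 * (T / (2 * Real.pi)) * (Real.sqrt Real.pi / 2)) := by gcongr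
    have e2 : Rw γ 0 * (K * D * ∫ u in (0 : ℝ)..Λ, Real.exp (-u / 2)) ≤
        (Rw γ 0 + 1) * (K * D * 2) := by
      calc Rw γ 0 * (K * D * ∫ u in (0 : ℝ)..Λ, Real.exp (-u / 2)) ≤
          Rw γ 0 * (K * D * 2) := by gcongr
        _ ≤ _ := by
          apply mul_le_mul_of_nonneg_right (by linarith) (by positivity)
    linarith
  calc (2 / (Real.sqrt Real.pi * Λ)) * ∫ u in (0 : ℝ)..Λ, Rw γ (u / Λ) * ∑ i ∈ s, ω i * G i u
      ≤ (2 / (Real.sqrt Real.pi * Λ)) * (Rw γ 0 * (S2 * (T / (2 * Real.pi)) *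
        (Real.sqrt Real.pi / 2)) + IY + (Rw γ 0 + 1) * (K * D * 2)) :=
        mul_le_mul_of_nonneg_left hfin2 hc0.le
    _ = _ := by
        rw [hD]
        field_simp
        ring

theorem fam_abstract_V (γ : ℝ) (h0 : 0 < γ) (hπ : γ < Real.pi) (d A : ℝ) (hd : 1 ≤ d)
    (hA : 1 ≤ A) :
    ∃ C : ℝ, 0 < C ∧ ∀ {ι : Type} (s : Finset ι) (ω : ι → ℝ) (Q : ι → ℝ) (F : ι → ℂ → ℂ)
      (a : ι → ℕ → ℂ) (T κ Λ Lm y1 y2 : ℝ) (Y : ℝ → ℝ),
      (∀ i ∈ s, 0 ≤ ω i ∧ 1 ≤ Q i ∧ GoodD d A (Q i) (F i) (a i) ∧ Real.log (Q i * T) ≤ Lm) →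
      3 ≤ κ → 8 * κ ≤ T → T ≤ Real.exp (κ ^ 2 / 2) → 1 ≤ Λ → 1 ≤ Lm →
      Lm ^ 2 * Real.exp (Λ - κ ^ 2 / 2) ≤ Real.exp (-Λ) → 0 ≤ y1 → 0 ≤ y2 →
      (∀ u ∈ Set.Icc 0 Λ,
        ∫ t : ℝ, ∑ i ∈ s, ω i *
          ‖∑' n : ℕ, a i n * ((Real.sqrt n : ℂ)⁻¹ * bt T u t (Real.log n))‖ ^ 2 ≤ Y u) →
      (∀ u ∈ Set.Icc 0 Λ, Y u ≤ T * (y1 * (u + 1) + y2)) →
      IntervalIntegrable Y volume 0 Λ →
      ∑ i ∈ s, ω i * (2 * (NN (F i) T (2 * T) : ℝ) - (Ns (F i) T (2 * T) : ℝ)) ≤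
        (∑ i ∈ s, ω i * (d * Real.log (Q i * T)) ^ 2) * Rw γ 0 * T / (2 * Real.pi * Λ) +
        (2 / (Real.sqrt Real.pi * Λ)) * (∫ u in (0 : ℝ)..Λ, Rw γ (u / Λ) * Y u) +
        C * ((∑ i ∈ s, ω i) * (Lm ^ 2 * κ / Λ + Lm * T / Λ + κ * Lm) +
          Real.sqrt (∑ i ∈ s, ω i) * Lm * T * (Real.sqrt y1 + Real.sqrt y2) / Λ) := by
  obtain ⟨K, hK, hcore⟩ := fa_core_V γ h0 hπ d A hd hA
  obtain ⟨C2, hC2, hper⟩ := per_chi_D γ h0 hπ d A hd hA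
  refine ⟨d ^ 2 * K + 2 * C2, by positivity, ?_⟩
  intro ι s ω Q F a T κ Λ Lm y1 y2 Y hs hκ hT hTκ hΛ hLm hLmΛ hy1 hy2 hY hYb hYi
  obtain ⟨V1, V2, hV, hb⟩ := hcore s ω Q F a T κ Λ Lm y1 y2 Y hs hκ hT hTκ hΛ hLm hLmΛ hy1 hy2
    hY hYb hYi
  have hT0 : 0 < T := by linarith
  have hΛ0 : 0 < Λ := by linarith
  have hκ0 : 0 < κ := by linarith
  have hW0 : 0 ≤ ∑ i ∈ s, ω i := Finset.sum_nonneg fun i hi => (hs i hi).1
  have hTe : T * Real.exp (-κ ^ 2 / 2) ≤ 1 := by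
    calc T * Real.exp (-κ ^ 2 / 2) ≤ Real.exp (κ ^ 2 / 2) * Real.exp (-κ ^ 2 / 2) := by gcongr
      _ = 1 := by rw [← Real.exp_add]; simp; ring
  have hstep : ∑ i ∈ s, ω i * (2 * (NN (F i) T (2 * T) : ℝ) - (Ns (F i) T (2 * T) : ℝ)) ≤
      (∑ i ∈ s, ω i * ((2 / (Real.sqrt Real.pi * Λ)) * (∫ u in (0 : ℝ)..Λ, Rw γ (u / Λ) *
          ∫ t : ℝ, ‖BB (F i) (V1 i) (V2 i) T u t‖ ^ 2))) +
      (∑ i ∈ s, ω i) * (2 * C2 * (κ * Lm)) := by
    rw [Finset.sum_mul, ← Finset.sum_add_distrib]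
    apply Finset.sum_le_sum
    intro i hi
    obtain ⟨hω, hQ, hg, hL⟩ := hs i hi
    obtain ⟨h1, h2, h3, h4⟩ := hV i hi
    have hp := hper (Q i) (F i) (a i) hQ hg T κ Λ (V1 i) (V2 i) hκ hT hΛ h1 h2 h3 h4
    have hlog : 0 ≤ Real.log (Q i * T) := by
      apply Real.log_nonneg
      exact NL.a1 hQ (by linarith)
    have he : C2 * (κ + T * Real.exp (-κ ^ 2 / 2)) * Real.log (Q i * T) ≤
        2 * C2 * (κ * Lm) := by
      calc C2 * (κ + T * Real.exp (-κ ^ 2 / 2)) * Real.log (Q i * T) ≤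
          C2 * (κ + κ) * Lm := by
            have : T * Real.exp (-κ ^ 2 / 2) ≤ κ := by linarith
            gcongr
        _ = _ := by ring
    calc ω i * (2 * (NN (F i) T (2 * T) : ℝ) - (Ns (F i) T (2 * T) : ℝ)) ≤
        ω i * ((2 / (Real.sqrt Real.pi * Λ)) * (∫ u in (0 : ℝ)..Λ, Rw γ (u / Λ) *
          ∫ t : ℝ, ‖BB (F i) (V1 i) (V2 i) T u t‖ ^ 2) + 2 * C2 * (κ * Lm)) := by
          apply mul_le_mul_of_nonneg_left _ hω
          linarith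
      _ = _ := by ring
  refine (hstep.trans (add_le_add_left hb _)).trans ?_
  set W := ∑ i ∈ s, ω i
  have hd0 : 0 ≤ d := by linarith
  have hdd : d ≤ d ^ 2 := NL.a11 hd
  have p1 : 0 ≤ W * (κ * Lm) := by positivity
  have p2 : 0 ≤ W * (Lm ^ 2 * κ / Λ + Lm * T / Λ) := by positivity
  have p3 : 0 ≤ Real.sqrt W * Lm * T * (Real.sqrt y1 + Real.sqrt y2) / Λ := by positivity
  have p4 : 0 ≤ W * (Lm * T / Λ) := by positivity
  have q1 : 0 ≤ d ^ 2 * K * (W * (κ * Lm)) := by positivity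
  have q2 : 0 ≤ C2 * (W * (Lm ^ 2 * κ / Λ + Lm * T / Λ)) := by positivity
  have q3 : 0 ≤ C2 * (Real.sqrt W * Lm * T * (Real.sqrt y1 + Real.sqrt y2) / Λ) := by positivity
  have r1 : K * (W * ((d * Lm) ^ 2 * κ / Λ + (d * Lm) * T / Λ) +
      Real.sqrt W * (d * Lm) * T * (Real.sqrt y1 + Real.sqrt y2) / Λ) ≤
      d ^ 2 * K * (W * (Lm ^ 2 * κ / Λ + Lm * T / Λ) +
      Real.sqrt W * Lm * T * (Real.sqrt y1 + Real.sqrt y2) / Λ) := by
    have r2 : d * (W * (Lm * T / Λ)) ≤ d ^ 2 * (W * (Lm * T / Λ)) :=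
      mul_le_mul_of_nonneg_right hdd p4
    have r3 : d * (Real.sqrt W * Lm * T * (Real.sqrt y1 + Real.sqrt y2) / Λ) ≤
        d ^ 2 * (Real.sqrt W * Lm * T * (Real.sqrt y1 + Real.sqrt y2) / Λ) :=
      mul_le_mul_of_nonneg_right hdd p3
    have r4 := mul_le_mul_of_nonneg_left (add_le_add r2 r3) hK.le
    have e1 : K * (W * ((d * Lm) ^ 2 * κ / Λ + (d * Lm) * T / Λ) +
      Real.sqrt W * (d * Lm) * T * (Real.sqrt y1 + Real.sqrt y2) / Λ) =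
      K * (d ^ 2 * (W * (Lm ^ 2 * κ / Λ))) + K * (d * (W * (Lm * T / Λ)) +
        d * (Real.sqrt W * Lm * T * (Real.sqrt y1 + Real.sqrt y2) / Λ)) := by ring
    have e2 : d ^ 2 * K * (W * (Lm ^ 2 * κ / Λ + Lm * T / Λ) +
      Real.sqrt W * Lm * T * (Real.sqrt y1 + Real.sqrt y2) / Λ) =
      K * (d ^ 2 * (W * (Lm ^ 2 * κ / Λ))) + K * (d ^ 2 * (W * (Lm * T / Λ)) +
        d ^ 2 * (Real.sqrt W * Lm * T * (Real.sqrt y1 + Real.sqrt y2) / Λ)) := by ring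
    rw [e1, e2]
    linarith
  have e : (d ^ 2 * K + 2 * C2) * (W * (Lm ^ 2 * κ / Λ + Lm * T / Λ + κ * Lm) +
      Real.sqrt W * Lm * T * (Real.sqrt y1 + Real.sqrt y2) / Λ) =
      d ^ 2 * K * (W * (Lm ^ 2 * κ / Λ + Lm * T / Λ) +
      Real.sqrt W * Lm * T * (Real.sqrt y1 + Real.sqrt y2) / Λ) + W * (2 * C2 * (κ * Lm)) +
      d ^ 2 * K * (W * (κ * Lm)) + 2 * (C2 * (W * (Lm ^ 2 * κ / Λ + Lm * T / Λ))) +
      2 * (C2 * (Real.sqrt W * Lm * T * (Real.sqrt y1 + Real.sqrt y2) / Λ)) := by ring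
  rw [e]
  linarith

/-- same with distinct zeros -/
theorem fam_abstract_d_V (γ : ℝ) (h0 : 0 < γ) (hπ : γ < Real.pi) (d A : ℝ) (hd : 1 ≤ d)
    (hA : 1 ≤ A) :
    ∃ C : ℝ, 0 < C ∧ ∀ {ι : Type} (s : Finset ι) (ω : ι → ℝ) (Q : ι → ℝ) (F : ι → ℂ → ℂ)
      (a : ι → ℕ → ℂ) (T κ Λ Lm y1 y2 : ℝ) (Y : ℝ → ℝ),
      (∀ i ∈ s, 0 ≤ ω i ∧ 1 ≤ Q i ∧ GoodD d A (Q i) (F i) (a i) ∧ Real.log (Q i * T) ≤ Lm) →
      3 ≤ κ → 8 * κ ≤ T → T ≤ Real.exp (κ ^ 2 / 2) → 1 ≤ Λ → 1 ≤ Lm →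
      Lm ^ 2 * Real.exp (Λ - κ ^ 2 / 2) ≤ Real.exp (-Λ) → 0 ≤ y1 → 0 ≤ y2 →
      (∀ u ∈ Set.Icc 0 Λ,
        ∫ t : ℝ, ∑ i ∈ s, ω i *
          ‖∑' n : ℕ, a i n * ((Real.sqrt n : ℂ)⁻¹ * bt T u t (Real.log n))‖ ^ 2 ≤ Y u) →
      (∀ u ∈ Set.Icc 0 Λ, Y u ≤ T * (y1 * (u + 1) + y2)) →
      IntervalIntegrable Y volume 0 Λ →
      ∑ i ∈ s, ω i * (3 * (NN (F i) T (2 * T) : ℝ) - 2 * (Nd (F i) T (2 * T) : ℝ)) ≤
        (∑ i ∈ s, ω i * (d * Real.log (Q i * T)) ^ 2) * Rw γ 0 * T / (2 * Real.pi * Λ) +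
        (2 / (Real.sqrt Real.pi * Λ)) * (∫ u in (0 : ℝ)..Λ, Rw γ (u / Λ) * Y u) +
        C * ((∑ i ∈ s, ω i) * (Lm ^ 2 * κ / Λ + Lm * T / Λ + κ * Lm) +
          Real.sqrt (∑ i ∈ s, ω i) * Lm * T * (Real.sqrt y1 + Real.sqrt y2) / Λ) := by
  obtain ⟨K, hK, hcore⟩ := fa_core_V γ h0 hπ d A hd hA
  obtain ⟨C2, hC2, hper⟩ := per_chi_d_D γ h0 hπ d A hd hA
  refine ⟨d ^ 2 * K + 2 * C2, by positivity, ?_⟩
  intro ι s ω Q F a T κ Λ Lm y1 y2 Y hs hκ hT hTκ hΛ hLm hLmΛ hy1 hy2 hY hYb hYi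
  obtain ⟨V1, V2, hV, hb⟩ := hcore s ω Q F a T κ Λ Lm y1 y2 Y hs hκ hT hTκ hΛ hLm hLmΛ hy1 hy2
    hY hYb hYi
  have hT0 : 0 < T := by linarith
  have hΛ0 : 0 < Λ := by linarith
  have hκ0 : 0 < κ := by linarith
  have hW0 : 0 ≤ ∑ i ∈ s, ω i := Finset.sum_nonneg fun i hi => (hs i hi).1
  have hTe : T * Real.exp (-κ ^ 2 / 2) ≤ 1 := by
    calc T * Real.exp (-κ ^ 2 / 2) ≤ Real.exp (κ ^ 2 / 2) * Real.exp (-κ ^ 2 / 2) := by gcongr
      _ = 1 := by rw [← Real.exp_add]; simp; ring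
  have hstep : ∑ i ∈ s, ω i * (3 * (NN (F i) T (2 * T) : ℝ) - 2 * (Nd (F i) T (2 * T) : ℝ)) ≤
      (∑ i ∈ s, ω i * ((2 / (Real.sqrt Real.pi * Λ)) * (∫ u in (0 : ℝ)..Λ, Rw γ (u / Λ) *
          ∫ t : ℝ, ‖BB (F i) (V1 i) (V2 i) T u t‖ ^ 2))) +
      (∑ i ∈ s, ω i) * (2 * C2 * (κ * Lm)) := by
    rw [Finset.sum_mul, ← Finset.sum_add_distrib]
    apply Finset.sum_le_sum
    intro i hi
    obtain ⟨hω, hQ, hg, hL⟩ := hs i hi
    obtain ⟨h1, h2, h3, h4⟩ := hV i hi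
    have hp := hper (Q i) (F i) (a i) hQ hg T κ Λ (V1 i) (V2 i) hκ hT hΛ h1 h2 h3 h4
    have hlog : 0 ≤ Real.log (Q i * T) := by
      apply Real.log_nonneg
      exact NL.a1 hQ (by linarith)
    have he : C2 * (κ + T * Real.exp (-κ ^ 2 / 2)) * Real.log (Q i * T) ≤
        2 * C2 * (κ * Lm) := by
      calc C2 * (κ + T * Real.exp (-κ ^ 2 / 2)) * Real.log (Q i * T) ≤
          C2 * (κ + κ) * Lm := by
            have : T * Real.exp (-κ ^ 2 / 2) ≤ κ := by linarith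
            gcongr
        _ = _ := by ring
    calc ω i * (3 * (NN (F i) T (2 * T) : ℝ) - 2 * (Nd (F i) T (2 * T) : ℝ)) ≤
        ω i * ((2 / (Real.sqrt Real.pi * Λ)) * (∫ u in (0 : ℝ)..Λ, Rw γ (u / Λ) *
          ∫ t : ℝ, ‖BB (F i) (V1 i) (V2 i) T u t‖ ^ 2) + 2 * C2 * (κ * Lm)) := by
          apply mul_le_mul_of_nonneg_left _ hω
          linarith
      _ = _ := by ring
  refine (hstep.trans (add_le_add_left hb _)).trans ?_
  set W := ∑ i ∈ s, ω i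
  have hd0 : 0 ≤ d := by linarith
  have hdd : d ≤ d ^ 2 := NL.a11 hd
  have p1 : 0 ≤ W * (κ * Lm) := by positivity
  have p2 : 0 ≤ W * (Lm ^ 2 * κ / Λ + Lm * T / Λ) := by positivity
  have p3 : 0 ≤ Real.sqrt W * Lm * T * (Real.sqrt y1 + Real.sqrt y2) / Λ := by positivity
  have p4 : 0 ≤ W * (Lm * T / Λ) := by positivity
  have q1 : 0 ≤ d ^ 2 * K * (W * (κ * Lm)) := by positivity
  have q2 : 0 ≤ C2 * (W * (Lm ^ 2 * κ / Λ + Lm * T / Λ)) := by positivity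
  have q3 : 0 ≤ C2 * (Real.sqrt W * Lm * T * (Real.sqrt y1 + Real.sqrt y2) / Λ) := by positivity
  have r1 : K * (W * ((d * Lm) ^ 2 * κ / Λ + (d * Lm) * T / Λ) +
      Real.sqrt W * (d * Lm) * T * (Real.sqrt y1 + Real.sqrt y2) / Λ) ≤
      d ^ 2 * K * (W * (Lm ^ 2 * κ / Λ + Lm * T / Λ) +
      Real.sqrt W * Lm * T * (Real.sqrt y1 + Real.sqrt y2) / Λ) := by
    have r2 : d * (W * (Lm * T / Λ)) ≤ d ^ 2 * (W * (Lm * T / Λ)) :=
      mul_le_mul_of_nonneg_right hdd p4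
    have r3 : d * (Real.sqrt W * Lm * T * (Real.sqrt y1 + Real.sqrt y2) / Λ) ≤
        d ^ 2 * (Real.sqrt W * Lm * T * (Real.sqrt y1 + Real.sqrt y2) / Λ) :=
      mul_le_mul_of_nonneg_right hdd p3
    have r4 := mul_le_mul_of_nonneg_left (add_le_add r2 r3) hK.le
    have e1 : K * (W * ((d * Lm) ^ 2 * κ / Λ + (d * Lm) * T / Λ) +
      Real.sqrt W * (d * Lm) * T * (Real.sqrt y1 + Real.sqrt y2) / Λ) =
      K * (d ^ 2 * (W * (Lm ^ 2 * κ / Λ))) + K * (d * (W * (Lm * T / Λ)) +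
        d * (Real.sqrt W * Lm * T * (Real.sqrt y1 + Real.sqrt y2) / Λ)) := by ring
    have e2 : d ^ 2 * K * (W * (Lm ^ 2 * κ / Λ + Lm * T / Λ) +
      Real.sqrt W * Lm * T * (Real.sqrt y1 + Real.sqrt y2) / Λ) =
      K * (d ^ 2 * (W * (Lm ^ 2 * κ / Λ))) + K * (d ^ 2 * (W * (Lm * T / Λ)) +
        d ^ 2 * (Real.sqrt W * Lm * T * (Real.sqrt y1 + Real.sqrt y2) / Λ)) := by ring
    rw [e1, e2]
    linarith
  have e : (d ^ 2 * K + 2 * C2) * (W * (Lm ^ 2 * κ / Λ + Lm * T / Λ + κ * Lm) +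
      Real.sqrt W * Lm * T * (Real.sqrt y1 + Real.sqrt y2) / Λ) =
      d ^ 2 * K * (W * (Lm ^ 2 * κ / Λ + Lm * T / Λ) +
      Real.sqrt W * Lm * T * (Real.sqrt y1 + Real.sqrt y2) / Λ) + W * (2 * C2 * (κ * Lm)) +
      d ^ 2 * K * (W * (κ * Lm)) + 2 * (C2 * (W * (Lm ^ 2 * κ / Λ + Lm * T / Λ))) +
      2 * (C2 * (Real.sqrt W * Lm * T * (Real.sqrt y1 + Real.sqrt y2) / Λ)) := by ring
  rw [e]
  linarith

end Pool.Agent.Y693.AB
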