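import Pool.Agent.Y693.AB.Fam
import Pool.Agent.H385R5.HE4

/-!
Project AB (helper693), part 6: mean squares over the family.
-/

set_option autoImplicit false

open Complex
open H385 (ZI RQ im1 chiZ FQs phiQ nrm)
open Pool.Agent.H304R2.EC.A1 (prim prim_one prim_mul exists_prim norm_def' re_mul' im_mul')
open Pool.Agent.W164.RC (two2)

namespace Pool.Agent.Y693.AB

theorem ms_general {q : ZI} (hq : q ≠ 0) (h2 : two2 ∣ q) (V : Subgroup (RQ q)ˣ) (B : Finset ZI)
    (hB : ∀ a ∈ B, prim a ∧ IsCoprime a q) (w : ZI → ℂ) :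
    ∑ χ ∈ FU q V, ‖∑ a ∈ B, w a * chiZ q χ a‖ ^ 2 ≤
      ((FU q V).card : ℝ) * (∑ a ∈ B, ‖w a‖ ^ 2 + ∑ p ∈ PP V B, ‖w p.1‖ * ‖w p.2‖) := by
  classical
  have hfq := H385.he1_finite hq
  have hval : ∀ (χ : MulChar (RQ q) ℂ) (x : ZI),
      chiZ q χ x = χ (Ideal.Quotient.mk (Ideal.span {q}) x) := fun _ _ => rfl
  -- the sums over the characters
  have hab : ∀ a ∈ B, ∀ b ∈ B, ∑ χ ∈ FU q V, chiZ q χ a * (starRingEnd ℂ) (chiZ q χ b) =
      if rel V a b then ((FU q V).card : ℂ) else 0 := by
    intro a ha b hb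
    obtain ⟨ua, hua⟩ := H385.he2_unit (hB a ha).2
    obtain ⟨ub, hub⟩ := H385.he2_unit (hB b hb).2
    have e1 : ∀ χ : MulChar (RQ q) ℂ, chiZ q χ a * (starRingEnd ℂ) (chiZ q χ b) =
        χ ((ua * ub⁻¹ : (RQ q)ˣ) : RQ q) := by
      intro χ
      rw [hval, hval, ← hua, ← hub]
      have h3 := MulChar.star_apply' χ (ub : RQ q)
      rw [MulChar.inv_apply, Ring.inverse_unit] at h3
      have h4 : (starRingEnd ℂ) (χ (ub : RQ q)) = χ ((ub⁻¹ : (RQ q)ˣ) : RQ q) := h3
      rw [h4, Units.val_mul, map_mul]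
    simp_rw [e1]
    rw [orth_FU hq h2 V (primCl_mul ⟨a, (hB a ha).1, hua⟩
      (primCl_inv hq ⟨b, (hB b hb).1, hub⟩))]
    have e2 : ua * ub⁻¹ ∈ V ↔ rel V a b := by
      unfold rel
      constructor
      · intro h
        refine ⟨ua * ub⁻¹, h, ?_⟩
        rw [← hua, ← hub, ← Units.val_mul, inv_mul_cancel_right]
      · rintro ⟨u, hu, h⟩
        rw [← hua, ← hub, ← Units.val_mul] at h
        have h5 := Units.ext h
        rw [h5, mul_inv_cancel_right]
        exact hu
    simp only [e2]
  have h1 : ∀ χ : MulChar (RQ q) ℂ,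
      ((‖∑ a ∈ B, w a * chiZ q χ a‖ ^ 2 : ℝ) : ℂ) =
      ∑ a ∈ B, ∑ b ∈ B, (w a * (starRingEnd ℂ) (w b)) *
        (chiZ q χ a * (starRingEnd ℂ) (chiZ q χ b)) := by
    intro χ
    push_cast
    rw [← Complex.mul_conj', map_sum, Finset.sum_mul_sum]
    refine Finset.sum_congr rfl fun a _ => Finset.sum_congr rfl fun b _ => ?_
    rw [map_mul]
    ring
  have h3 : ((∑ χ ∈ FU q V, ‖∑ a ∈ B, w a * chiZ q χ a‖ ^ 2 : ℝ) : ℂ) =
      ((FU q V).card : ℂ) * (∑ a ∈ B, ((‖w a‖ ^ 2 : ℝ) : ℂ) +
        ∑ p ∈ PP V B, w p.1 * (starRingEnd ℂ) (w p.2)) := by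
    rw [Complex.ofReal_sum, Finset.sum_congr rfl fun χ _ => h1 χ, Finset.sum_comm]
    have h4 : ∀ a ∈ B, ∑ χ ∈ FU q V, ∑ b ∈ B, (w a * (starRingEnd ℂ) (w b)) *
        (chiZ q χ a * (starRingEnd ℂ) (chiZ q χ b)) =
        ∑ b ∈ B, (if rel V a b then ((FU q V).card : ℂ) * (w a * (starRingEnd ℂ) (w b)) else 0) := by
      intro a ha
      rw [Finset.sum_comm]
      refine Finset.sum_congr rfl fun b hb => ?_
      rw [← Finset.mul_sum, hab a ha b hb]
      split_ifs
      · ring
      · ring
    rw [Finset.sum_congr rfl h4, ← Finset.sum_product' (s := B) (t := B)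
      (f := fun a b => if rel V a b then ((FU q V).card : ℂ) * (w a * (starRingEnd ℂ) (w b)) else 0)]
    have h5 : ∀ x ∈ B ×ˢ B, (if rel V x.1 x.2 then
        ((FU q V).card : ℂ) * (w x.1 * (starRingEnd ℂ) (w x.2)) else 0) =
        (if x.1 = x.2 then ((FU q V).card : ℂ) * (w x.1 * (starRingEnd ℂ) (w x.2)) else 0) +
        (if x.1 ≠ x.2 ∧ rel V x.1 x.2 then
          ((FU q V).card : ℂ) * (w x.1 * (starRingEnd ℂ) (w x.2)) else 0) := by
      intro x _
      by_cases hx : x.1 = x.2
      · have hr : rel V x.1 x.2 := by rw [hx]; exact rel_refl V _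
        have hr' : ¬ (x.1 ≠ x.2 ∧ rel V x.1 x.2) := fun h => h.1 hx
        simp only [if_pos hr, if_neg hr', if_pos hx, add_zero]
      · by_cases hr : rel V x.1 x.2
        · have hr' : x.1 ≠ x.2 ∧ rel V x.1 x.2 := ⟨hx, hr⟩
          simp only [if_pos hr, if_neg hx, if_pos hr', zero_add]
        · have hr' : ¬ (x.1 ≠ x.2 ∧ rel V x.1 x.2) := fun h => hr h.2
          simp only [if_neg hr, if_neg hx, if_neg hr', zero_add]
    rw [Finset.sum_congr rfl h5, Finset.sum_add_distrib, mul_add]
    congr 1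
    · rw [Finset.sum_product, Finset.mul_sum]
      refine Finset.sum_congr rfl fun a ha => ?_
      simp only
      rw [Finset.sum_ite_eq, if_pos ha]
      push_cast
      rw [← Complex.mul_conj']
    · rw [← Finset.sum_filter, Finset.mul_sum]
      rfl
  have hc0 : (0 : ℝ) ≤ (FU q V).card := Nat.cast_nonneg _
  have h6 : ‖((∑ χ ∈ FU q V, ‖∑ a ∈ B, w a * chiZ q χ a‖ ^ 2 : ℝ) : ℂ)‖ =
      ∑ χ ∈ FU q V, ‖∑ a ∈ B, w a * chiZ q χ a‖ ^ 2 := by
    rw [Complex.norm_real, Real.norm_of_nonneg]
    exact Finset.sum_nonneg fun χ _ => sq_nonneg _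
  rw [← h6, h3, norm_mul, Complex.norm_natCast]
  refine mul_le_mul_of_nonneg_left ?_ hc0
  refine (norm_add_le _ _).trans (add_le_add ?_ ?_)
  · refine (norm_sum_le _ _).trans (le_of_eq ?_)
    refine Finset.sum_congr rfl fun a _ => ?_
    rw [Complex.norm_real, Real.norm_of_nonneg (sq_nonneg _)]
  · refine (norm_sum_le _ _).trans (le_of_eq ?_)
    refine Finset.sum_congr rfl fun p _ => ?_
    rw [norm_mul, RCLike.norm_conj]

/-! ### from all elements to primary elements -/

open H385.HE4 (mem_BX nrm_im1)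

/-- sums over associates -/
theorem sum_quarter {β : Type*} [AddCommMonoid β] (N : ℕ) (F : ZI → β)
    (h1 : ∀ a, F (im1 * a) = F a)
    (h2 : ∀ a, a.norm % 2 ≠ 1 → F a = 0) :
    ∑ a ∈ H385.BX N, F a = 4 • ∑ a ∈ open Classical in (H385.BX N).filter prim, F a := by
  classical
  have hj : ∀ (j : ℕ) (a : ZI), F (im1 ^ j * a) = F a ∧ nrm (im1 ^ j * a) = nrm a := by
    intro j a
    induction j with
    | zero => simp
    | succ j ih =>
      have e : im1 ^ (j + 1) * a = im1 * (im1 ^ j * a) := by ring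
      rw [e, h1, nrm_im1]
      exact ih
  -- map each element to its primary associate
  have hex : ∀ a : ZI, ∃ b : ZI, a.norm % 2 = 1 → prim b ∧ ∃ j < 4, a = im1 ^ j * b := by
    intro a
    by_cases ha : a.norm % 2 = 1
    · obtain ⟨u, v, huv, hp⟩ := exists_prim a ha
      refine ⟨u * a, fun _ => ⟨hp, ?_⟩⟩
      have hv : v.norm = 1 := by
        have h3 : u.norm * v.norm = 1 := by rw [← Zsqrtd.norm_mul, huv]; simp
        have h4 := GaussianInt.norm_nonneg v
        have h5 := GaussianInt.norm_nonneg u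
        rcases Int.eq_one_or_neg_one_of_mul_eq_one' h3 with h | h
        · exact h.2
        · omega
      have hav : a = v * (u * a) := by linear_combination (-a) * huv
      rcases Pool.Agent.W164.RC.unit_cases hv with h | h | h | h
      · exact ⟨0, by norm_num, by rw [pow_zero, ← h]; exact hav⟩
      · exact ⟨1, by norm_num, by rw [pow_one, ← h]; exact hav⟩
      · exact ⟨2, by norm_num, by rw [← h]; exact hav⟩
      · exact ⟨3, by norm_num, by rw [← h]; exact hav⟩
    · exact ⟨0, fun h => absurd h ha⟩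
  choose g hg using hex
  have hsplit : ∑ a ∈ H385.BX N, F a =
      ∑ a ∈ (H385.BX N).filter (fun a => a.norm % 2 = 1), F a := by
    rw [Finset.sum_filter]
    refine Finset.sum_congr rfl fun a _ => ?_
    split_ifs with h
    · rfl
    · exact h2 a h
  rw [hsplit, ← Finset.sum_fiberwise_of_maps_to (s := (H385.BX N).filter (fun a => a.norm % 2 = 1))
    (t := (H385.BX N).filter prim) (g := g) (f := F), Finset.smul_sum]
  · refine Finset.sum_congr rfl fun b hb => ?_
    rw [Finset.mem_filter, mem_BX] at hb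
    have hbn : b ≠ 0 := by
      intro h
      rw [h] at hb
      have := hb.1.1
      unfold nrm at this
      simp at this
    have himg : ((H385.BX N).filter (fun a => a.norm % 2 = 1)).filter (fun a => g a = b) =
        (Finset.range 4).image (fun j => im1 ^ j * b) := by
      ext a
      rw [Finset.mem_filter, Finset.mem_filter, Finset.mem_image, mem_BX]
      constructor
      · rintro ⟨⟨h3, h4⟩, h5⟩
        obtain ⟨-, j, hj4, hj5⟩ := hg a h4
        rw [h5] at hj5
        exact ⟨j, Finset.mem_range.2 hj4, hj5.symm⟩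
      · rintro ⟨j, hj4, rfl⟩
        have hodd : (im1 ^ j * b).norm % 2 = 1 := by
          have h3 := Pool.Agent.H304R2.EC.A1.prim_norm_odd hb.2
          rw [Zsqrtd.norm_mul]
          have h4 : (im1 ^ j).norm = 1 := by
            rw [Finset.mem_range] at hj4
            interval_cases j <;> decide
          rw [h4, one_mul]
          exact h3
        refine ⟨⟨by rw [(hj j b).2]; exact hb.1, hodd⟩, ?_⟩
        obtain ⟨k1, k, hk4, hk5⟩ := hg _ hodd
        -- `im1^j b = im1^k (g ..)`, both primary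
        have h5 : (im1 ^ (4 - k + j) * b) = g (im1 ^ j * b) := by
          have e : im1 ^ (4 - k) * im1 ^ k = 1 := by
            rw [← pow_add, Nat.sub_add_cancel hk4.le]
            exact H385.he2_im4
          rw [pow_add, mul_assoc]
          calc im1 ^ (4 - k) * (im1 ^ j * b) =
              im1 ^ (4 - k) * (im1 ^ k * g (im1 ^ j * b)) := by rw [← hk5]
            _ = (im1 ^ (4 - k) * im1 ^ k) * g (im1 ^ j * b) := by ring
            _ = g (im1 ^ j * b) := by rw [e, one_mul]
        rw [← h5] at k1 ⊢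
        have h6 : prim (im1 ^ (4 - k + j)) := by
          rw [mul_comm] at k1
          exact Pool.Agent.H304R2.EC.A1.prim_cancel hb.2 k1
        have h7 : (im1 ^ (4 - k + j)).norm = 1 := by
          have : ∀ m : ℕ, (im1 ^ m).norm = 1 := by
            intro m
            induction m with
            | zero => decide
            | succ m ih => rw [pow_succ, Zsqrtd.norm_mul, ih]; decide
          exact this _
        rw [Pool.Agent.H304R2.EC.A1.eq_one_of_prim h6 h7, one_mul]
    rw [himg, Finset.sum_image]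
    · rw [Finset.sum_congr rfl (g := fun _ => F b) (fun j _ => (hj j b).1), Finset.sum_const,
        Finset.card_range]
    · intro i hi k hk hik
      rw [Finset.mem_coe, Finset.mem_range] at hi hk
      simp only at hik
      have h3 := mul_right_cancel₀ hbn hik
      interval_cases i <;> interval_cases k <;> first | rfl | (revert h3; decide)
  · intro a ha
    rw [Finset.mem_filter, mem_BX] at ha
    rw [Finset.mem_filter, mem_BX]
    obtain ⟨k1, j, hj4, hj5⟩ := hg a ha.2
    refine ⟨?_, k1⟩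
    have h3 := (hj j (g a)).2
    rw [← hj5] at h3
    rw [← h3]
    exact ha.1

end Pool.Agent.Y693.AB
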