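import Pool.Agent.Y693.AB.MS
import Pool.Agent.Y693.AB.PPow
import Pool.Agent.H385R5.HE8b

/-!
Project AB (helper693), part 8: the pointwise bound of the mean square over the family.
-/

set_option autoImplicit false

open Complex
open H385 (ZI RQ im1 chiZ FQs phiQ nrm wZ bn wt BX lamK2 Gq Tl)
open Pool.Agent.H304R3.HK (tc HC CS bb LamK psi bH aH LH)
open Pool.Agent.H304R2.EC.A1 (prim prim_one prim_mul exists_prim norm_def' re_mul' im_mul')
open Pool.Agent.W164.RC (two2)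

namespace Pool.Agent.Y693.AB

theorem prime_of_nrm {a : ZI} (h : (nrm a).Prime) : Prime a := by
  apply Irreducible.prime
  constructor
  · intro hu
    have h1 : nrm a = 1 := Zsqrtd.norm_eq_one_iff.2 hu
    rw [h1] at h
    exact Nat.not_prime_one h
  · intro b c hbc
    have h1 : nrm a = nrm b * nrm c := by rw [hbc, nrm_mul]
    rw [h1, Nat.prime_mul_iff] at h
    rcases h with h | h
    · right
      exact Zsqrtd.norm_eq_one_iff.1 h.2
    · left
      exact Zsqrtd.norm_eq_one_iff.1 h.2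

theorem eq_of_dvd_prim {a b : ZI} (ha : Prime a) (hb : Prime b) (pa : prim a) (pb : prim b)
    (h : a ∣ b) : a = b := by
  obtain ⟨c, hc⟩ := h
  have h1 : IsUnit c := by
    rcases hb.irreducible.isUnit_or_isUnit hc with h | h
    · exact absurd h ha.not_isUnit
    · exact h
  have h2 : prim c := by
    rw [hc] at pb
    exact Pool.Agent.H304R2.EC.A1.prim_cancel pa pb
  have h3 : c.norm = 1 := by
    have h4 := Zsqrtd.norm_eq_one_iff.2 h1
    have h5 := Pool.Agent.H304R3.HK.M4.norm_nn c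
    omega
  rw [hc, Pool.Agent.H304R2.EC.A1.eq_one_of_prim h2 h3, mul_one]

theorem lam_prime {a : ZI} (h : (nrm a).Prime) :
    LamK a = ArithmeticFunction.vonMangoldt (nrm a) := by
  rw [Pool.Agent.H304R3.HK.M4.LamK_eq (prime_of_nrm h) (k := 1) one_pos (by rw [pow_one]),
    ArithmeticFunction.vonMangoldt_apply_prime h]
  congr 1
  unfold H385.nrm
  rw [← Int.cast_natCast, Int.natAbs_of_nonneg (Pool.Agent.H304R3.HK.M4.norm_nn a)]

open Classical in
/-- primary elements of prime norm coprime to `q` -/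
noncomputable def Bp (q : ZI) (N : ℕ) : Finset ZI :=
  ((BX N).filter prim).filter (fun a => IsCoprime a q ∧ (nrm a).Prime)

open Classical in
/-- primary elements whose norm is not a prime number -/
noncomputable def Br (N : ℕ) : Finset ZI :=
  ((BX N).filter prim).filter (fun a => ¬ (nrm a).Prime)

theorem mem_Bp {q : ZI} {N : ℕ} {a : ZI} :
    a ∈ Bp q N ↔ (1 ≤ nrm a ∧ nrm a ≤ N) ∧ prim a ∧ IsCoprime a q ∧ (nrm a).Prime := by
  classical
  unfold Bp
  rw [Finset.mem_filter, Finset.mem_filter, H385.HE4.mem_BX]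
  tauto

theorem mem_Br {N : ℕ} {a : ZI} :
    a ∈ Br N ↔ (1 ≤ nrm a ∧ nrm a ≤ N) ∧ prim a ∧ ¬ (nrm a).Prime := by
  classical
  unfold Br
  rw [Finset.mem_filter, Finset.mem_filter, H385.HE4.mem_BX]
  tauto

theorem wZ_norm_le (q : ZI) (b : ℕ → ℂ) (a : ZI) : ‖wZ q b a‖ ≤ LamK a * ‖b (nrm a)‖ := by
  have h := H385.HE4.wZ_norm q b a
  have h0 := H385.HE5.LamK_nn a
  rw [← mul_pow] at h
  exact (pow_le_pow_iff_left₀ (norm_nonneg _) (mul_nonneg h0 (norm_nonneg _)) two_ne_zero).1 h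

theorem short_split {q : ZI} (hq : q ≠ 0) (h2 : two2 ∣ q) {χ : MulChar (RQ q) ℂ}
    (hχ : χ ∈ FQs q) (N : ℕ) (b : ℕ → ℂ) :
    (1 / 4 : ℂ) * ∑ a ∈ BX N, wZ q b a * chiZ q χ a =
      ∑ a ∈ Bp q N, wZ q b a * chiZ q χ a + ∑ a ∈ Br N, wZ q b a * chiZ q χ a := by
  classical
  have hi : chiZ q χ im1 = -I := ((H385.fq_finite q hq).2.2 χ).1 hχ
  have h1 : ∀ a, wZ q b (im1 * a) * chiZ q χ (im1 * a) = wZ q b a * chiZ q χ a := by
    intro a
    rw [H385.HE4.wZ_im1, map_mul, hi]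
    linear_combination (-(wZ q b a * chiZ q χ a)) * Complex.I_sq
  have h3 : ∀ a : ZI, a.norm % 2 ≠ 1 → wZ q b a * chiZ q χ a = 0 := by
    intro a ha
    rw [H385.HE4.wZ_of_not q b a (fun hc => ha (odd_of_coprime h2 hc)), zero_mul]
  rw [sum_quarter N (fun a => wZ q b a * chiZ q χ a) h1 h3]
  have e : (1 / 4 : ℂ) * (4 • ∑ a ∈ (BX N).filter prim, wZ q b a * chiZ q χ a) =
      ∑ a ∈ (BX N).filter prim, wZ q b a * chiZ q χ a := by
    rw [nsmul_eq_mul]
    push_cast
    ring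
  have e2 : ∑ a ∈ Bp q N, wZ q b a * chiZ q χ a =
      ∑ a ∈ ((BX N).filter prim).filter (fun a => (nrm a).Prime), wZ q b a * chiZ q χ a := by
    unfold Bp
    rw [← Finset.filter_filter, Finset.filter_comm]
    apply Finset.sum_filter_of_ne
    intro a _ hne
    by_contra hcon
    apply hne
    rw [H385.HE4.wZ_of_not q b a hcon, zero_mul]
  rw [e2]
  unfold Br
  rw [Finset.sum_filter_add_sum_filter_not]
  convert e

theorem Br_le (N : ℕ) (b : ℕ → ℂ) :
    ∑ a ∈ Br N, LamK a * ‖b (nrm a)‖ ≤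
      2 * ∑ n ∈ (Finset.Icc 1 N).filter (fun n => ¬ n.Prime),
        ArithmeticFunction.vonMangoldt n * ‖b n‖ := by
  classical
  have hs : 4 • ∑ a ∈ (BX N).filter prim,
      (if a.norm % 2 = 1 ∧ ¬ (nrm a).Prime then LamK a * ‖b (nrm a)‖ else 0) =
      ∑ a ∈ BX N, (if a.norm % 2 = 1 ∧ ¬ (nrm a).Prime then LamK a * ‖b (nrm a)‖ else 0) := by
    rw [sum_quarter N (fun a => if a.norm % 2 = 1 ∧ ¬ (nrm a).Prime then
      LamK a * ‖b (nrm a)‖ else 0)]
    · intro a
      have e1 : (im1 * a).norm = a.norm := by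
        rw [Zsqrtd.norm_mul]
        have : im1.norm = 1 := by decide
        rw [this, one_mul]
      rw [H385.HE4.nrm_im1, e1]
      have e2 : LamK (im1 * a) = LamK a := Pool.Agent.H304R3.HK.M4.LamK_ii a
      rw [e2]
    · intro a ha
      rw [if_neg]
      intro h
      exact ha h.1
  have e1 : ∑ a ∈ Br N, LamK a * ‖b (nrm a)‖ = ∑ a ∈ (BX N).filter prim,
      (if a.norm % 2 = 1 ∧ ¬ (nrm a).Prime then LamK a * ‖b (nrm a)‖ else 0) := by
    unfold Br
    rw [Finset.sum_filter]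
    refine Finset.sum_congr rfl fun a ha => ?_
    rw [Finset.mem_filter] at ha
    have h3 := Pool.Agent.H304R2.EC.A1.prim_norm_odd ha.2
    by_cases hp : (nrm a).Prime
    · rw [if_neg (not_not.2 hp), if_neg (fun h => h.2 hp)]
    · rw [if_pos hp, if_pos ⟨h3, hp⟩]
  have e3 : ∑ a ∈ BX N, (if a.norm % 2 = 1 ∧ ¬ (nrm a).Prime then LamK a * ‖b (nrm a)‖ else 0) ≤
      8 * ∑ n ∈ (Finset.Icc 1 N).filter (fun n => ¬ n.Prime),
        ArithmeticFunction.vonMangoldt n * ‖b n‖ := by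
    have k1 : ∀ a ∈ BX N, (if a.norm % 2 = 1 ∧ ¬ (nrm a).Prime then LamK a * ‖b (nrm a)‖ else 0) ≤
        (if ¬ (nrm a).Prime then LamK a * ‖b (nrm a)‖ else 0) := by
      intro a _
      have h0 : 0 ≤ LamK a * ‖b (nrm a)‖ := mul_nonneg (H385.HE5.LamK_nn a) (norm_nonneg _)
      by_cases h : a.norm % 2 = 1 ∧ ¬ (nrm a).Prime
      · rw [if_pos h, if_pos h.2]
      · rw [if_neg h]
        by_cases h' : ¬ (nrm a).Prime
        · rw [if_pos h']
          exact h0
        · rw [if_neg h']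
    refine (Finset.sum_le_sum k1).trans ?_
    rw [← Finset.sum_fiberwise_of_maps_to (s := BX N) (t := Finset.Icc 1 N) (g := nrm)
      (fun a ha => by rw [Finset.mem_Icc]; exact (H385.HE4.mem_BX N a).1 ha),
      Finset.sum_filter, Finset.mul_sum]
    refine Finset.sum_le_sum fun n hn => ?_
    rw [Finset.mem_Icc] at hn
    have h1 : (BX N).filter (fun a => nrm a = n) = Pool.Agent.H304R3.HK.M4.T n := by
      ext a
      rw [Finset.mem_filter, H385.HE4.mem_BX, Pool.Agent.H304R3.HK.M4.mem_T]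
      have h5 := Pool.Agent.H304R3.HK.M4.norm_nn a
      constructor
      · rintro ⟨-, h⟩
        rw [← h]
        unfold H385.nrm
        omega
      · intro h
        have h2 : nrm a = n := by unfold H385.nrm; omega
        rw [h2]
        exact ⟨hn, rfl⟩
    by_cases hp : n.Prime
    · rw [if_neg (not_not.2 hp), mul_zero]
      apply le_of_eq
      apply Finset.sum_eq_zero
      intro a ha
      rw [(Finset.mem_filter.1 ha).2, if_neg (not_not.2 hp)]
    · rw [if_pos hp]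
      have h3 : ∑ a ∈ (BX N).filter (fun a => nrm a = n),
          (if ¬ (nrm a).Prime then LamK a * ‖b (nrm a)‖ else 0) =
          (∑ a ∈ Pool.Agent.H304R3.HK.M4.T n, LamK a) * ‖b n‖ := by
        rw [Finset.sum_mul, ← h1]
        refine Finset.sum_congr rfl fun a ha => ?_
        rw [(Finset.mem_filter.1 ha).2, if_pos hp]
      rw [h3]
      have h4 := H385.HE5.lam_le n
      have h5 := mul_le_mul_of_nonneg_right h4 (norm_nonneg (b n))
      linarith
  have e4 : (4 : ℝ) * ∑ a ∈ Br N, LamK a * ‖b (nrm a)‖ =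
      ∑ a ∈ BX N, (if a.norm % 2 = 1 ∧ ¬ (nrm a).Prime then LamK a * ‖b (nrm a)‖ else 0) := by
    rw [e1, ← hs, nsmul_eq_mul]
    push_cast
    ring
  linarith

theorem Bp_le (q : ZI) (N : ℕ) (b : ℕ → ℂ) :
    ∑ a ∈ Bp q N, ‖wZ q b a‖ ^ 2 ≤ ∑ n ∈ Finset.Icc 1 N, lamK2 n * ‖b n‖ ^ 2 := by
  classical
  have hs : 4 • ∑ a ∈ (BX N).filter prim,
      (if a.norm % 2 = 1 then LamK a ^ 2 * ‖b (nrm a)‖ ^ 2 else 0) =
      ∑ a ∈ BX N, (if a.norm % 2 = 1 then LamK a ^ 2 * ‖b (nrm a)‖ ^ 2 else 0) := by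
    rw [sum_quarter N (fun a => if a.norm % 2 = 1 then
      LamK a ^ 2 * ‖b (nrm a)‖ ^ 2 else 0)]
    · intro a
      have e1 : (im1 * a).norm = a.norm := by
        rw [Zsqrtd.norm_mul]
        have : im1.norm = 1 := by decide
        rw [this, one_mul]
      rw [H385.HE4.nrm_im1, e1]
      have e2 : LamK (im1 * a) = LamK a := Pool.Agent.H304R3.HK.M4.LamK_ii a
      rw [e2]
    · intro a ha
      rw [if_neg ha]
  have e1 : ∑ a ∈ Bp q N, ‖wZ q b a‖ ^ 2 ≤ ∑ a ∈ (BX N).filter prim,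
      (if a.norm % 2 = 1 then LamK a ^ 2 * ‖b (nrm a)‖ ^ 2 else 0) := by
    refine le_trans (Finset.sum_le_sum (g := fun a => if a.norm % 2 = 1 then
      LamK a ^ 2 * ‖b (nrm a)‖ ^ 2 else 0) ?_) ?_
    · intro a ha
      rw [mem_Bp] at ha
      rw [if_pos (Pool.Agent.H304R2.EC.A1.prim_norm_odd ha.2.1)]
      exact H385.HE4.wZ_norm q b a
    · apply Finset.sum_le_sum_of_subset_of_nonneg
      · unfold Bp
        exact Finset.filter_subset _ _
      · intro a _ _
        split_ifs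
        · positivity
        · exact le_rfl
  have e3 : ∑ a ∈ BX N, (if a.norm % 2 = 1 then LamK a ^ 2 * ‖b (nrm a)‖ ^ 2 else 0) ≤
      4 * ∑ n ∈ Finset.Icc 1 N, lamK2 n * ‖b n‖ ^ 2 := by
    rw [← H385.HE4.group]
    refine Finset.sum_le_sum fun a _ => ?_
    split_ifs
    · exact le_rfl
    · positivity
  have e4 : (4 : ℝ) * ∑ a ∈ (BX N).filter prim,
      (if a.norm % 2 = 1 then LamK a ^ 2 * ‖b (nrm a)‖ ^ 2 else 0) =
      ∑ a ∈ BX N, (if a.norm % 2 = 1 then LamK a ^ 2 * ‖b (nrm a)‖ ^ 2 else 0) := by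
    rw [← hs, nsmul_eq_mul]
    push_cast
    ring
  linarith

end Pool.Agent.Y693.AB
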