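import Pool.Agent.Y693.AB.Tup

/-!
Project AB (helper693), part 3: the choice of the exponent `j`.
-/

set_option autoImplicit false

open H385 (ZI RQ nrm)

namespace Pool.Agent.Y693.AB

theorem choose_j (θ' lA lN : ℝ) (h0 : 0 < θ') (h3 : θ' ≤ 1 / 3) (hA : 0 < lA) (hN : 0 < lN)
    (hAN : lA ≤ (1 - θ') * lN) : ∃ j : ℕ, 1 ≤ j ∧ θ' * lN ≤ j * lA ∧ j * lA ≤ (1 - θ') * lN ∧
      (j : ℝ) ≤ 1 + lN / lA := by
  by_cases h : θ' * lN ≤ lA
  · refine ⟨1, le_rfl, by simpa using h, by simpa using hAN, ?_⟩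
    have : 0 ≤ lN / lA := by positivity
    push_cast
    linarith
  · rw [not_le] at h
    have h1 : 0 < θ' * lN / lA := by positivity
    refine ⟨⌈θ' * lN / lA⌉₊, Nat.ceil_pos.2 h1, ?_, ?_, ?_⟩
    · have h2 := Nat.le_ceil (θ' * lN / lA)
      rwa [div_le_iff₀ hA] at h2
    · have h2 := (Nat.ceil_lt_add_one h1.le).le
      have h4 : (⌈θ' * lN / lA⌉₊ : ℝ) * lA ≤ (θ' * lN / lA + 1) * lA :=
        mul_le_mul_of_nonneg_right h2 hA.le
      have h5 : (θ' * lN / lA + 1) * lA = θ' * lN + lA := by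
        field_simp
      nlinarith
    · have h2 := (Nat.ceil_lt_add_one h1.le).le
      have h4 : θ' * lN / lA ≤ lN / lA := by
        apply div_le_div_of_nonneg_right _ hA.le
        nlinarith
      linarith

/-- the saving -/
noncomputable def tau (θ θ' : ℝ) : ℝ := min (1 - θ / θ') ((1 - θ) / (1 - θ') - 1)

theorem tau_pos {θ θ' : ℝ} (h0 : 0 < θ) (h1 : θ < θ') (h2 : θ' ≤ 1 / 3) : 0 < tau θ θ' := by
  unfold tau
  have hθ' : 0 < θ' := by linarith
  apply lt_min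
  · rw [sub_pos, div_lt_one hθ']; exact h1
  · rw [sub_pos, one_lt_div (by linarith)]; linarith

theorem tau_le {θ θ' : ℝ} (h0 : 0 < θ) (h1 : θ < θ') : tau θ θ' ≤ 1 := by
  unfold tau
  have hθ' : 0 < θ' := by linarith
  refine (min_le_left _ _).trans ?_
  have : 0 ≤ θ / θ' := by positivity
  linarith

/-- the bound of `card_PP_le` for the best `j` -/
theorem PP_bound (θ θ' : ℝ) (h0 : 0 < θ) (h1 : θ < θ') (h2 : θ' ≤ 1 / 3) (q : ZI) (hq : q ≠ 0)
    (V : Subgroup (RQ q)ˣ) (hV : (Nat.card V : ℝ) ≤ (nrm q : ℝ) ^ θ) (Pr : Finset ZI)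
    (hp : ∀ a ∈ Pr, Prime a) (hdvd : ∀ a ∈ Pr, ∀ b ∈ Pr, a ∣ b → a = b) (A : ℕ)
    (hA2 : 2 ≤ A) (hAN : (A : ℝ) ≤ (nrm q : ℝ) ^ (1 - θ'))
    (hA : ∀ a ∈ Pr, nrm a ≤ A) :
    ((PP V Pr).card : ℝ) ≤ 2242 * (1 + Real.log (nrm q) / Real.log A) ^ 2 *
      (A : ℝ) ^ (1 - tau θ θ') := by
  have hθ' : 0 < θ' := by linarith
  have hA0 : (0 : ℝ) < A := by
    have : 0 < A := by omega
    exact_mod_cast this
  have hA1 : (1 : ℝ) < A := by
    have : 1 < A := by omega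
    exact_mod_cast this
  set N : ℝ := (nrm q : ℝ) with hNdef
  have hN1 : 1 ≤ N := by
    rw [hNdef]
    exact_mod_cast nrm_pos hq
  have hN0 : 0 < N := by linarith
  have hlA : 0 < Real.log A := Real.log_pos hA1
  have hlAN : Real.log A ≤ (1 - θ') * Real.log N := by
    rw [← Real.log_rpow hN0]
    exact Real.log_le_log hA0 hAN
  have hlN : 0 < Real.log N := by
    by_contra hcon
    have h3 : Real.log N = 0 := le_antisymm (not_lt.1 hcon) (Real.log_nonneg hN1)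
    rw [h3] at hlAN
    linarith
  obtain ⟨j, hj1, hj2, hj3, hj4⟩ := choose_j θ' (Real.log A) (Real.log N) hθ' h2 hlA hlN hlAN
  have hj0 : (0 : ℝ) < j := by
    have : 0 < j := by omega
    exact_mod_cast this
  have hmain := card_PP_le q hq V Pr hp hdvd A hA j hj1
  set τ := tau θ θ' with hτ
  have hτ0 : 0 < τ := tau_pos h0 h1 h2
  have hτ1 : τ ≤ 1 := tau_le h0 h1
  have e1 : τ ≤ 1 - θ / θ' := min_le_left _ _
  have e2 : τ ≤ (1 - θ) / (1 - θ') - 1 := min_le_right _ _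
  -- the two exponentials
  have a1 : (N ^ θ) ^ (1 / (j : ℝ)) ≤ (A : ℝ) ^ (1 - τ) := by
    rw [← Real.rpow_mul hN0.le, Real.rpow_def_of_pos hN0, Real.rpow_def_of_pos hA0]
    apply Real.exp_le_exp.2
    have b1 : Real.log N * (θ * (1 / (j : ℝ))) ≤ θ / θ' * Real.log A := by
      rw [mul_one_div, mul_div_assoc', div_le_iff₀ hj0]
      have b2 : Real.log N * θ = θ / θ' * (θ' * Real.log N) := by field_simp
      rw [b2]
      calc θ / θ' * (θ' * Real.log N) ≤ θ / θ' * (j * Real.log A) :=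
            mul_le_mul_of_nonneg_left hj2 (by positivity)
        _ = _ := by ring
    nlinarith
  have a2 : (N ^ (θ - 1) * ((A : ℝ) ^ j) ^ 2) ^ (1 / (j : ℝ)) ≤ (A : ℝ) ^ (1 - τ) := by
    have b0 : N ^ (θ - 1) * ((A : ℝ) ^ j) ^ 2 =
        Real.exp (Real.log N * (θ - 1) + Real.log A * (2 * j)) := by
      rw [Real.exp_add, ← Real.rpow_def_of_pos hN0, ← Real.rpow_def_of_pos hA0]
      congr 1
      rw [← pow_mul, ← Real.rpow_natCast]
      congr 1
      push_cast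
      ring
    rw [b0, ← Real.exp_mul, Real.rpow_def_of_pos hA0]
    apply Real.exp_le_exp.2
    have b1 : (Real.log N * (θ - 1) + Real.log A * (2 * j)) * (1 / (j : ℝ)) =
        2 * Real.log A - (1 - θ) * (Real.log N / j) := by
      field_simp
      ring
    rw [b1]
    have b2 : Real.log A / (1 - θ') ≤ Real.log N / j := by
      rw [div_le_div_iff₀ (by linarith) hj0]
      linarith
    have b3 : (1 - θ) * (Real.log A / (1 - θ')) ≤ (1 - θ) * (Real.log N / j) :=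
      mul_le_mul_of_nonneg_left b2 (by linarith)
    have b4 : (1 - θ) * (Real.log A / (1 - θ')) = ((1 - θ) / (1 - θ')) * Real.log A := by ring
    rw [b4] at b3
    nlinarith
  have hX : (33 * (Nat.card V : ℝ) * (1 + 32 * ((A : ℝ) ^ j) ^ 2 / N)) ^ (1 / (j : ℝ)) ≤
      1089 * (A : ℝ) ^ (1 - τ) := by
    have hj1' : 1 / (j : ℝ) ≤ 1 := by
      rw [div_le_one hj0]
      exact_mod_cast hj1
    have c1 : 33 * (Nat.card V : ℝ) * (1 + 32 * ((A : ℝ) ^ j) ^ 2 / N) ≤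
        1089 * max (N ^ θ) (N ^ (θ - 1) * ((A : ℝ) ^ j) ^ 2) := by
      have d1 : N ^ (θ - 1) = N ^ θ / N := by
        rw [Real.rpow_sub hN0, Real.rpow_one]
      have d2 : (Nat.card V : ℝ) * (1 + 32 * ((A : ℝ) ^ j) ^ 2 / N) ≤
          N ^ θ * (1 + 32 * ((A : ℝ) ^ j) ^ 2 / N) :=
        mul_le_mul_of_nonneg_right hV (by positivity)
      have d3 : N ^ θ * (1 + 32 * ((A : ℝ) ^ j) ^ 2 / N) =
          N ^ θ + 32 * (N ^ (θ - 1) * ((A : ℝ) ^ j) ^ 2) := by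
        rw [d1]; ring
      have d4 := le_max_left (N ^ θ) (N ^ (θ - 1) * ((A : ℝ) ^ j) ^ 2)
      have d5 := le_max_right (N ^ θ) (N ^ (θ - 1) * ((A : ℝ) ^ j) ^ 2)
      nlinarith
    refine (Real.rpow_le_rpow (by positivity) c1 (by positivity)).trans ?_
    rw [Real.mul_rpow (by norm_num) (le_max_of_le_left (by positivity))]
    have c2 : (1089 : ℝ) ^ (1 / (j : ℝ)) ≤ 1089 := by
      calc (1089 : ℝ) ^ (1 / (j : ℝ)) ≤ (1089 : ℝ) ^ (1 : ℝ) :=
            Real.rpow_le_rpow_of_exponent_le (by norm_num) hj1'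
        _ = 1089 := Real.rpow_one _
    have c3 : (max (N ^ θ) (N ^ (θ - 1) * ((A : ℝ) ^ j) ^ 2)) ^ (1 / (j : ℝ)) ≤
        (A : ℝ) ^ (1 - τ) := by
      rcases max_choice (N ^ θ) (N ^ (θ - 1) * ((A : ℝ) ^ j) ^ 2) with h | h
      · rw [h]; exact a1
      · rw [h]; exact a2
    exact mul_le_mul c2 c3 (Real.rpow_nonneg (le_max_of_le_left (by positivity)) _) (by norm_num)
  have hApos : 1 ≤ (A : ℝ) ^ (1 - τ) := Real.one_le_rpow hA1.le (by linarith)
  have hj5 : (j : ℝ) ^ 2 ≤ (1 + Real.log N / Real.log A) ^ 2 := pow_le_pow_left₀ hj0.le hj4 2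
  calc ((PP V Pr).card : ℝ) ≤ 64 * (j : ℝ) ^ 2 + 2 * (j : ℝ) ^ 2 *
      (33 * (Nat.card V : ℝ) * (1 + 32 * ((A : ℝ) ^ j) ^ 2 / N)) ^ (1 / (j : ℝ)) := hmain
    _ ≤ 64 * (j : ℝ) ^ 2 * (A : ℝ) ^ (1 - τ) + 2 * (j : ℝ) ^ 2 * (1089 * (A : ℝ) ^ (1 - τ)) := by
        refine add_le_add ?_ (mul_le_mul_of_nonneg_left hX (by positivity))
        exact le_mul_of_one_le_right (by positivity) hApos
    _ = 2242 * (j : ℝ) ^ 2 * (A : ℝ) ^ (1 - τ) := by ring
    _ ≤ _ := by gcongr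

end Pool.Agent.Y693.AB
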