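import Pool.Agent.Y693.AB.MS2

/-!
Project AB (helper693), part 9: the pointwise bound of the mean square over the family.
-/

set_option autoImplicit false

open Complex MeasureTheory
open H385 (ZI RQ im1 chiZ FQs phiQ nrm wZ bn wt BX lamK2 Gq Tl)
open Pool.Agent.H304R3.HK (tc HC CS bb LamK psi bH aH LH)
open Pool.Agent.H304R2.EC.A1 (prim prim_one prim_mul exists_prim norm_def' re_mul' im_mul')
open Pool.Agent.W164.RC (two2)

namespace Pool.Agent.Y693.AB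

theorem card_FU_pos {q : ZI} (hq : q ≠ 0) (h2 : two2 ∣ q) (V : Subgroup (RQ q)ˣ) :
    0 < (FU q V).card := by
  have h := card_FU_U1 hq h2 V
  obtain ⟨-, hφ, -⟩ := H385.fq_finite q hq
  rcases Nat.eq_zero_or_pos (FU q V).card with h0 | h0
  · rw [h0] at h
    omega
  · exact h0

theorem norm_pr_le {d : ZI} {χ : ZI →* ℂ} (h : HC d χ) (a : ZI) : ‖χ a‖ ≤ 1 := by
  by_cases h0 : χ a = 0
  · rw [h0, norm_zero]; exact zero_le_one
  · exact (h.nrm a ((h.supp a).1 h0)).le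

/-- pointwise bound -/
theorem fu_pt (θ θ' : ℝ) (h0 : 0 < θ) (h1 : θ < θ') (h2 : θ' ≤ 1 / 3) : ∃ c M : ℝ, 0 < c ∧ 0 < M ∧
    ∀ ε : ℝ, 0 < ε → ∃ C : ℝ, 0 < C ∧
    ∀ (δ : ℝ) (_ : 0 < δ) (q : ZI) (_ : q ≠ 0) (_ : two2 ∣ q) (V : Subgroup (RQ q)ˣ)
      (_ : (Nat.card V : ℝ) ≤ (nrm q : ℝ) ^ θ)
      (cd : MulChar (RQ q) ℂ → ZI) (pr : MulChar (RQ q) ℂ → (ZI →* ℂ))
      (_ : ∀ χ ∈ FU q V, HC (cd χ) (pr χ) ∧ ∀ a : ZI, IsCoprime a q → pr χ a = chiZ q χ a)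
      (N : ℕ) (_ : (N : ℝ) ≤ (nrm q : ℝ) ^ (1 - θ')) (T u t : ℝ) (_ : 0 ≤ T) (_ : 0 ≤ u)
      (_ : Tl N u ≤ 1),
      ∑ χ ∈ FU q V, (1 / ((FU q V).card : ℝ)) * ‖∑' n : ℕ, aH (pr χ) n * bn T u t n‖ ^ 2 ≤
        (1 + δ) * (∑ n ∈ Finset.Icc 1 N, lamK2 n * ‖bn T u t n‖ ^ 2) +
        wt T t ^ 2 * ((1 + δ) * (C + ε * (1 + Real.log (nrm q)) ^ 2 * Real.exp (-(c * u))) +
          (1 + 1 / δ) * (M * (Gq (nrm q) u + 1) ^ 2)) := by
  classical
  obtain ⟨c, hc, hoff⟩ := off_bound θ θ' h0 h1 h2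
  obtain ⟨Cp, hCp, hpp⟩ := pp_bound
  refine ⟨c, (2 + 2 * Cp) ^ 2, hc, by positivity, fun ε hε => ?_⟩
  obtain ⟨C, hC, hoff⟩ := hoff ε hε
  refine ⟨C, hC, ?_⟩
  intro δ hδ q hq hq2 V hV cd pr hpr N hN T u t hT hu hTl
  set b := bn T u t with hb
  have hw := H385.wt_nonneg T t hT
  have hG := H385.Gq_nonneg (nrm q) u
  have hcn := card_FU_pos hq hq2 V
  have hc0 : (0 : ℝ) < (FU q V).card := by exact_mod_cast hcn
  have hbb : ∀ n : ℕ, ArithmeticFunction.vonMangoldt n * ‖b n‖ ≤ wt T t * Gw u n := by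
    intro n
    have := H385.b_bound T u t hT n
    unfold Gw
    exact this
  -- the contribution of each character
  have hpt : ∀ χ ∈ FU q V, ‖∑' n : ℕ, aH (pr χ) n * b n‖ ^ 2 ≤
      (1 + δ) * ‖∑ a ∈ Bp q N, wZ q b a * chiZ q χ a‖ ^ 2 +
      (1 + 1 / δ) * (wt T t ^ 2 * ((2 + 2 * Cp) ^ 2 * (Gq (nrm q) u + 1) ^ 2)) := by
    intro χ hχ
    obtain ⟨p1, p2⟩ := hpr χ hχ
    have hχ2 := (mem_FU.1 hχ).1
    have k1 := H385.he_point q (cd χ) hq χ (pr χ) p1 p2 N T u t hT hu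
    rw [short_split hq hq2 hχ2 N] at k1
    set P := ∑ a ∈ Bp q N, wZ q b a * chiZ q χ a with hP
    set R := ∑ a ∈ Br N, wZ q b a * chiZ q χ a with hR
    set S := ∑' n : ℕ, aH (pr χ) n * b n with hS
    have hRn : ‖R‖ ≤ wt T t * (2 * Cp) := by
      have e1 : ∀ a ∈ Br N, ‖wZ q b a * chiZ q χ a‖ ≤ LamK a * ‖b (nrm a)‖ := by
        intro a _
        rw [norm_mul]
        by_cases hca : IsCoprime a q
        · rw [← p2 a hca]
          have e2 := norm_pr_le p1 a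
          calc ‖wZ q b a‖ * ‖pr χ a‖ ≤ ‖wZ q b a‖ * 1 :=
                mul_le_mul_of_nonneg_left e2 (norm_nonneg _)
            _ = ‖wZ q b a‖ := mul_one _
            _ ≤ _ := wZ_norm_le q b a
        · rw [H385.HE4.wZ_of_not q b a hca, norm_zero, zero_mul]
          exact mul_nonneg (H385.HE5.LamK_nn a) (norm_nonneg _)
      have e3 := (norm_sum_le (Br N) (fun a => wZ q b a * chiZ q χ a)).trans
        (Finset.sum_le_sum e1)
      have e4 := Br_le N b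
      have e5 : ∑ n ∈ (Finset.Icc 1 N).filter (fun n => ¬ n.Prime),
          ArithmeticFunction.vonMangoldt n * ‖b n‖ ≤ wt T t * Cp := by
        refine (Finset.sum_le_sum fun n _ => hbb n).trans ?_
        rw [← Finset.mul_sum]
        exact mul_le_mul_of_nonneg_left (hpp u N) hw
      rw [hR]
      linarith
    have hE : ‖R + (S - (P + R))‖ ≤ wt T t * ((2 + 2 * Cp) * (Gq (nrm q) u + 1)) := by
      refine (norm_add_le _ _).trans ?_
      have e6 : wt T t * (2 * (Gq (nrm q) u + Tl N u)) ≤ wt T t * (2 * (Gq (nrm q) u + 1)) :=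
        mul_le_mul_of_nonneg_left (by linarith) hw
      have e7 : wt T t * (2 * Cp) ≤ wt T t * (2 * Cp * (Gq (nrm q) u + 1)) := by
        refine mul_le_mul_of_nonneg_left ?_ hw
        have : 0 ≤ 2 * Cp * Gq (nrm q) u := by positivity
        linarith
      calc _ ≤ wt T t * (2 * Cp) + wt T t * (2 * (Gq (nrm q) u + Tl N u)) := add_le_add hRn k1
        _ ≤ wt T t * (2 * Cp * (Gq (nrm q) u + 1)) + wt T t * (2 * (Gq (nrm q) u + 1)) :=
            add_le_add e7 e6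
        _ = _ := by ring
    have hE2 : ‖R + (S - (P + R))‖ ^ 2 ≤
        wt T t ^ 2 * ((2 + 2 * Cp) ^ 2 * (Gq (nrm q) u + 1) ^ 2) := by
      refine (pow_le_pow_left₀ (norm_nonneg _) hE 2).trans (le_of_eq ?_)
      ring
    have e8 : S = P + (R + (S - (P + R))) := by ring
    rw [e8]
    refine (H385.FamLS.sq_add_le P _ δ hδ).trans ?_
    have h5 : 0 ≤ 1 + 1 / δ := by positivity
    have h6 := mul_le_mul_of_nonneg_left hE2 h5
    linarith
  -- the mean square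
  have hms := ms_general hq hq2 V (Bp q N) (fun a ha => by
    rw [mem_Bp] at ha
    exact ⟨ha.2.1, ha.2.2.1⟩) (wZ q b)
  have hdiag := Bp_le q N b
  have hoffd : ∑ p ∈ PP V (Bp q N), ‖wZ q b p.1‖ * ‖wZ q b p.2‖ ≤
      wt T t ^ 2 * (C + ε * (1 + Real.log (nrm q)) ^ 2 * Real.exp (-(c * u))) := by
    have k2 : ∀ a ∈ Bp q N, ‖wZ q b a‖ ≤ wt T t * Gw u (nrm a) := by
      intro a ha
      rw [mem_Bp] at ha
      refine (wZ_norm_le q b a).trans ?_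
      rw [lam_prime ha.2.2.2]
      exact hbb _
    have k3 : ∑ p ∈ PP V (Bp q N), ‖wZ q b p.1‖ * ‖wZ q b p.2‖ ≤
        ∑ p ∈ PP V (Bp q N), wt T t ^ 2 * (Gw u (nrm p.1) * Gw u (nrm p.2)) := by
      refine Finset.sum_le_sum fun p hp => ?_
      rw [mem_PP] at hp
      have g1 := Gw_nonneg u (nrm p.1)
      calc _ ≤ (wt T t * Gw u (nrm p.1)) * (wt T t * Gw u (nrm p.2)) :=
            mul_le_mul (k2 _ hp.1) (k2 _ hp.2.1) (norm_nonneg _) (by positivity)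
        _ = _ := by ring
    refine k3.trans ?_
    rw [← Finset.mul_sum]
    refine mul_le_mul_of_nonneg_left ?_ (sq_nonneg _)
    refine hoff q hq V hV (Bp q N) (fun a ha => prime_of_nrm (mem_Bp.1 ha).2.2.2) ?_ N hN ?_ u hu
    · intro a ha b' hb' hab
      rw [mem_Bp] at ha hb'
      exact eq_of_dvd_prim (prime_of_nrm ha.2.2.2) (prime_of_nrm hb'.2.2.2) ha.2.1 hb'.2.1 hab
    · intro a ha
      rw [mem_Bp] at ha
      refine ⟨?_, ha.1.2⟩
      have h5 := Pool.Agent.H304R2.EC.A1.prim_norm_odd ha.2.1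
      have h6 := ha.2.2.2.two_le
      have h7 := Pool.Agent.H304R3.HK.M4.norm_nn a
      unfold H385.nrm at h6 ⊢
      omega
  calc ∑ χ ∈ FU q V, (1 / ((FU q V).card : ℝ)) * ‖∑' n : ℕ, aH (pr χ) n * b n‖ ^ 2 ≤
      ∑ χ ∈ FU q V, (1 / ((FU q V).card : ℝ)) * ((1 + δ) *
        ‖∑ a ∈ Bp q N, wZ q b a * chiZ q χ a‖ ^ 2 +
      (1 + 1 / δ) * (wt T t ^ 2 * ((2 + 2 * Cp) ^ 2 * (Gq (nrm q) u + 1) ^ 2))) :=
        Finset.sum_le_sum fun χ hχ => mul_le_mul_of_nonneg_left (hpt χ hχ) (by positivity)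
    _ = (1 + δ) * ((1 / ((FU q V).card : ℝ)) * ∑ χ ∈ FU q V,
        ‖∑ a ∈ Bp q N, wZ q b a * chiZ q χ a‖ ^ 2) +
      (1 + 1 / δ) * (wt T t ^ 2 * ((2 + 2 * Cp) ^ 2 * (Gq (nrm q) u + 1) ^ 2)) := by
        simp only [mul_add, Finset.sum_add_distrib, Finset.sum_const, nsmul_eq_mul,
          ← Finset.mul_sum]
        field_simp
    _ ≤ (1 + δ) * ((∑ n ∈ Finset.Icc 1 N, lamK2 n * ‖b n‖ ^ 2) +
          wt T t ^ 2 * (C + ε * (1 + Real.log (nrm q)) ^ 2 * Real.exp (-(c * u)))) +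
      (1 + 1 / δ) * (wt T t ^ 2 * ((2 + 2 * Cp) ^ 2 * (Gq (nrm q) u + 1) ^ 2)) := by
        refine add_le_add (mul_le_mul_of_nonneg_left ?_ (by positivity)) le_rfl
        calc (1 / ((FU q V).card : ℝ)) * ∑ χ ∈ FU q V,
            ‖∑ a ∈ Bp q N, wZ q b a * chiZ q χ a‖ ^ 2 ≤
            (1 / ((FU q V).card : ℝ)) * (((FU q V).card : ℝ) * (∑ a ∈ Bp q N, ‖wZ q b a‖ ^ 2 +
              ∑ p ∈ PP V (Bp q N), ‖wZ q b p.1‖ * ‖wZ q b p.2‖)) :=
              mul_le_mul_of_nonneg_left hms (by positivity)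
          _ = ∑ a ∈ Bp q N, ‖wZ q b a‖ ^ 2 +
              ∑ p ∈ PP V (Bp q N), ‖wZ q b p.1‖ * ‖wZ q b p.2‖ := by
              rw [← mul_assoc, one_div_mul_cancel hc0.ne', one_mul]
          _ ≤ _ := add_le_add hdiag hoffd
    _ = _ := by ring

end Pool.Agent.Y693.AB
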