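import Pool.Agent.Y693.AB.Fam

/-!
Project AB (helper693): splitting of the primes of `ℤ[i]` in an abelian extension of `ℚ(i)`.
-/

set_option autoImplicit false

open NumberField IsDedekindDomain
open H385 (ZI RQ im1 chiZ FQs phiQ nrm)
open Pool.Agent.H304R2.EC.A1 (prim prim_one)
open Pool.Agent.W164.RC (two2 not_mem_both split_abs Ip Ip_spec)

namespace Pool.Agent.Y693.AB

/-- `K` is a finite abelian extension of `ℚ(i)` whose conductor divides `q`: `ι` embeds `ℤ[i]` into
the ring of integers of `K`, and `art` is the Artin map. -/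
structure IsAbelianExtension (q : GaussianInt) (K : Type) [Field K] [NumberField K]
    (ι : GaussianInt →+* 𝓞 K)
    (art : (GaussianInt ⧸ Ideal.span {q})ˣ →* (𝓞 K ≃+* 𝓞 K)) : Prop where
  invariants : ∀ x : 𝓞 K, (∀ u, art u x = x) ↔ x ∈ ι.range
  units : ∀ (u : (GaussianInt ⧸ Ideal.span {q})ˣ) (e : GaussianIntˣ),
    (u : GaussianInt ⧸ Ideal.span {q}) = Ideal.Quotient.mk _ (e : GaussianInt) → art u = 1
  unramified : ∀ v : HeightOneSpectrum (𝓞 K), ι q ∉ v.asIdeal →
    ∀ u, (∀ x, art u x - x ∈ v.asIdeal) → art u = 1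
  frobenius : ∀ π : GaussianInt, Prime π → ∀ u : (GaussianInt ⧸ Ideal.span {q})ˣ,
    (u : GaussianInt ⧸ Ideal.span {q}) = Ideal.Quotient.mk _ π →
    ∀ v : HeightOneSpectrum (𝓞 K), ι π ∈ v.asIdeal →
      ∀ x : 𝓞 K, art u x - x ^ π.norm.natAbs ∈ v.asIdeal

/-- the order of `z` modulo `V` -/
noncomputable def fV {q : ZI} (V : Subgroup (RQ q)ˣ) (z : ZI) : ℕ :=
  open Classical in if h : IsCoprime z q then
    orderOf (QuotientGroup.mk (H385.he2_unit h).choose : (RQ q)ˣ ⧸ V) else 0

theorem fV_eq {q : ZI} (V : Subgroup (RQ q)ˣ) {z : ZI} (u : (RQ q)ˣ)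
    (hu : (u : RQ q) = Ideal.Quotient.mk (Ideal.span {q}) z) :
    fV V z = orderOf (QuotientGroup.mk u : (RQ q)ˣ ⧸ V) := by
  classical
  have hc := coprime_of_unit hu
  unfold fV
  rw [dif_pos hc]
  congr 2
  apply Units.ext
  rw [hu]
  exact (H385.he2_unit hc).choose_spec

theorem fV_dvd {q : ZI} (V : Subgroup (RQ q)ˣ) {z : ZI} (u : (RQ q)ˣ)
    (hu : (u : RQ q) = Ideal.Quotient.mk (Ideal.span {q}) z) (k : ℕ) :
    u ^ k ∈ V ↔ fV V z ∣ k := by
  rw [fV_eq V u hu, orderOf_dvd_iff_pow_eq_one, ← QuotientGroup.mk_pow, QuotientGroup.eq_one_iff]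

theorem fV_pos {q : ZI} (hq : q ≠ 0) (V : Subgroup (RQ q)ˣ) {z : ZI} (hc : IsCoprime z q) :
    0 < fV V z := by
  have hfq := H385.he1_finite hq
  have hfu : Finite (RQ q)ˣ := inferInstance
  obtain ⟨u, hu⟩ := H385.he2_unit hc
  rw [fV_eq V u hu]
  exact orderOf_pos (QuotientGroup.mk u : (RQ q)ˣ ⧸ V)

section
variable {q : ZI} {K : Type} [Field K] [NumberField K] {ι : ZI →+* 𝓞 K}
  {art : (RQ q)ˣ →* (𝓞 K ≃+* 𝓞 K)}

theorem NU_le_ker (H : IsAbelianExtension q K ι art) : NU q ≤ art.ker := by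
  intro u hu
  rw [mem_NU] at hu
  obtain ⟨e, he⟩ := hu
  rw [MonoidHom.mem_ker]
  exact H.units u e he

theorem ab_card (hq : q ≠ 0) (h2 : two2 ∣ q) (H : IsAbelianExtension q K ι art) :
    Nat.card art.range = (FU q art.ker).card := by
  have hfq := H385.he1_finite hq
  have hfu : Finite (RQ q)ˣ := inferInstance
  have h1 := Subgroup.card_mul_index art.ker
  rw [Subgroup.index_ker] at h1
  have h3 := card_FU hq h2 art.ker (NU_le_ker H)
  have h4 : Nat.card art.ker * Nat.card art.range = Nat.card art.ker * (FU q art.ker).card := by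
    rw [h1, h3]
    rfl
  exact Nat.eq_of_mul_eq_mul_left Nat.card_pos h4

theorem ab_order {z : ZI} (u : (RQ q)ˣ) (hu : (u : RQ q) = Ideal.Quotient.mk _ z) :
    orderOf (art u) = fV art.ker z := by
  rw [fV_eq art.ker u hu, orderOf_eq_orderOf_iff]
  intro n
  rw [← map_pow, ← QuotientGroup.mk_pow, QuotientGroup.eq_one_iff, MonoidHom.mem_ker]

theorem ab_split (hq : q ≠ 0) (h2 : two2 ∣ q) (H : IsAbelianExtension q K ι art)
    {z : ZI} (hzp : Prime z) (u : (RQ q)ˣ)
    (hu : (u : RQ q) = Ideal.Quotient.mk _ z) :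
    (∀ v : HeightOneSpectrum (𝓞 K), ι z ∈ v.asIdeal →
      Ideal.absNorm v.asIdeal = nrm z ^ fV art.ker z) ∧
    Nat.card {v : HeightOneSpectrum (𝓞 K) // ι z ∈ v.asIdeal} * fV art.ker z =
      (FU q art.ker).card := by
  classical
  have hfq := H385.he1_finite hq
  have hfu : Finite (RQ q)ˣ := inferInstance
  have hfG : Finite art.range := Finite.of_surjective art.rangeRestrict art.rangeRestrict_surjective
  letI : Algebra ZI (𝓞 K) := ι.toAlgebra
  have halg : ∀ a : ZI, algebraMap ZI (𝓞 K) a = ι a := fun _ => rfl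
  have hgi : ∀ (g : art.range) (a : ZI), g • (ι a) = ι a := by
    rintro ⟨g, w, rfl⟩ a
    exact (H.invariants (ι a)).2 ⟨a, rfl⟩ w
  have hcomm : SMulCommClass art.range ZI (𝓞 K) := by
    constructor
    intro g a x
    rw [Algebra.smul_def, Algebra.smul_def, halg, smul_mul', hgi]
  have hinv : Algebra.IsInvariant ZI (𝓞 K) art.range := by
    constructor
    intro b hb
    obtain ⟨a, ha⟩ := (H.invariants b).1 (fun w => hb ⟨art w, w, rfl⟩)
    exact ⟨a, ha⟩
  have hzirr := hzp.irreducible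
  have hz0 : z ≠ 0 := hzp.ne_zero
  have hmax : (Ideal.span {z}).IsMaximal := PrincipalIdealRing.isMaximal_of_irreducible hzirr
  have hfz : Finite (ZI ⧸ Ideal.span {z}) := H385.he1_finite hz0
  have hcop : IsCoprime z q := coprime_of_unit hu
  have hcardz : Nat.card (ZI ⧸ Ideal.span {z}) = nrm z := H385.H10.card_RQ z
  -- one place
  have key : ∀ v : HeightOneSpectrum (𝓞 K), ι z ∈ v.asIdeal →
      Ideal.absNorm v.asIdeal = nrm z ^ fV art.ker z ∧
      ((Ideal.span {z} : Ideal ZI).primesOver (𝓞 K)).ncard * fV art.ker z =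
        Nat.card art.range := by
    intro v hv
    have hvmax : v.asIdeal.IsMaximal := v.isPrime.isMaximal v.ne_bot
    have hfv : Finite (𝓞 K ⧸ v.asIdeal) := Ideal.finiteQuotientOfFreeOfNeBot v.asIdeal v.ne_bot
    have hover : v.asIdeal.LiesOver (Ideal.span {z}) := by
      constructor
      refine hmax.eq_of_le ?_ ?_
      · exact (inferInstance : (v.asIdeal.under ZI).IsPrime).ne_top
      · rw [Ideal.span_singleton_le_iff_mem, Ideal.mem_comap]
        exact hv
    have hqv : ι q ∉ v.asIdeal := not_mem_both hcop hv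
    have hσm : art u ∈ art.range := MonoidHom.mem_range.2 ⟨u, rfl⟩
    obtain ⟨σ, hσ⟩ : ∃ σ : art.range, (σ : 𝓞 K ≃+* 𝓞 K) = art u := ⟨⟨art u, hσm⟩, rfl⟩
    have h5 := split_abs art.range (Ideal.span {z}) v.asIdeal (by
      rintro ⟨g, w, rfl⟩ hg
      exact Subtype.ext (H.unramified v hqv w hg)) σ (by
      intro x
      rw [hcardz]
      have h6 : σ • x = art u x := by
        rw [← hσ]; rfl
      rw [h6]
      exact H.frobenius z hzp u hu v hv x)
    rw [hcardz, ← Subgroup.orderOf_coe σ, hσ, ab_order u hu] at h5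
    refine ⟨?_, h5.2⟩
    rw [Ideal.absNorm_apply, Submodule.cardQuot_apply]
    exact h5.1
  -- existence of a place
  have hex : ∃ v : HeightOneSpectrum (𝓞 K), ι z ∈ v.asIdeal := by
    have hιinj : Function.Injective ι := by
      rw [injective_iff_map_eq_zero]
      intro a ha
      by_contra h0
      -- the norm of a is a nonzero integer mapping to zero
      have h3 : ι ((a.norm : ℤ) : ZI) = 0 := by
        rw [Zsqrtd.norm_eq_mul_conj, map_mul, ha, zero_mul]
      rw [map_intCast] at h3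
      have h4 : a.norm = 0 := by exact_mod_cast h3
      exact h0 (GaussianInt.norm_eq_zero.1 h4)
    have hnu : ¬ IsUnit (ι z) := by
      intro hun
      obtain ⟨w, hw⟩ := hun.exists_right_inv
      obtain ⟨b, hb⟩ := (H.invariants w).1 (by
        intro t
        have h3 : art t (ι z) = ι z := (H.invariants (ι z)).2 ⟨z, rfl⟩ t
        have h4 : ι z * art t w = 1 := by
          rw [← h3, ← map_mul, hw, map_one]
        exact hun.mul_left_cancel (h4.trans hw.symm))
      apply hzp.not_isUnit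
      refine IsUnit.of_mul_eq_one b ?_
      apply hιinj
      rw [map_mul, map_one, hb]
      exact hw
    obtain ⟨M, hM, hzM⟩ := exists_max_ideal_of_mem_nonunits (mem_nonunits_iff.2 hnu)
    refine ⟨⟨M, hM.isPrime, ?_⟩, hzM⟩
    intro hbot
    rw [hbot, Ideal.mem_bot] at hzM
    exact hz0 (hιinj (by rw [hzM, map_zero]))
  obtain ⟨v0, hv0⟩ := hex
  refine ⟨fun v hv => (key v hv).1, ?_⟩
  have h6 := (key v0 hv0).2
  have h7 : Nat.card {v : HeightOneSpectrum (𝓞 K) // ι z ∈ v.asIdeal} =
      ((Ideal.span {z} : Ideal ZI).primesOver (𝓞 K)).ncard := by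
    rw [← Nat.card_coe_set_eq]
    refine Nat.card_congr
      { toFun := fun v => ⟨v.1.asIdeal, v.1.isPrime, ?_⟩
        invFun := fun P => ⟨⟨P.1, P.2.1, ?_⟩, ?_⟩
        left_inv := fun v => rfl
        right_inv := fun P => rfl }
    · constructor
      have := v.1.isPrime
      refine hmax.eq_of_le ?_ ?_
      · exact (inferInstance : (v.1.asIdeal.under ZI).IsPrime).ne_top
      · rw [Ideal.span_singleton_le_iff_mem, Ideal.mem_comap]
        exact v.2
    · have h8 := P.2.2.over
      intro hbot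
      have h9 : z ∈ P.1.under ZI := by
        rw [← h8]; exact Ideal.mem_span_singleton_self z
      rw [Ideal.mem_comap, hbot, Ideal.mem_bot, halg] at h9
      -- `z ≠ 0` maps to a nonzero element
      have h11 : ι ((z.norm : ℤ) : ZI) = 0 := by
        rw [Zsqrtd.norm_eq_mul_conj, map_mul, h9, zero_mul]
      rw [map_intCast] at h11
      have h12 : z.norm = 0 := by exact_mod_cast h11
      exact hz0 (GaussianInt.norm_eq_zero.1 h12)
    · have h8 := P.2.2.over
      have h9 : z ∈ P.1.under ZI := by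
        rw [← h8]; exact Ideal.mem_span_singleton_self z
      rw [Ideal.mem_comap] at h9
      exact h9
  rw [h7, h6]
  exact ab_card hq h2 H

end

end Pool.Agent.Y693.AB
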